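import Mathlib

/-! Random uniquely extendable constraint satisfaction problems: definitions. -/

open Finset
open scoped BigOperators

namespace Pool.Agent.H886Z.UE

/-- A `k`-ary constraint function on the spin set `Ω`; value `true` means satisfied. -/
abbrev Con (k : ℕ) (Ω : Type) : Type := (Fin k → Ω) → Bool

/-- Uniquely extendable: any `k - 1` entries extend in exactly one way to a satisfying tuple. -/
def IsUE {k : ℕ} {Ω : Type} (ψ : Con k Ω) : Prop :=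
  ∀ (i : Fin k) (σ : Fin k → Ω), ∃! τ : Ω, ψ (Function.update σ i τ) = true

/-- `π` is a probability distribution on the uniquely extendable constraint functions. -/
def IsDist {k : ℕ} {Ω : Type} [Fintype Ω] [DecidableEq Ω] (π : Con k Ω → ℝ) : Prop :=
  (∀ ψ, 0 ≤ π ψ) ∧ ∑ ψ, π ψ = 1 ∧ ∀ ψ, π ψ ≠ 0 → IsUE ψ

/-- The support of `π`. -/
def supp {k : ℕ} {Ω : Type} (π : Con k Ω → ℝ) : Set (Con k Ω) := {ψ | π ψ ≠ 0}

/-- Concatenation of the first `d` entries of `σ` with the last `k - d` entries of `η`. -/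
def glue {k : ℕ} {Ω : Type} (d : ℕ) (σ η : Fin k → Ω) : Fin k → Ω :=
  fun i => if (i : ℕ) < d then σ i else η i

/-- Reducible families of constraint functions. -/
def Reducible {k : ℕ} {Ω : Type} (Ψ : Set (Con k Ω)) : Prop :=
  ∀ d ≤ k, ∀ σ σ' η η' : Fin k → Ω, ∀ ψ ∈ Ψ, ∀ ψ' ∈ Ψ,
    ψ (glue d σ η) = true → ψ (glue d σ' η) = true → ψ' (glue d σ η') = true →
      ψ' (glue d σ' η') = true

/-- Every member is invariant under permuting its arguments. -/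
def Commutative {k : ℕ} {Ω : Type} (Ψ : Set (Con k Ω)) : Prop :=
  ∀ ψ ∈ Ψ, ∀ (s : Equiv.Perm (Fin k)) (σ : Fin k → Ω), ψ (σ ∘ s) = ψ σ

/-- `f_ψ` for `k = 3`: the third entry completing `(a, b)` to a satisfying tuple. -/
noncomputable def ext3 {Ω : Type} (ψ : Con 3 Ω) (a b : Ω) : Ω :=
  haveI : Nonempty Ω := ⟨a⟩
  Classical.epsilon fun τ => ψ ![a, b, τ] = true

/-- Every function in `F_2(Ψ)` is symmetric (`k = 3`). -/
def F2Symmetric {Ω : Type} (Ψ : Set (Con 3 Ω)) : Prop :=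
  ∀ ψ ∈ Ψ, ∀ ψ₁ ∈ Ψ, ∀ ψ₂ ∈ Ψ, ∀ (s : Equiv.Perm (Fin 4)) (x : Fin 4 → Ω),
    ext3 ψ (ext3 ψ₁ (x (s 0)) (x (s 1))) (ext3 ψ₂ (x (s 2)) (x (s 3)))
      = ext3 ψ (ext3 ψ₁ (x 0) (x 1)) (ext3 ψ₂ (x 2) (x 3))

/-- An instance: `m` constraints, each a function and an ordered `k`-tuple of distinct
variables among `n`. -/
abbrev Inst (k : ℕ) (Ω : Type) (n m : ℕ) : Type := Fin m → Con k Ω × (Fin k ↪ Fin n)

open Classical in
/-- Probability of an event under `H_n(π, k, m)`: constraints independent, functions drawn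
from `π`, tuples uniform. -/
noncomputable def prob {k : ℕ} {Ω : Type} [Fintype Ω] [DecidableEq Ω] (π : Con k Ω → ℝ)
    (n m : ℕ) (E : Inst k Ω n m → Prop) : ℝ :=
  ∑ I : Inst k Ω n m with E I, ∏ a, π (I a).1 / Fintype.card (Fin k ↪ Fin n)

/-- The solutions of an instance. -/
def Sol {k : ℕ} {Ω : Type} [Fintype Ω] [DecidableEq Ω] {n m : ℕ} (I : Inst k Ω n m) :
    Finset (Fin n → Ω) :=
  {x | ∀ a, (I a).1 (fun j => x ((I a).2 j)) = true}

/-- `P[x_u = σ, x_v = τ]` for a uniform solution `x` and independent uniform `u, v`. -/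
noncomputable def pairProb {k : ℕ} {Ω : Type} [Fintype Ω] [DecidableEq Ω] {n m : ℕ}
    (I : Inst k Ω n m) (σ τ : Ω) : ℝ :=
  (#{y ∈ Sol I ×ˢ (univ : Finset (Fin n × Fin n)) | y.1 y.2.1 = σ ∧ y.1 y.2.2 = τ} : ℝ)
    / (#(Sol I) * (n : ℝ) ^ 2)

/-- `ρ_{k,d}` -/
noncomputable def rho (k : ℕ) (d : ℝ) : ℝ :=
  sSup {x : ℝ | x ∈ Set.Icc (0 : ℝ) 1 ∧ x = 1 - Real.exp (-(d * x ^ (k - 1)))}

/-- `d_k` -/
noncomputable def dk (k : ℕ) : ℝ :=
  sInf {d : ℝ | 0 < d ∧ rho k d - d * rho k d ^ (k - 1) + (1 - 1 / k) * d * rho k d ^ k < 0}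

/-- The replica symmetry property of Q1: below the threshold, with probability tending to one
(uniformly in `m`) the instance has solutions and all pair probabilities are near `1 / q ^ 2`. -/
def RS {k : ℕ} {Ω : Type} [Fintype Ω] [DecidableEq Ω] (π : Con k Ω → ℝ) : Prop :=
  ∀ ε > (0 : ℝ), ∀ δ > (0 : ℝ), ∃ N : ℕ, ∀ n ≥ N, ∀ m : ℕ, (m : ℝ) < (dk k / k - ε) * n →
    1 - δ ≤ prob π n m fun I => (Sol I).Nonempty ∧
      ∀ σ τ : Ω, |pairProb I σ τ - 1 / (Fintype.card Ω : ℝ) ^ 2| ≤ δ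

end Pool.Agent.H886Z.UE
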