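import Pool.Agent.H886Z.UE.Pairs

/-! Full row rank below the threshold over a finite field. -/

open Finset Module
open scoped BigOperators

namespace Pool.Agent.H886Z.UE

variable {F : Type*} [Field F] {ι : Type*} [Fintype ι] [DecidableEq ι] {k : ℕ}

/-- orthogonal complement for the dot product -/
noncomputable def Kk (W : Submodule F (ι → F)) : Submodule F (ι → F) :=
  W.dualAnnihilator.map ((dotProductEquiv F ι).symm : Dual F (ι → F) →ₗ[F] (ι → F))

lemma mem_Kk {W : Submodule F (ι → F)} {x : ι → F} : x ∈ Kk W ↔ ∀ w ∈ W, x ⬝ᵥ w = 0 := by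
  unfold Kk
  rw [Submodule.mem_map_equiv, Submodule.mem_dualAnnihilator]
  rfl

lemma finrank_Kk (W : Submodule F (ι → F)) : finrank F W + finrank F (Kk W) = Fintype.card ι := by
  unfold Kk
  rw [LinearEquiv.finrank_map_eq, Subspace.finrank_add_finrank_dualAnnihilator_eq]
  simp

lemma mem_Kk_sup {W : Submodule F (ι → F)} {x v : ι → F}
    (h : x ∈ Kk (W ⊔ Submodule.span F {v})) : x ⬝ᵥ v = 0 ∧ x ∈ Kk W :=
  ⟨mem_Kk.mp h v (Submodule.mem_sup_right (Submodule.mem_span_singleton_self v)),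
    mem_Kk.mpr fun w hw => mem_Kk.mp h w (Submodule.mem_sup_left hw)⟩

lemma dot_ev (x : ι → F) (i : ι) : x ⬝ᵥ ev F i = x i := by simp [ev]

lemma dot_vec (c : Fin k → F) (r : Fin k → ι) (x : ι → F) :
    x ⬝ᵥ vec c r = ∑ j, c j * x (r j) := by
  unfold vec
  rw [dotProduct_sum]
  simp only [dotProduct_smul, dot_ev, smul_eq_mul]

lemma char_sum (ψ : AddChar F ℂ) {κ : Type*} (s : Finset κ) (f : κ → F) :
    ψ (∑ j ∈ s, f j) = ∏ j ∈ s, ψ (f j) := by
  classical
  induction s using Finset.induction_on with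
  | empty => simp
  | insert a s ha ih => rw [Finset.sum_insert ha, Finset.prod_insert ha, AddChar.map_add_eq_mul, ih]

lemma expect_prod_c {κ ι : Type*} [Fintype κ] [DecidableEq κ] [DecidableEq ι] (S : Finset ι)
    (g : κ → ι → ℂ) :
    𝔼 r ∈ Fintype.piFinset (fun _ : κ => S), ∏ j, g j (r j) = ∏ j, 𝔼 i ∈ S, g j i := by
  simp only [Finset.expect_eq_sum_div_card]
  rw [Finset.prod_div_distrib, Finset.prod_univ_sum, Fintype.card_piFinset]
  simp

/-- span of the rows -/
def WA (c : Fin k → F) {m : ℕ} (A : Fin m → Fin k → ι) : Submodule F (ι → F) :=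
  Submodule.span F (Set.range fun i => vec c (A i))

lemma Top_pow_bot (c : Fin k → F) (m : ℕ) (f : Submodule F (ι → F) → ℝ) :
    (Top c (Finset.univ : Finset ι) ^ m) f ⊥ = 𝔼 A : Fin m → Fin k → ι, f (WA c A) := by
  unfold Top tup
  rw [Fintype.piFinset_univ, op_pow_apply]
  refine Finset.expect_congr rfl fun A _ => ?_
  rw [bot_sup_eq, Finset.sup_univ_eq_iSup, WA, Submodule.span_range_eq_iSup]

lemma finrank_WA_le (c : Fin k → F) {m : ℕ} (A : Fin m → Fin k → ι) : finrank F (WA c A) ≤ m := by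
  have := finrank_range_le_card (R := F) (fun i => vec c (A i))
  rw [Fintype.card_fin] at this
  exact this

variable [Fintype F] [DecidableEq F]

/-- Fourier coefficient of the empirical distribution -/
noncomputable def rh (ψ : AddChar F ℂ) (x : ι → F) (a : F) : ℂ := 𝔼 i : ι, ψ (a * x i)

/-- total Fourier weight off zero -/
noncomputable def sg (ψ : AddChar F ℂ) (x : ι → F) : ℝ :=
  ∑ a ∈ Finset.univ.erase (0 : F), ‖rh ψ x a‖ ^ 2

/-- probability that a random row annihilates `x` -/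
noncomputable def Prow (c : Fin k → F) (x : ι → F) : ℝ :=
  𝔼 r ∈ tup k (Finset.univ : Finset ι), ind (x ⬝ᵥ vec c r = 0)

lemma sg_nonneg (ψ : AddChar F ℂ) (x : ι → F) : 0 ≤ sg ψ x :=
  Finset.sum_nonneg fun _ _ => sq_nonneg _

lemma Prow_eq {ψ : AddChar F ℂ} (hψ : ψ.IsPrimitive) (c : Fin k → F) (x : ι → F) :
    ((Fintype.card F * Prow c x : ℝ) : ℂ) = ∑ a : F, ∏ j, rh ψ x (a * c j) := by
  unfold Prow rh
  rw [Finset.mul_expect, Complex.ofReal_expect]
  simp only [← expect_prod_c]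
  rw [← Finset.expect_sum_comm]
  refine Finset.expect_congr rfl fun r _ => ?_
  have : ∀ a : F, ∏ j, ψ (a * c j * x (r j)) = ψ (a * (x ⬝ᵥ vec c r)) := by
    intro a
    rw [dot_vec, Finset.mul_sum, char_sum]
    simp only [mul_assoc]
  simp only [this]
  rw [AddChar.sum_mulShift _ hψ]
  by_cases h : x ⬝ᵥ vec c r = 0
  · rw [ind_pos h, if_pos h]; simp
  · rw [ind_neg h, if_neg h]; simp

lemma Prow_le [Nonempty ι] {ψ : AddChar F ℂ} (hψ : ψ.IsPrimitive) (hk : 3 ≤ k) (c : Fin k → F)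
    (hc : ∀ j, c j ≠ 0) (x : ι → F) {δ : ℝ} (hδ0 : 0 ≤ δ) (hδ1 : δ ≤ 1) (h : sg ψ x ≤ δ ^ 2) :
    Fintype.card F * Prow c x ≤ Real.exp (Fintype.card F * δ * sg ψ x) := by
  have e := congrArg Complex.re (Prow_eq hψ c x)
  rw [Complex.ofReal_re, ← Finset.add_sum_erase _ _ (Finset.mem_univ (0:F))] at e
  have e0 : ∏ j, rh ψ x (0 * c j) = 1 := by
    refine Finset.prod_eq_one fun j _ => ?_
    simp [rh, Finset.expect_const Finset.univ_nonempty]
  rw [e0, Complex.add_re, Complex.one_re] at e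
  set s := Real.sqrt (sg ψ x) with hs
  have hs0 : 0 ≤ s := Real.sqrt_nonneg _
  have hss : s ^ 2 = sg ψ x := Real.sq_sqrt (sg_nonneg ψ x)
  have hsδ : s ≤ δ := by rw [hs]; exact Real.sqrt_le_iff.mpr ⟨hδ0, h⟩
  have b1 : ∀ a ∈ Finset.univ.erase (0:F), ‖∏ j, rh ψ x (a * c j)‖ ≤ δ * sg ψ x := by
    intro a ha
    rw [norm_prod]
    have : ∏ j, ‖rh ψ x (a * c j)‖ ≤ ∏ _j : Fin k, s := by
      refine Finset.prod_le_prod (fun _ _ => norm_nonneg _) fun j _ => ?_
      rw [hs]
      refine Real.le_sqrt_of_sq_le ?_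
      exact Finset.single_le_sum (f := fun a => ‖rh ψ x a‖ ^ 2) (fun _ _ => sq_nonneg _)
        (Finset.mem_erase.mpr ⟨mul_ne_zero (Finset.ne_of_mem_erase ha) (hc j), Finset.mem_univ _⟩)
    rw [Finset.prod_const, Finset.card_univ, Fintype.card_fin] at this
    calc _ ≤ s ^ k := this
      _ ≤ s ^ 3 := pow_le_pow_of_le_one hs0 (hsδ.trans hδ1) hk
      _ = s * sg ψ x := by rw [← hss]; ring
      _ ≤ δ * sg ψ x := mul_le_mul_of_nonneg_right hsδ (sg_nonneg ψ x)
  have b2 : (∑ a ∈ Finset.univ.erase (0:F), ∏ j, rh ψ x (a * c j)).re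
      ≤ Fintype.card F * (δ * sg ψ x) := by
    refine le_trans (Complex.re_le_norm _) (le_trans (norm_sum_le _ _) ?_)
    refine le_trans (Finset.sum_le_card_nsmul _ _ _ b1) ?_
    rw [nsmul_eq_mul]
    have : (((Finset.univ.erase (0:F)).card : ℕ) : ℝ) ≤ Fintype.card F := by
      exact_mod_cast Finset.card_le_univ _
    exact mul_le_mul_of_nonneg_right this (mul_nonneg hδ0 (sg_nonneg ψ x))
  rw [e, mul_assoc]
  linarith [Real.add_one_le_exp (Fintype.card F * (δ * sg ψ x))]

lemma exp_sg_le [Nonempty ι] {ψ : AddChar F ℂ} (hψ : ψ.IsPrimitive) {l : ℝ} (hl : 0 ≤ l)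
    (hl' : l * (2 * Fintype.card F) ≤ 1 / 8) :
    𝔼 x : ι → F, Real.exp (l * (Fintype.card ι * sg ψ x))
      ≤ 1 + 32 * l * (Fintype.card F) ^ 2 * Csg := by
  set N := Fintype.card ι with hN
  have hN0 : (0:ℝ) < N := by exact_mod_cast Fintype.card_pos
  set T := Finset.univ.erase (0:F) ×ˢ (Finset.univ : Finset Bool) with hT
  set g : F × Bool → F → ℝ := fun p y => if p.2 then (ψ (p.1 * y)).re else (ψ (p.1 * y)).im
    with hg
  have hTc : (T.card : ℝ) ≤ 2 * Fintype.card F := by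
    rw [hT, Finset.card_product, Finset.card_univ, Fintype.card_bool, mul_comm]
    exact_mod_cast Nat.mul_le_mul_left 2 (Finset.card_le_univ _)
  have g0 : ∀ p ∈ T, ∑ y, g p y = 0 := by
    rintro ⟨a, b⟩ hp
    have ha : a ≠ 0 := Finset.ne_of_mem_erase (Finset.mem_product.mp hp).1
    have := AddChar.sum_mulShift a hψ
    rw [if_neg ha] at this
    simp only [mul_comm _ a, Nat.cast_zero] at this
    cases b
    · simp only [hg, Bool.false_eq_true, if_false]
      rw [← Complex.im_sum, this]; rfl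
    · simp only [hg, if_true]
      rw [← Complex.re_sum, this]; rfl
  have g1 : ∀ p y, |g p y| ≤ 1 := by
    rintro ⟨a, b⟩ y
    cases b
    · simp only [hg, Bool.false_eq_true, if_false]
      exact (Complex.abs_im_le_norm _).trans (AddChar.norm_apply ψ _).le
    · simp only [hg, if_true]
      exact (Complex.abs_re_le_norm _).trans (AddChar.norm_apply ψ _).le
  have e : ∀ x : ι → F, N * sg ψ x = ∑ p ∈ T, (∑ i, g p (x i)) ^ 2 / N := by
    intro x
    rw [hT, Finset.sum_product, sg, Finset.mul_sum]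
    refine Finset.sum_congr rfl fun a _ => ?_
    rw [Fintype.sum_bool, Complex.sq_norm, Complex.normSq_apply, rh, Complex.re_expect,
      Complex.im_expect, Finset.expect_eq_sum_div_card, Finset.expect_eq_sum_div_card,
      Finset.card_univ, ← hN]
    simp only [hg, Bool.false_eq_true, if_false, if_true]
    field_simp
  have hlT : l * T.card ≤ 1 / 8 := le_trans (mul_le_mul_of_nonneg_left hTc hl) hl'
  have pt : ∀ x : ι → F, Real.exp (l * (N * sg ψ x))
      ≤ 1 + 8 * (l * T.card) * ∑ p ∈ T, Real.exp ((∑ i, g p (x i)) ^ 2 / (4 * N)) := by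
    intro x
    rw [e]
    have := exp_sum_le T (fun p => (∑ i, g p (x i)) ^ 2 / N) (fun _ _ => by positivity) hl hlT
    simp only [div_div, mul_comm (N:ℝ) 4] at this
    exact this
  refine le_trans (Finset.expect_le_expect fun x _ => pt x) ?_
  rw [Finset.expect_add_distrib, Finset.expect_const Finset.univ_nonempty, ← Finset.mul_expect,
    Finset.expect_sum_comm]
  have b : ∑ p ∈ T, 𝔼 x : ι → F, Real.exp ((∑ i, g p (x i)) ^ 2 / (4 * N)) ≤ T.card * Csg := by
    have := Finset.sum_le_card_nsmul T _ Csg (fun p hp => subgauss (ι := ι) (g p) (g0 p hp) (g1 p))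
    rwa [nsmul_eq_mul] at this
  have hC := Csg_pos
  calc _ ≤ 1 + 8 * (l * T.card) * (T.card * Csg) := by gcongr
    _ ≤ 1 + 8 * (l * (2 * Fintype.card F)) * ((2 * Fintype.card F) * Csg) := by gcongr
    _ = _ := by ring

open Classical in
lemma sum_sg_le {ψ : AddChar F ℂ} (hψ : ψ.IsPrimitive) (W : Submodule F (ι → F)) :
    ∑ x : Kk W, sg ψ (x : ι → F) ≤ Fintype.card F * be W * Fintype.card (Kk W) := by
  have key : ∀ a ∈ Finset.univ.erase (0:F),
      ∑ x : Kk W, ‖rh ψ (x : ι → F) a‖ ^ 2 ≤ be W * Fintype.card (Kk W) := by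
    intro a ha
    have ha0 : a ≠ 0 := Finset.ne_of_mem_erase ha
    have e1 : ∀ x : ι → F, ‖rh ψ x a‖ ^ 2
        = 𝔼 u : ι, 𝔼 v : ι, (ψ (x ⬝ᵥ (a • ev F u + (-a) • ev F v))).re := by
      intro x
      have : ((‖rh ψ x a‖ ^ 2 : ℝ) : ℂ)
          = 𝔼 u : ι, 𝔼 v : ι, ψ (x ⬝ᵥ (a • ev F u + (-a) • ev F v)) := by
        rw [Complex.sq_norm, ← Complex.mul_conj, rh, map_expect, Finset.expect_mul_expect]
        refine Finset.expect_congr rfl fun u _ => Finset.expect_congr rfl fun v _ => ?_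
        rw [← AddChar.map_neg_eq_conj, ← AddChar.map_add_eq_mul, dotProduct_add, dotProduct_smul,
          dotProduct_smul, dot_ev, dot_ev]
        simp
      have h2 := congrArg Complex.re this
      rw [Complex.ofReal_re, Complex.re_expect] at h2
      simp only [Complex.re_expect] at h2
      exact h2
    simp only [e1]
    rw [← Finset.expect_sum_comm, be, Finset.expect_mul]
    refine Finset.expect_le_expect fun u _ => ?_
    rw [← Finset.expect_sum_comm, Finset.expect_mul]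
    refine Finset.expect_le_expect fun v _ => ?_
    set z := a • ev F u + (-a) • ev F v with hz
    by_cases hb : bad W u v
    · rw [ind_pos hb, one_mul]
      have := Finset.sum_le_card_nsmul (Finset.univ : Finset (Kk W))
        (fun x => (ψ ((x : ι → F) ⬝ᵥ z)).re) 1
        (fun x _ => (Complex.re_le_norm _).trans (AddChar.norm_apply ψ _).le)
      simpa using this
    · rw [ind_neg hb, zero_mul, ← Complex.re_sum]
      have hzW : z ∉ W := fun h => hb ⟨a, -a, Or.inl ha0, h⟩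
      obtain ⟨f, hf, hfW⟩ := Submodule.exists_dual_map_eq_bot_of_notMem hzW inferInstance
      set x₀ := (dotProductEquiv F ι).symm f with hx₀
      have hx : ∀ w, x₀ ⬝ᵥ w = f w := fun w =>
        congrArg (fun g : Dual F (ι → F) => g w) ((dotProductEquiv F ι).apply_symm_apply f)
      have hx₀K : x₀ ∈ Kk W := mem_Kk.mpr fun w hw => by
        rw [hx]
        have : f w ∈ W.map f := Submodule.mem_map_of_mem hw
        rwa [hfW, Submodule.mem_bot] at this
      let φ : Kk W →+ F :=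
        { toFun := fun x => (x : ι → F) ⬝ᵥ z
          map_zero' := by simp
          map_add' := fun x y => by simp [add_dotProduct] }
      have hne : ψ.compAddMonoidHom φ ≠ 0 := by
        intro h0
        refine hψ hf ?_
        ext y
        have := DFunLike.congr_fun h0 ⟨y • x₀, (Kk W).smul_mem y hx₀K⟩
        simp only [AddChar.compAddMonoidHom_apply, φ, AddMonoidHom.coe_mk, ZeroHom.coe_mk,
          smul_dotProduct, hx, smul_eq_mul] at this
        rw [AddChar.mulShift_apply, mul_comm, this]; rfl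
      have := AddChar.sum_eq_zero_iff_ne_zero.mpr hne
      have e : ∑ x : Kk W, ψ ((x : ι → F) ⬝ᵥ z) = 0 := this
      rw [e]; simp
  unfold sg
  rw [Finset.sum_comm]
  refine le_trans (Finset.sum_le_card_nsmul _ _ _ key) ?_
  rw [nsmul_eq_mul, mul_assoc]
  have : (((Finset.univ.erase (0:F)).card : ℕ) : ℝ) ≤ Fintype.card F := by
    exact_mod_cast Finset.card_le_univ _
  exact mul_le_mul_of_nonneg_right this (mul_nonneg (be_nonneg W) (Nat.cast_nonneg _))

/-- number of balanced kernel vectors -/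
noncomputable def Zb (ψ : AddChar F ℂ) (δ : ℝ) (W : Submodule F (ι → F)) : ℝ :=
  ∑ x : ι → F, ind (sg ψ x ≤ δ ^ 2) * ind (x ∈ Kk W)

lemma Zb_ge {ψ : AddChar F ℂ} (hψ : ψ.IsPrimitive) {δ : ℝ} (hδ : 0 < δ) (W : Submodule F (ι → F))
    {m : ℕ} (hm : finrank F W ≤ m) :
    (1 + ind (finrank F W < m) - 2 * (Fintype.card F / δ ^ 2) * be W)
      * (Fintype.card F : ℝ) ^ Fintype.card ι ≤ (Fintype.card F : ℝ) ^ m * Zb ψ δ W := by
  classical
  set q : ℝ := (Fintype.card F : ℝ) with hq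
  have hq2 : (2:ℝ) ≤ q := by rw [hq]; exact_mod_cast Fintype.one_lt_card
  set y := q / δ ^ 2 * be W with hy
  have hy0 : 0 ≤ y := mul_nonneg (by positivity) (be_nonneg W)
  have hZ0 : 0 ≤ Zb ψ δ W :=
    Finset.sum_nonneg fun _ _ => mul_nonneg (ind_nonneg _) (ind_nonneg _)
  have e1 : Zb ψ δ W = ∑ x : Kk W, ind (sg ψ (x : ι → F) ≤ δ ^ 2) := by
    unfold Zb
    rw [← Finset.sum_subtype (Finset.univ.filter (· ∈ Kk W)) (by simp)
      (fun x => ind (sg ψ x ≤ δ ^ 2)), Finset.sum_filter]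
    refine Finset.sum_congr rfl fun x _ => ?_
    by_cases h : x ∈ Kk W
    · rw [ind_pos h, if_pos h, mul_one]
    · rw [ind_neg h, if_neg h, mul_zero]
  have e2 : (Fintype.card (Kk W) : ℝ) * (1 - y) ≤ Zb ψ δ W := by
    have h1 : ∑ x : Kk W, (1 - sg ψ (x : ι → F) / δ ^ 2) ≤ Zb ψ δ W := by
      rw [e1]
      refine Finset.sum_le_sum fun x _ => ?_
      by_cases h : sg ψ (x : ι → F) ≤ δ ^ 2
      · rw [ind_pos h]
        have := sg_nonneg ψ (x : ι → F)
        have : 0 ≤ sg ψ (x : ι → F) / δ ^ 2 := by positivity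
        linarith
      · rw [ind_neg h, sub_nonpos, one_le_div (by positivity)]
        exact (not_le.mp h).le
    rw [Finset.sum_sub_distrib, ← Finset.sum_div, Finset.sum_const, Finset.card_univ,
      nsmul_eq_mul, mul_one] at h1
    have h2 : (∑ x : Kk W, sg ψ (x : ι → F)) / δ ^ 2 ≤ q * be W * Fintype.card (Kk W) / δ ^ 2 := by
      gcongr; exact sum_sg_le hψ W
    have h3 : q * be W * Fintype.card (Kk W) / δ ^ 2 = Fintype.card (Kk W) * y := by
      rw [hy]; ring
    linarith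
  have e3 : (Fintype.card (Kk W) : ℝ) * q ^ finrank F W = q ^ Fintype.card ι := by
    rw [Module.card_eq_pow_finrank (K := F), ← finrank_Kk W, pow_add, hq]
    push_cast; ring
  have e4 : (1 + ind (finrank F W < m)) * q ^ finrank F W ≤ q ^ m := by
    by_cases h : finrank F W < m
    · rw [ind_pos h]
      calc (1 + 1) * q ^ finrank F W ≤ q * q ^ finrank F W := by gcongr; linarith
        _ = q ^ (finrank F W + 1) := by ring
        _ ≤ q ^ m := pow_le_pow_right₀ (by linarith) h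
    · rw [ind_neg h, add_zero, one_mul]
      exact pow_le_pow_right₀ (by linarith) hm
  have i0 := ind_nonneg (finrank F W < m)
  have i1 := ind_le_one (finrank F W < m)
  rw [mul_assoc 2, ← hy]
  have hqN : 0 < q ^ Fintype.card ι := by positivity
  rcases le_total y 1 with h | h
  · have hK : (0:ℝ) ≤ Fintype.card (Kk W) := Nat.cast_nonneg _
    calc _ ≤ (1 + ind (finrank F W < m)) * (1 - y) * q ^ Fintype.card ι := by
          gcongr; nlinarith
      _ = ((1 + ind (finrank F W < m)) * q ^ finrank F W) * (Fintype.card (Kk W) * (1 - y)) := by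
          rw [← e3]; ring
      _ ≤ q ^ m * Zb ψ δ W := by
          have : 0 ≤ (Fintype.card (Kk W) : ℝ) * (1 - y) := mul_nonneg hK (by linarith)
          gcongr
  · have : (1 + ind (finrank F W < m) - 2 * y) * q ^ Fintype.card ι ≤ 0 :=
      mul_nonpos_of_nonpos_of_nonneg (by linarith) hqN.le
    have : 0 ≤ q ^ m * Zb ψ δ W := by positivity
    linarith

lemma Zb_expect [Nonempty ι] {ψ : AddChar F ℂ} (hψ : ψ.IsPrimitive) (hk : 3 ≤ k) (c : Fin k → F)
    (hc : ∀ j, c j ≠ 0) {δ : ℝ} (hδ0 : 0 ≤ δ) (hδ1 : δ ≤ 1)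
    (hδ : Fintype.card F * δ * (2 * Fintype.card F) ≤ 1 / 8) {m : ℕ} (hm : m ≤ Fintype.card ι) :
    (Fintype.card F : ℝ) ^ m * (Top c (Finset.univ : Finset ι) ^ m) (Zb ψ δ) ⊥
      ≤ (1 + 32 * (Fintype.card F * δ) * (Fintype.card F) ^ 2 * Csg)
        * (Fintype.card F : ℝ) ^ Fintype.card ι := by
  set q : ℝ := (Fintype.card F : ℝ) with hq
  have hq0 : (0:ℝ) ≤ q := Nat.cast_nonneg _
  have hT := mk_Top c (Finset.univ_nonempty (α := ι))
  have e : (Zb ψ δ : Submodule F (ι → F) → ℝ)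
      = ∑ x : ι → F, ind (sg ψ x ≤ δ ^ 2) • fun W => ind (x ∈ Kk W) := by
    funext W; simp [Zb, Finset.sum_apply]
  rw [e, map_sum, Finset.sum_apply, Finset.mul_sum]
  have h1 := exp_sg_le (ι := ι) hψ (l := q * δ) (by positivity) hδ
  rw [Finset.expect_eq_sum_div_card, Finset.card_univ, Fintype.card_fun, div_le_iff₀ (by
    have : 0 < Fintype.card F := Fintype.card_pos
    positivity)] at h1
  push_cast at h1
  refine le_trans (Finset.sum_le_sum fun x _ => ?_) h1
  rw [map_smul, Pi.smul_apply, smul_eq_mul]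
  by_cases h : sg ψ x ≤ δ ^ 2
  · rw [ind_pos h, one_mul]
    have hP0 : 0 ≤ Prow c x := Finset.expect_nonneg fun _ _ => ind_nonneg _
    have h2 := iter_mul_le hT hT.pos (f := fun W => ind (x ∈ Kk W)) hP0 (fun W _ => by
      unfold Prow
      rw [Finset.expect_mul]
      refine Finset.expect_le_expect fun r _ => ?_
      by_cases hx : x ∈ Kk (W ⊔ Submodule.span F {vec c r})
      · rw [ind_pos hx, ind_pos (mem_Kk_sup hx).1, ind_pos (mem_Kk_sup hx).2, one_mul]
      · rw [ind_neg hx]; exact mul_nonneg (ind_nonneg _) (ind_nonneg _)) m ⊥ (Set.mem_univ _)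
    have h3 : Prow c x ^ m * ind (x ∈ Kk (⊥ : Submodule F (ι → F))) ≤ Prow c x ^ m :=
      mul_le_of_le_one_right (pow_nonneg hP0 m) (ind_le_one _)
    have h4 := Prow_le hψ hk c hc x hδ0 hδ1 h
    have hm' : (m : ℝ) ≤ Fintype.card ι := by exact_mod_cast hm
    have := sg_nonneg ψ x
    calc _ ≤ q ^ m * Prow c x ^ m := mul_le_mul_of_nonneg_left (h2.trans h3) (pow_nonneg hq0 m)
      _ = (q * Prow c x) ^ m := (mul_pow _ _ _).symm
      _ ≤ Real.exp (q * δ * sg ψ x) ^ m := pow_le_pow_left₀ (mul_nonneg hq0 hP0) h4 m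
      _ = Real.exp (q * δ * (m * sg ψ x)) := by rw [← Real.exp_nat_mul]; congr 1; ring
      _ ≤ _ := by gcongr
  · rw [ind_neg h, zero_mul, mul_zero]; exact (Real.exp_pos _).le

theorem full_rank {F : Type} [Field F] [Fintype F] [DecidableEq F] (hk : 3 ≤ k) {D s η : ℝ}
    (hD : PhiOK k D) (hs0 : 0 ≤ s) (hsD : k * s < D) (hη : 0 < η) (c : Fin k → F)
    (hc : ∀ j, c j ≠ 0) : ∃ N₁ : ℕ, ∀ (ι : Type) [Fintype ι] [DecidableEq ι],
      N₁ ≤ Fintype.card ι → ∀ m : ℕ, (m : ℝ) ≤ s * Fintype.card ι →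
      𝔼 A : Fin m → Fin k → ι, (ind (finrank F (WA c A) < m) + be (WA c A)) ≤ η := by
  have hk0 : 0 < k := by omega
  have hkR : (0:ℝ) < k := by exact_mod_cast hk0
  have hψ := AddChar.FiniteField.primitiveChar_to_Complex_isPrimitive F
  set ψ := AddChar.FiniteField.primitiveChar_to_Complex F
  set q : ℝ := (Fintype.card F : ℝ) with hq
  have hq2 : (2:ℝ) ≤ q := by rw [hq]; exact_mod_cast Fintype.one_lt_card
  have hC := Csg_pos
  set δ := min (1 / (16 * q ^ 2)) (η / 2 / (32 * q ^ 3 * Csg)) with hδ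
  have hδ0 : 0 < δ := lt_min (by positivity) (by positivity)
  have hδa : δ ≤ 1 / (16 * q ^ 2) := min_le_left _ _
  have hδb : δ ≤ η / 2 / (32 * q ^ 3 * Csg) := min_le_right _ _
  rw [le_div_iff₀ (by positivity)] at hδa hδb
  have hδ1 : δ ≤ 1 := by nlinarith
  obtain ⟨N₁, hN₁⟩ := pairs_small hk0 hD hs0 hsD
    (show 0 < η / 2 / (2 * (q / δ ^ 2) + 1) by positivity)
  refine ⟨max N₁ 1, fun ι _ _ hN m hm => ?_⟩
  have h1 := hN₁ F c hc ι (le_trans (le_max_left _ _) hN) m hm
  haveI : Nonempty ι := Fintype.card_pos_iff.mp (le_trans (le_max_right _ _) hN)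
  have hs1 : s ≤ 1 := by have := hD.le hk0; nlinarith
  have hmN : m ≤ Fintype.card ι := by
    have : (m : ℝ) ≤ Fintype.card ι := by nlinarith [Nat.cast_nonneg (α := ℝ) (Fintype.card ι)]
    exact_mod_cast this
  have h2 := Zb_expect (ι := ι) hψ hk c hc hδ0.le hδ1 (by rw [← hq]; nlinarith) hmN
  rw [Top_pow_bot] at h1 h2
  rw [Finset.mul_expect] at h2
  have h3 := (Finset.expect_le_expect (s := Finset.univ) fun (A : Fin m → Fin k → ι) _ =>
    Zb_ge hψ hδ0 (WA c A) (finrank_WA_le c A)).trans h2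
  rw [← Finset.expect_mul, ← hq] at h3
  have h4 := le_of_mul_le_mul_right h3 (by positivity)
  rw [Finset.expect_sub_distrib, Finset.expect_add_distrib,
    Finset.expect_const Finset.univ_nonempty, ← Finset.mul_expect] at h4
  rw [Finset.expect_add_distrib]
  rw [le_div_iff₀ (by positivity)] at h1
  nlinarith

end Pool.Agent.H886Z.UE
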