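import Pool.Agent.H886Z.UE.Ops

/-! Rank increments when random rows are added to a subspace. -/

open Finset Module
open scoped BigOperators

namespace Pool.Agent.H886Z.UE

variable {F : Type*} [Field F] {ι : Type*} [Fintype ι] [DecidableEq ι] {k : ℕ}

/-- unit vector -/
def ev (F : Type*) [Field F] {ι : Type*} [DecidableEq ι] (i : ι) : ι → F := Pi.single i 1

/-- the row with coefficients `c` at positions `r` -/
def vec (c : Fin k → F) (r : Fin k → ι) : ι → F := ∑ j, c j • ev F (r j)

/-- dimension as a real number -/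
noncomputable def rk (W : Submodule F (ι → F)) : ℝ := finrank F W

/-- fraction of frozen coordinates -/
noncomputable def al (S : Finset ι) (W : Submodule F (ι → F)) : ℝ := 𝔼 i ∈ S, ind (ev F i ∈ W)

/-- tuples with entries in `S` -/
abbrev tup (k : ℕ) (S : Finset ι) : Finset (Fin k → ι) := Fintype.piFinset fun _ : Fin k => S

/-- span of the unit vectors at the positions `r` -/
def pins (F : Type*) [Field F] (r : Fin k → ι) : Submodule F (ι → F) :=
  Submodule.span F (Set.range fun j => ev F (r j))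

/-- add a random row -/
noncomputable def Top (c : Fin k → F) (S : Finset ι) : Module.End ℝ (Submodule F (ι → F) → ℝ) :=
  op (tup k S) fun r => Submodule.span F {vec c r}

/-- add `k` random unit rows -/
noncomputable def Qop (F : Type*) [Field F] (k : ℕ) (S : Finset ι) :
    Module.End ℝ (Submodule F (ι → F) → ℝ) :=
  op (tup k S) fun r => pins F r

/-- add a random row through the new coordinate `a` -/
noncomputable def Tnew (c : Fin k → F) (S : Finset ι) (a : ι) :
    Module.End ℝ (Submodule F (ι → F) → ℝ) :=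
  op ((Finset.univ : Finset (Fin k)) ×ˢ tup k S)
    fun x => Submodule.span F {vec c (Function.update x.2 x.1 a)}

lemma tup_nonempty {S : Finset ι} (hS : S.Nonempty) : (tup k S).Nonempty :=
  Fintype.piFinset_nonempty.mpr fun _ => hS

lemma mk_Top (c : Fin k → F) {S : Finset ι} (hS : S.Nonempty) : Mk (Top c S) :=
  mk_op (tup_nonempty hS) _

lemma mk_Qop {S : Finset ι} (hS : S.Nonempty) : Mk (Qop F k S) := mk_op (tup_nonempty hS) _

lemma mk_Tnew (c : Fin k → F) {S : Finset ι} (hS : S.Nonempty) (hk : 0 < k) (a : ι) :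
    Mk (Tnew c S a) :=
  mk_op (Finset.Nonempty.product ⟨⟨0, hk⟩, Finset.mem_univ _⟩ (tup_nonempty hS)) _

lemma rk_mono : Monotone (rk : Submodule F (ι → F) → ℝ) := fun _ _ h => by
  unfold rk; exact_mod_cast Submodule.finrank_mono h

lemma rk_nonneg (W : Submodule F (ι → F)) : 0 ≤ rk W := by unfold rk; positivity

lemma rk_bot : rk (⊥ : Submodule F (ι → F)) = 0 := by unfold rk; simp

lemma rk_sup_le (W Z : Submodule F (ι → F)) : rk (W ⊔ Z) ≤ rk W + rk Z := by
  unfold rk; exact_mod_cast Submodule.finrank_add_le_finrank_add_finrank W Z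

lemma rk_span_le (v : ι → F) : rk (Submodule.span F {v}) ≤ 1 := by
  unfold rk
  have := finrank_span_le_card (R := F) ({v} : Set (ι → F))
  simp only [Set.toFinset_singleton, Finset.card_singleton] at this
  exact_mod_cast this

lemma rk_pins_le (r : Fin k → ι) : rk (pins F r) ≤ k := by
  unfold rk pins
  have := finrank_range_le_card (R := F) (fun j => ev F (r j))
  simp only [Fintype.card_fin, Set.finrank] at this
  exact_mod_cast this

lemma rk_sup_span (W : Submodule F (ι → F)) (v : ι → F) :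
    rk (W ⊔ Submodule.span F {v}) = rk W + ind (v ∉ W) := by
  by_cases h : v ∈ W
  · rw [ind_neg (not_not.mpr h), sup_eq_left.mpr ((Submodule.span_singleton_le_iff_mem _ _).mpr h),
      add_zero]
  · rw [ind_pos h]
    have hv : v ≠ 0 := fun e => h (e ▸ W.zero_mem)
    have hd : W ⊓ Submodule.span F {v} = ⊥ :=
      disjoint_iff.mp ((Submodule.disjoint_span_singleton' hv).mpr h)
    have := Submodule.finrank_sup_add_finrank_inf_eq W (Submodule.span F {v})
    rw [hd, finrank_bot, finrank_span_singleton hv] at this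
    unfold rk
    exact_mod_cast this

lemma al_mono (S : Finset ι) : Monotone (al S : Submodule F (ι → F) → ℝ) := fun _ _ h =>
  Finset.expect_le_expect fun _ _ => ind_mono fun hi => h hi

lemma al_bounds {S : Finset ι} (hS : S.Nonempty) (W : Submodule F (ι → F)) :
    0 ≤ al S W ∧ al S W ≤ 1 :=
  ⟨Finset.expect_nonneg fun _ _ => ind_nonneg _, Finset.expect_le hS fun _ _ => ind_le_one _⟩

lemma vec_mem (c : Fin k → F) (r : Fin k → ι) {W : Submodule F (ι → F)}
    (h : ∀ j, ev F (r j) ∈ W) : vec c r ∈ W :=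
  W.sum_mem fun j _ => W.smul_mem _ (h j)

lemma vec_split (c : Fin k → F) (r : Fin k → ι) (j : Fin k) :
    vec c r = c j • ev F (r j) + ∑ j' ∈ Finset.univ.erase j, c j' • ev F (r j') := by
  unfold vec
  rw [Finset.add_sum_erase _ (fun j => c j • ev F (r j)) (Finset.mem_univ j)]

lemma ev_mem_of_vec (c : Fin k → F) (hc : ∀ j, c j ≠ 0) (r : Fin k → ι) (j : Fin k)
    {W : Submodule F (ι → F)} (hv : vec c r ∈ W) (h : ∀ j', j' ≠ j → ev F (r j') ∈ W) :
    ev F (r j) ∈ W := by
  have h1 : ∑ j' ∈ Finset.univ.erase j, c j' • ev F (r j') ∈ W :=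
    W.sum_mem fun j' hj' => W.smul_mem _ (h j' (Finset.ne_of_mem_erase hj'))
  rw [vec_split c r j] at hv
  have h2 : c j • ev F (r j) ∈ W := by
    have := W.sub_mem hv h1
    simpa using this
  exact (W.smul_mem_iff (hc j)).mp h2

lemma expect_prod_ind {S : Finset ι} (hS : S.Nonempty) (J : Finset (Fin k))
    (W : Submodule F (ι → F)) :
    𝔼 r ∈ tup k S, ∏ j ∈ J, ind (ev F (r j) ∈ W) = al S W ^ J.card := by
  have h := expect_prod (κ := Fin k) S (fun j i => if j ∈ J then ind (ev F i ∈ W) else 1)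
  have e1 : ∀ r : Fin k → ι, ∏ j, (if j ∈ J then ind (ev F (r j) ∈ W) else 1)
      = ∏ j ∈ J, ind (ev F (r j) ∈ W) := by
    intro r; rw [Finset.prod_ite_mem, Finset.univ_inter]
  have e2 : ∀ j : Fin k, 𝔼 i ∈ S, (if j ∈ J then ind (ev F i ∈ W) else 1)
      = if j ∈ J then al S W else 1 := by
    intro j
    split_ifs
    · rfl
    · exact Finset.expect_const hS _
  simp only [e1, e2] at h
  rw [h, Finset.prod_ite_mem, Finset.univ_inter, Finset.prod_const]

/-- upper bound for the rank increment -/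
lemma Top_rk_le (c : Fin k → F) {S : Finset ι} (hS : S.Nonempty) {W Y : Submodule F (ι → F)}
    (h : W ≤ Y) : Top c S rk Y ≤ rk Y + (1 - al S W ^ k) := by
  unfold Top
  rw [op_apply]
  have := expect_prod_ind (k := k) hS Finset.univ W
  rw [Finset.card_univ, Fintype.card_fin] at this
  rw [← this, ← Finset.expect_const (tup_nonempty (k := k) hS) (rk Y),
    ← Finset.expect_const (tup_nonempty (k := k) hS) (1:ℝ), ← Finset.expect_sub_distrib,
    ← Finset.expect_add_distrib]
  refine Finset.expect_le_expect fun r _ => ?_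
  rw [rk_sup_span, ← ind_forall, ← ind_not]
  have : ind (vec c r ∉ Y) ≤ ind (¬ ∀ j ∈ Finset.univ, ev F (r j) ∈ W) :=
    ind_mono fun hn hall => hn (vec_mem c r fun j => h (hall j (Finset.mem_univ _)))
  linarith

lemma Top_pow_rk_le (c : Fin k → F) {S : Finset ι} (hS : S.Nonempty) (L : ℕ)
    (W : Submodule F (ι → F)) : (Top c S ^ L) rk W ≤ rk W + L * (1 - al S W ^ k) :=
  iter_le (mk_Top c hS) ((mk_Top c hS).up W) (fun _ hY => Top_rk_le c hS hY) L W (Set.mem_Ici.mpr le_rfl)

section new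
variable (a : ι)

/-- the line through the new unit vector -/
def EE (F : Type*) [Field F] (a : ι) : Submodule F (ι → F) := Submodule.span F {ev F a}

/-- rank after adjoining the new unit vector -/
noncomputable def rkp (W : Submodule F (ι → F)) : ℝ := rk (W ⊔ EE F a)

/-- frozen fraction after adjoining the new unit vector -/
noncomputable def alp (S : Finset ι) (W : Submodule F (ι → F)) : ℝ := al S (W ⊔ EE F a)

lemma ev_mem_EE : ev F a ∈ EE F a := Submodule.mem_span_singleton_self _

lemma alp_mono (S : Finset ι) : Monotone (alp a S : Submodule F (ι → F) → ℝ) := fun _ _ h =>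
  al_mono S (sup_le_sup_right h _)

lemma row_incr (c : Fin k → F) (hc : ∀ j, c j ≠ 0) {S : Finset ι} (hS : S.Nonempty)
    {W Y : Submodule F (ι → F)} (h : W ≤ Y) (J : Finset (Fin k))
    (ρ : (Fin k → ι) → (Fin k → ι)) (hρ : ∀ r j, j ∈ J → ρ r j = r j)
    (hρ' : ∀ r j, j ∉ J → ρ r j = a) :
    rkp a Y + (1 - alp a S W ^ J.card) - k * (Qop F k S (alp a S) Y - alp a S W)
      ≤ 𝔼 r ∈ tup k S, rkp a (Y ⊔ Submodule.span F {vec c (ρ r)}) := by
  set B : Fin k → (Fin k → ι) → Submodule F (ι → F) := fun j r =>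
    Y ⊔ EE F a ⊔ Submodule.span F ((fun j' => ev F (r j')) '' {j' | j' ≠ j}) with hB
  have hT := tup_nonempty (k := k) hS
  have pt : ∀ r, rkp a Y + (1 - ∏ j ∈ J, ind (ev F (r j) ∈ W ⊔ EE F a))
      - ∑ j, (ind (ev F (r j) ∈ B j r) - ind (ev F (r j) ∈ W ⊔ EE F a))
      ≤ rkp a (Y ⊔ Submodule.span F {vec c (ρ r)}) := by
    intro r
    unfold rkp
    rw [sup_right_comm, rk_sup_span (Y ⊔ EE F a) (vec c (ρ r)), ← ind_forall]
    have hb : ∀ j, 0 ≤ ind (ev F (r j) ∈ B j r) - ind (ev F (r j) ∈ W ⊔ EE F a) := fun j =>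
      sub_nonneg.mpr (ind_mono fun hh =>
        (le_trans (sup_le_sup_right h _) le_sup_left : W ⊔ EE F a ≤ B j r) hh)
    have hsum := Finset.sum_nonneg fun j (_ : j ∈ Finset.univ) => hb j
    by_cases hall : ∀ j ∈ J, ev F (r j) ∈ W ⊔ EE F a
    · rw [ind_pos hall]; linarith [ind_nonneg (vec c (ρ r) ∉ Y ⊔ EE F a)]
    · rw [ind_neg hall]
      by_cases hv : vec c (ρ r) ∈ Y ⊔ EE F a
      · push Not at hall
        obtain ⟨j, hj, hnj⟩ := hall
        have hmem : ev F (r j) ∈ B j r := by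
          rw [← hρ r j hj]
          refine ev_mem_of_vec c hc (ρ r) j ((le_sup_left : Y ⊔ EE F a ≤ B j r) hv) ?_
          intro j' hj'
          by_cases hJ : j' ∈ J
          · rw [hρ r j' hJ]
            exact (le_sup_right : _ ≤ B j r) (Submodule.subset_span ⟨j', hj', rfl⟩)
          · rw [hρ' r j' hJ]
            exact (le_trans le_sup_right le_sup_left : EE F a ≤ B j r) (ev_mem_EE a)
        have := Finset.single_le_sum (fun j (_ : j ∈ Finset.univ) => hb j) (Finset.mem_univ j)
        rw [ind_pos hmem, ind_neg hnj] at this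
        linarith [ind_nonneg (vec c (ρ r) ∉ Y ⊔ EE F a)]
      · rw [ind_pos hv]; linarith
  have e1 : ∀ j : Fin k, 𝔼 r ∈ tup k S, ind (ev F (r j) ∈ W ⊔ EE F a) = alp a S W := by
    intro j
    rw [expect_update hS j]
    simp only [Function.update_self]
    exact Finset.expect_const hT _
  have e2 : ∀ j : Fin k, 𝔼 r ∈ tup k S, ind (ev F (r j) ∈ B j r) ≤ Qop F k S (alp a S) Y := by
    intro j
    rw [expect_update hS j]
    unfold Qop
    rw [op_apply]
    refine Finset.expect_le_expect fun r _ => ?_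
    simp only [Function.update_self]
    refine Finset.expect_le_expect fun i _ => ind_mono fun hh => ?_
    have : B j (Function.update r j i) ≤ Y ⊔ pins F r ⊔ EE F a := by
      refine sup_le (sup_le (le_trans le_sup_left le_sup_left) le_sup_right) ?_
      refine le_trans ?_ (le_trans le_sup_right le_sup_left)
      refine Submodule.span_le.mpr ?_
      rintro _ ⟨j', hj', rfl⟩
      simp only [Function.update_of_ne (show j' ≠ j from hj')]
      exact Submodule.subset_span ⟨j', rfl⟩
    exact this hh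
  refine le_trans ?_ (Finset.expect_le_expect fun r _ => pt r)
  rw [Finset.expect_sub_distrib, Finset.expect_add_distrib, Finset.expect_sub_distrib,
    Finset.expect_const hT, Finset.expect_const hT, expect_prod_ind hS, Finset.expect_sum_comm]
  have : ∑ j : Fin k, 𝔼 r ∈ tup k S,
      (ind (ev F (r j) ∈ B j r) - ind (ev F (r j) ∈ W ⊔ EE F a))
      ≤ ∑ _j : Fin k, (Qop F k S (alp a S) Y - alp a S W) := by
    refine Finset.sum_le_sum fun j _ => ?_
    rw [Finset.expect_sub_distrib, e1]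
    linarith [e2 j]
  rw [Finset.sum_const, Finset.card_univ, Fintype.card_fin, nsmul_eq_mul] at this
  unfold alp at this ⊢
  linarith

lemma Top_rkp (c : Fin k → F) (hc : ∀ j, c j ≠ 0) {S : Finset ι} (hS : S.Nonempty)
    {W Y : Submodule F (ι → F)} (h : W ≤ Y) :
    rkp a Y + (1 - alp a S W ^ k) - k * (Qop F k S (alp a S) Y - alp a S W)
      ≤ Top c S (rkp a) Y := by
  have := row_incr a c hc hS h Finset.univ id (fun _ _ _ => rfl)
    (fun _ j hj => absurd (Finset.mem_univ j) hj)
  rwa [Finset.card_univ, Fintype.card_fin] at this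

lemma Tnew_apply (c : Fin k → F) (S : Finset ι) (f : Submodule F (ι → F) → ℝ)
    (Y : Submodule F (ι → F)) :
    Tnew c S a f Y = 𝔼 j : Fin k, 𝔼 r ∈ tup k S,
      f (Y ⊔ Submodule.span F {vec c (Function.update r j a)}) := by
  unfold Tnew
  rw [op_apply, Finset.expect_product]

lemma Tnew_rkp (c : Fin k → F) (hc : ∀ j, c j ≠ 0) {S : Finset ι} (hS : S.Nonempty) (hk : 0 < k)
    {W Y : Submodule F (ι → F)} (h : W ≤ Y) :
    rkp a Y + (1 - alp a S W ^ (k - 1)) - k * (Qop F k S (alp a S) Y - alp a S W)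
      ≤ Tnew c S a (rkp a) Y := by
  rw [Tnew_apply]
  refine Finset.le_expect ⟨⟨0, hk⟩, Finset.mem_univ _⟩ fun j _ => ?_
  have := row_incr a c hc hS h (Finset.univ.erase j) (fun r => Function.update r j a)
    (fun r j' hj' => Function.update_of_ne (Finset.ne_of_mem_erase hj') _ _)
    (fun r j' hj' => by
      have : j' = j := by simpa using hj'
      subst this; simp)
  rwa [Finset.card_erase_of_mem (Finset.mem_univ _), Finset.card_univ, Fintype.card_fin] at this

lemma Qpow_alp_mono {S : Finset ι} (hS : S.Nonempty) (n : ℕ) :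
    Monotone ((Qop F k S ^ n) (alp a S)) := ((mk_Qop hS).pow n).mono _ (alp_mono a S)

lemma Qpow_alp_inv (S : Finset ι) (n : ℕ) (Y : Submodule F (ι → F)) :
    (Qop F k S ^ n) (alp a S) (Y ⊔ EE F a) = (Qop F k S ^ n) (alp a S) Y := by
  induction n generalizing Y with
  | zero => simp [alp, sup_assoc]
  | succ n ih =>
    rw [pow_succ', Module.End.mul_apply]
    change op _ _ _ _ = op _ _ _ _
    rw [op_apply, op_apply]
    refine Finset.expect_congr rfl fun r _ => ?_
    rw [sup_right_comm, ih]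

lemma Qpow_alp_le {S : Finset ι} (hS : S.Nonempty) {n n' : ℕ} (h : n ≤ n')
    (Y : Submodule F (ι → F)) :
    (Qop F k S ^ n) (alp a S) Y ≤ (Qop F k S ^ n') (alp a S) Y := by
  obtain ⟨d, rfl⟩ := Nat.exists_eq_add_of_le' h
  rw [pow_add, Module.End.mul_apply]
  exact ((mk_Qop hS).pow d).infl _ (Qpow_alp_mono a hS n) Y

lemma Top_Q (c : Fin k → F) {S : Finset ι} (hS : S.Nonempty) (n : ℕ) (Y : Submodule F (ι → F)) :
    Top c S ((Qop F k S ^ n) (alp a S)) Y ≤ (Qop F k S ^ (n + 1)) (alp a S) Y := by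
  rw [pow_succ', Module.End.mul_apply]
  change op _ _ _ _ ≤ op _ _ _ _
  rw [op_apply, op_apply]
  refine Finset.expect_le_expect fun r _ => Qpow_alp_mono a hS n (sup_le_sup_left ?_ _)
  exact (Submodule.span_singleton_le_iff_mem _ _).mpr
    (vec_mem c r fun j => Submodule.subset_span ⟨j, rfl⟩)

lemma Tnew_Q (c : Fin k → F) {S : Finset ι} (hS : S.Nonempty) (hk : 0 < k) (n : ℕ)
    (Y : Submodule F (ι → F)) :
    Tnew c S a ((Qop F k S ^ n) (alp a S)) Y ≤ (Qop F k S ^ (n + 1)) (alp a S) Y := by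
  rw [Tnew_apply]
  refine Finset.expect_le ⟨⟨0, hk⟩, Finset.mem_univ _⟩ fun j _ => ?_
  rw [pow_succ', Module.End.mul_apply]
  change _ ≤ op _ _ _ _
  rw [op_apply]
  refine Finset.expect_le_expect fun r _ => ?_
  rw [← Qpow_alp_inv a S n (Y ⊔ pins F r)]
  refine Qpow_alp_mono a hS n ?_
  rw [sup_assoc]
  refine sup_le_sup_left ((Submodule.span_singleton_le_iff_mem _ _).mpr (vec_mem c _ fun j' => ?_)) _
  by_cases e : j' = j
  · subst e
    rw [Function.update_self]
    exact Submodule.mem_sup_right (ev_mem_EE a)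
  · rw [Function.update_of_ne e]
    exact Submodule.mem_sup_left (Submodule.subset_span ⟨j', rfl⟩)

lemma iter_lower {R : Module.End ℝ (Submodule F (ι → F) → ℝ)} (hR : Mk R) {S : Finset ι}
    (hS : S.Nonempty) (W : Submodule F (ι → F)) (κ α₀ : ℝ)
    (H1 : ∀ Y, W ≤ Y → rkp a Y + κ - k * (Qop F k S (alp a S) Y - α₀) ≤ R (rkp a) Y)
    (H2 : ∀ n Y, R ((Qop F k S ^ n) (alp a S)) Y ≤ (Qop F k S ^ (n + 1)) (alp a S) Y)
    (f : Submodule F (ι → F) → ℝ) (C : ℝ) (j : ℕ)
    (hf : ∀ Y, W ≤ Y → rkp a Y + C - j * k * ((Qop F k S ^ j) (alp a S) Y - α₀) ≤ f Y) (b : ℕ) :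
    ∀ Y, W ≤ Y → rkp a Y + C + b * κ
      - (j + b : ℕ) * k * ((Qop F k S ^ (j + b)) (alp a S) Y - α₀) ≤ (R ^ b) f Y := by
  induction b with
  | zero => intro Y hY; simpa using hf Y hY
  | succ b ih =>
    intro Y hY
    rw [pow_succ', Module.End.mul_apply]
    have h1 := hR.up W (fun Y => 1 * rkp a Y + (-((j + b : ℕ) * k : ℝ)) *
        (Qop F k S ^ (j + b)) (alp a S) Y + (C + b * κ + (j + b : ℕ) * k * α₀)) ((R ^ b) f)
      (fun Y hY => by have := ih Y hY; linarith) Y hY
    rw [hR.affine] at h1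
    have h2 := H1 Y hY
    have h3 := H2 (j + b) Y
    have h4 : Qop F k S (alp a S) Y ≤ (Qop F k S ^ (j + b + 1)) (alp a S) Y := by
      have := Qpow_alp_le (k := k) a hS (show 1 ≤ j + b + 1 by omega) Y
      rwa [pow_one] at this
    have hk0 : (0:ℝ) ≤ k := Nat.cast_nonneg k
    have hjb : (0:ℝ) ≤ (j + b : ℕ) * k := by positivity
    rw [← add_assoc]
    push_cast at h1 hjb ⊢
    nlinarith [mul_le_mul_of_nonneg_left h3 hjb, mul_le_mul_of_nonneg_left h4 hk0]

lemma Tnew_h (c : Fin k → F) (hc : ∀ j, c j ≠ 0) {S : Finset ι} (hS : S.Nonempty) (hk : 0 < k)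
    {W Y : Submodule F (ι → F)} (h : W ≤ Y) :
    Tnew c S a (fun Y => ind (ev F a ∉ Y)) Y ≤ (1 - al S W ^ (k - 1)) * ind (ev F a ∉ Y) := by
  rw [Tnew_apply]
  refine Finset.expect_le ⟨⟨0, hk⟩, Finset.mem_univ _⟩ fun j _ => ?_
  have hT := tup_nonempty (k := k) hS
  have := expect_prod_ind hS (Finset.univ.erase j) W
  rw [Finset.card_erase_of_mem (Finset.mem_univ _), Finset.card_univ, Fintype.card_fin] at this
  rw [← this, ← Finset.expect_const hT (1:ℝ), ← Finset.expect_sub_distrib, Finset.expect_mul]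
  refine Finset.expect_le_expect fun r _ => ?_
  rw [← ind_forall]
  by_cases hall : ∀ j' ∈ Finset.univ.erase j, ev F (r j') ∈ W
  · rw [ind_pos hall, ind_neg]
    · simp
    · rw [not_not]
      have := ev_mem_of_vec c hc (Function.update r j a) j
        (W := Y ⊔ Submodule.span F {vec c (Function.update r j a)})
        (Submodule.mem_sup_right (Submodule.mem_span_singleton_self _))
        (fun j' hj' => by
          rw [Function.update_of_ne hj']
          exact Submodule.mem_sup_left (h (hall j' (by simpa using hj'))))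
      rwa [Function.update_self] at this
  · rw [ind_neg hall, sub_zero, one_mul]
    exact ind_mono fun hn hy => hn (Submodule.mem_sup_left hy)

/-- subspaces not involving the new coordinate -/
def Ua (F : Type*) [Field F] (a : ι) : Set (Submodule F (ι → F)) := {W | ∀ w ∈ W, w a = 0}

lemma ev_notMem {W : Submodule F (ι → F)} (hW : W ∈ Ua F a) : ev F a ∉ W := fun h => by
  have := hW _ h
  simp [ev] at this

lemma alp_eq {S : Finset ι} (ha : a ∉ S) {W : Submodule F (ι → F)} (hW : W ∈ Ua F a) :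
    alp a S W = al S W := by
  unfold alp al
  refine Finset.expect_congr rfl fun i hi => ind_congr ⟨fun h => ?_, Submodule.mem_sup_left⟩
  obtain ⟨w, hw, z, hz, e⟩ := Submodule.mem_sup.mp h
  obtain ⟨t, rfl⟩ := Submodule.mem_span_singleton.mp hz
  have hia : a ≠ i := fun e => ha (e ▸ hi)
  have := congrFun e a
  simp only [Pi.add_apply, hW w hw, Pi.smul_apply, ev, Pi.single_eq_same, smul_eq_mul, mul_one,
    zero_add, Pi.single_eq_of_ne hia] at this
  rw [this, zero_smul, add_zero] at e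
  exact e ▸ hw

lemma sup_span_mem_Ua {W : Submodule F (ι → F)} (hW : W ∈ Ua F a) {s : Set (ι → F)}
    (hs : ∀ v ∈ s, v a = 0) : W ⊔ Submodule.span F s ∈ Ua F a := by
  have : W ⊔ Submodule.span F s ≤ LinearMap.ker (LinearMap.proj (R := F) (φ := fun _ => F) a) :=
    sup_le (fun w hw => hW w hw) (Submodule.span_le.mpr fun v hv => hs v hv)
  exact fun w hw => this hw

lemma posOn_Top (c : Fin k → F) {S : Finset ι} (ha : a ∉ S) : PosOn (Ua F a) (Top c S) := by
  refine posOn_op _ _ fun W hW r hr => sup_span_mem_Ua a hW ?_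
  rintro _ rfl
  simp only [vec, Finset.sum_apply, Pi.smul_apply, smul_eq_mul]
  refine Finset.sum_eq_zero fun j _ => ?_
  have : a ≠ r j := fun e => ha (e ▸ Fintype.mem_piFinset.mp hr j)
  simp [ev, Pi.single_eq_of_ne this]

lemma posOn_Qop {S : Finset ι} (ha : a ∉ S) : PosOn (Ua F a) (Qop F k S) := by
  refine posOn_op _ _ fun W hW r hr => sup_span_mem_Ua a hW ?_
  rintro _ ⟨j, rfl⟩
  have : a ≠ r j := fun e => ha (e ▸ Fintype.mem_piFinset.mp hr j)
  simp [ev, Pi.single_eq_of_ne this]

/-- the local lower bound -/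
lemma local_lower (c : Fin k → F) (hc : ∀ j, c j ≠ 0) {S : Finset ι} (hS : S.Nonempty)
    (hk : 0 < k) (ha : a ∉ S) {W : Submodule F (ι → F)} (hW : W ∈ Ua F a) (x b : ℕ) :
    rk W + x * (1 - al S W ^ k) + b * (1 - al S W ^ (k - 1)) + 1 - (1 - al S W ^ (k - 1)) ^ b
      - (b + x : ℕ) * k * ((Qop F k S ^ (b + x)) (alp a S) W - alp a S W)
      ≤ (Top c S ^ x) ((Tnew c S a ^ b) rk) W := by
  have hT := mk_Top c hS
  have hN := mk_Tnew c hS hk a
  have e : (rk : Submodule F (ι → F) → ℝ) = rkp a - fun Y => ind (ev F a ∉ Y) := by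
    funext Y
    simp only [Pi.sub_apply, rkp, EE, rk_sup_span]
    ring
  have s1 := iter_lower a hN hS W _ _ (fun Y hY => Tnew_rkp a c hc hS hk hY)
    (Tnew_Q a c hS hk) (rkp a) 0 0 (fun Y _ => by simp) b
  simp only [zero_add, add_zero] at s1
  have s2 := iter_lower a hT hS W _ _ (fun Y hY => Top_rkp a c hc hS hY)
    (Top_Q a c hS) ((Tnew c S a ^ b) (rkp a)) _ b s1 x W le_rfl
  have hanti : Antitone (fun Y : Submodule F (ι → F) => ind (ev F a ∉ Y)) :=
    fun _ _ h => ind_mono fun hn hy => hn (h hy)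
  have hal := al_bounds hS W
  have hρ : 0 ≤ 1 - al S W ^ (k - 1) := sub_nonneg.mpr (pow_le_one₀ hal.1 hal.2)
  have s3 := iter_mul_le hN (hN.up W) hρ (fun Y hY => Tnew_h a c hc hS hk hY) b W
    (Set.mem_Ici.mpr le_rfl)
  have s4 := (hT.pow x).defl ((hN.pow b).anti hanti) W
  have s5 : rkp a W = rk W + 1 := by
    rw [rkp, EE, rk_sup_span, ind_pos (ev_notMem a hW)]
  rw [ind_pos (ev_notMem a hW), mul_one] at s3
  have s6 : (Top c S ^ x) ((Tnew c S a ^ b) rk) W = (Top c S ^ x) ((Tnew c S a ^ b) (rkp a)) W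
      - (Top c S ^ x) ((Tnew c S a ^ b) fun Y => ind (ev F a ∉ Y)) W := by
    conv_lhs => rw [e]
    rw [map_sub, map_sub]; rfl
  rw [s6]
  have s7 := alp_eq a ha hW
  rw [s7] at s2 ⊢
  linarith

end new

end Pool.Agent.H886Z.UE
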