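import Pool.Agent.H886Z.UE.Full

/-! From finite fields to finite modules over a commutative ring. -/

open Finset Module
open scoped BigOperators

namespace Pool.Agent.H886Z.UE

variable {k : ℕ}

/-- the linear system together with two prescribed coordinates is always solvable in `G` -/
def Solv {R : Type} [CommRing R] (c : Fin k → R) (G : Type) [AddCommGroup G] [Module R G]
    {ι : Type} {m : ℕ} (A : Fin m → Fin k → ι) (u v : ι) : Prop :=
  ∀ (b : Fin m → G) (s t : G), ∃ x : ι → G,
    (∀ i, ∑ j, c j • x (A i j) = b i) ∧ x u = s ∧ x v = t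

lemma solv_field {F : Type} [Field F] (c : Fin k → F) {ι : Type} [Fintype ι] [DecidableEq ι]
    {m : ℕ} (A : Fin m → Fin k → ι) (u v : ι) (h1 : ¬ finrank F (WA c A) < m)
    (h2 : ¬ bad (WA c A) u v) : Solv c F A u v := by
  have li : LinearIndependent F fun i => vec c (A i) := by
    rw [linearIndependent_iff_card_eq_finrank_span, Fintype.card_fin]
    exact le_antisymm (not_lt.mp h1) (finrank_WA_le c A)
  let M : Matrix (Fin m ⊕ Bool) ι F :=
    Matrix.of (Sum.elim (fun i => vec c (A i)) fun b => if b then ev F u else ev F v)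
  have li2 : LinearIndependent F M.row := by
    rw [Fintype.linearIndependent_iff]
    intro g hg
    rw [Fintype.sum_sum_type, Fintype.sum_bool] at hg
    have e : ∑ i, g (Sum.inl i) • vec c (A i)
        + (g (Sum.inr true) • ev F u + g (Sum.inr false) • ev F v) = 0 := hg
    have hm : g (Sum.inr true) • ev F u + g (Sum.inr false) • ev F v ∈ WA c A := by
      rw [eq_neg_of_add_eq_zero_right e]
      exact Submodule.neg_mem _ (Submodule.sum_mem _ fun i _ =>
        Submodule.smul_mem _ _ (Submodule.subset_span ⟨i, rfl⟩))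
    have ht : g (Sum.inr true) = 0 := by
      by_contra h; exact h2 ⟨_, _, Or.inl h, hm⟩
    have hf : g (Sum.inr false) = 0 := by
      by_contra h; exact h2 ⟨_, _, Or.inr h, hm⟩
    rw [ht, hf, zero_smul, zero_smul, add_zero, add_zero] at e
    have := Fintype.linearIndependent_iff.mp li _ e
    rintro (i | b)
    · exact this i
    · cases b
      · exact hf
      · exact ht
  have hr := li2.rank_matrix
  have hs : LinearMap.range M.mulVecLin = ⊤ := by
    refine Submodule.eq_top_of_finrank_eq ?_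
    rw [Module.finrank_fintype_fun_eq_card, ← hr]; rfl
  intro b s t
  obtain ⟨x, hx⟩ := LinearMap.range_eq_top.mp hs (Sum.elim b fun z => if z then s else t)
  refine ⟨x, fun i => ?_, ?_, ?_⟩
  · have := congrFun hx (Sum.inl i)
    have e : vec c (A i) ⬝ᵥ x = b i := this
    rw [dotProduct_comm, dot_vec] at e
    exact e
  · have := congrFun hx (Sum.inr true)
    have e : ev F u ⬝ᵥ x = s := this
    rwa [dotProduct_comm, dot_ev] at e
  · have := congrFun hx (Sum.inr false)
    have e : ev F v ⬝ᵥ x = t := this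
    rwa [dotProduct_comm, dot_ev] at e

variable {R : Type} [CommRing R] (c : Fin k → R)

lemma solv_equiv {G G' : Type} [AddCommGroup G] [Module R G] [AddCommGroup G'] [Module R G']
    (e : G ≃ₗ[R] G') {ι : Type} {m : ℕ} {A : Fin m → Fin k → ι} {u v : ι}
    (h : Solv c G' A u v) : Solv c G A u v := by
  intro b s t
  obtain ⟨x, h1, h2, h3⟩ := h (fun i => e (b i)) (e s) (e t)
  refine ⟨fun i => e.symm (x i), fun i => ?_, by simp [h2], by simp [h3]⟩
  apply e.injective
  rw [map_sum, ← h1 i]
  simp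

lemma solv_ext {G : Type} [AddCommGroup G] [Module R G] (N : Submodule R G)
    {ι : Type} {m : ℕ} {A : Fin m → Fin k → ι} {u v : ι}
    (h : Solv c N A u v) (h' : Solv c (G ⧸ N) A u v) : Solv c G A u v := by
  intro b s t
  obtain ⟨x, h1, h2, h3⟩ := h' (fun i => N.mkQ (b i)) (N.mkQ s) (N.mkQ t)
  choose y hy using fun i => N.mkQ_surjective (x i)
  have m1 : ∀ i, b i - ∑ j, c j • y (A i j) ∈ N := by
    intro i
    rw [← Submodule.Quotient.mk_eq_zero, ← Submodule.mkQ_apply, map_sub, map_sum, ← h1 i]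
    simp [hy]
  have m2 : s - y u ∈ N := by
    rw [← Submodule.Quotient.mk_eq_zero, ← Submodule.mkQ_apply, map_sub, hy, h2, sub_self]
  have m3 : t - y v ∈ N := by
    rw [← Submodule.Quotient.mk_eq_zero, ← Submodule.mkQ_apply, map_sub, hy, h3, sub_self]
  obtain ⟨z, k1, k2, k3⟩ := h (fun i => ⟨_, m1 i⟩) ⟨_, m2⟩ ⟨_, m3⟩
  refine ⟨fun i => y i + z i, fun i => ?_, ?_, ?_⟩
  · have := congrArg Subtype.val (k1 i)
    simp only [AddSubmonoidClass.coe_finset_sum, SetLike.val_smul] at this
    simp only [smul_add, Finset.sum_add_distrib, this]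
    abel
  · simp [k2]
  · simp [k3]

/-- solvability with probability tending to one -/
def Good (s : ℝ) (G : Type) [AddCommGroup G] [Module R G] : Prop :=
  ∀ η > (0:ℝ), ∃ N₁ : ℕ, ∀ (ι : Type) [Fintype ι] [DecidableEq ι], N₁ ≤ Fintype.card ι →
    ∀ m : ℕ, (m : ℝ) ≤ s * Fintype.card ι →
      𝔼 A : Fin m → Fin k → ι, 𝔼 u : ι, 𝔼 v : ι, ind (¬ Solv c G A u v) ≤ η

theorem good_all (hk : 3 ≤ k) {D s : ℝ} (hD : PhiOK k D) (hs0 : 0 ≤ s) (hsD : k * s < D) :
    ∀ (n : ℕ) (G : Type) [AddCommGroup G] [Module R G] [Finite G], Nat.card G = n →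
      (∀ j, Function.Injective fun x : G => c j • x) → Good c s G := by
  intro n
  induction n using Nat.strong_induction_on with
  | _ n ih =>
  intro G _ _ _ hn hinj
  by_cases hsimple : IsSimpleModule R G
  · obtain ⟨I, hI, ⟨e⟩⟩ := isSimpleModule_iff_quot_maximal.mp hsimple
    letI : Field (R ⧸ I) := Ideal.Quotient.field I
    haveI : Finite (R ⧸ I) := Finite.of_equiv G e.toEquiv
    letI : Fintype (R ⧸ I) := Fintype.ofFinite _
    classical
    have hc : ∀ j, Ideal.Quotient.mk I (c j) ≠ 0 := by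
      intro j h0
      have h1 : c j • (1 : R ⧸ I) = 0 := by
        rw [← h0, Algebra.smul_def, mul_one]; rfl
      have h2 : c j • e.symm 1 = c j • (0 : G) := by
        rw [← map_smul, h1, map_zero, smul_zero]
      have := hinj j h2
      exact one_ne_zero (e.symm.map_eq_zero_iff.mp this)
    intro η hη
    obtain ⟨N₁, hN₁⟩ := full_rank hk hD hs0 hsD hη (fun j => Ideal.Quotient.mk I (c j)) hc
    refine ⟨max N₁ 1, fun ι _ _ hN m hm => ?_⟩
    haveI : Nonempty ι := Fintype.card_pos_iff.mp (le_trans (le_max_right _ _) hN)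
    refine le_trans (Finset.expect_le_expect fun A _ => ?_)
      (hN₁ ι (le_trans (le_max_left _ _) hN) m hm)
    rw [be, ← Finset.expect_const (Finset.univ_nonempty (α := ι)) (ind _),
      ← Finset.expect_add_distrib]
    refine Finset.expect_le_expect fun u _ => ?_
    rw [← Finset.expect_const (Finset.univ_nonempty (α := ι)) (ind (finrank _ _ < m)),
      ← Finset.expect_add_distrib]
    refine Finset.expect_le_expect fun v _ => ?_
    by_cases h1 : finrank (R ⧸ I) (WA (fun j => Ideal.Quotient.mk I (c j)) A) < m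
    · rw [ind_pos h1]
      linarith [ind_le_one (¬ Solv c G A u v),
        ind_nonneg (bad (WA (fun j => Ideal.Quotient.mk I (c j)) A) u v)]
    by_cases h2 : bad (WA (fun j => Ideal.Quotient.mk I (c j)) A) u v
    · rw [ind_pos h2, ind_neg h1]
      linarith [ind_le_one (¬ Solv c G A u v)]
    have h3 := solv_field _ A u v h1 h2
    have h4 : Solv c (R ⧸ I) A u v := by
      intro b s t
      obtain ⟨x, hx, hu, hv⟩ := h3 b s t
      refine ⟨x, fun i => ?_, hu, hv⟩
      rw [← hx i]
      refine Finset.sum_congr rfl fun j _ => ?_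
      rw [Algebra.smul_def, smul_eq_mul]; rfl
    rw [ind_neg (not_not.mpr (solv_equiv c e h4)), ind_neg h1, ind_neg h2, add_zero]
  rcases subsingleton_or_nontrivial G with hG | hG
  · intro η hη
    refine ⟨0, fun ι _ _ _ m _ => ?_⟩
    have : ∀ (A : Fin m → Fin k → ι) (u v : ι), ind (¬ Solv c G A u v) = 0 := fun A u v =>
      ind_neg (not_not.mpr fun _ _ _ => ⟨0, fun _ => Subsingleton.elim _ _,
        Subsingleton.elim _ _, Subsingleton.elim _ _⟩)
    simp only [this, Finset.expect_const_zero]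
    exact hη.le
  obtain ⟨N, hN1, hN2⟩ : ∃ N : Submodule R G, N ≠ ⊥ ∧ N ≠ ⊤ := by
    by_contra h
    push Not at h
    refine hsimple { eq_bot_or_eq_top := fun N => ?_ }
    by_cases h0 : N = ⊥
    · exact Or.inl h0
    · exact Or.inr (h N h0)
  have hcard := Submodule.card_eq_card_quotient_mul_card N
  haveI : Nontrivial N := Submodule.nontrivial_iff_ne_bot.mpr hN1
  haveI : Nontrivial (G ⧸ N) := Submodule.Quotient.nontrivial_iff.mpr hN2
  haveI : Finite (G ⧸ N) := Finite.of_surjective _ N.mkQ_surjective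
  have c1 : 1 < Nat.card N := Finite.one_lt_card
  have c2 : 1 < Nat.card (G ⧸ N) := Finite.one_lt_card
  have g1 : Good c s N := ih _ (by rw [← hn, hcard]; nlinarith) N rfl fun j x y h =>
    Subtype.ext (hinj j (congrArg Subtype.val h))
  have g2 : Good c s (G ⧸ N) := ih _ (by rw [← hn, hcard]; nlinarith) (G ⧸ N) rfl fun j => by
    refine Finite.injective_iff_surjective.mpr fun y => ?_
    obtain ⟨y, rfl⟩ := N.mkQ_surjective y
    obtain ⟨x, rfl⟩ := Finite.injective_iff_surjective.mp (hinj j) y
    exact ⟨N.mkQ x, by simp⟩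
  intro η hη
  obtain ⟨N₁, hN₁⟩ := g1 (η / 2) (by positivity)
  obtain ⟨N₂, hN₂⟩ := g2 (η / 2) (by positivity)
  refine ⟨max N₁ N₂, fun ι _ _ hN m hm => ?_⟩
  have a1 := hN₁ ι (le_trans (le_max_left _ _) hN) m hm
  have a2 := hN₂ ι (le_trans (le_max_right _ _) hN) m hm
  refine le_trans ?_ (le_trans (add_le_add a1 a2) (le_of_eq (by ring)))
  rw [← Finset.expect_add_distrib]
  refine Finset.expect_le_expect fun A _ => ?_
  rw [← Finset.expect_add_distrib]
  refine Finset.expect_le_expect fun u _ => ?_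
  rw [← Finset.expect_add_distrib]
  refine Finset.expect_le_expect fun v _ => ?_
  by_cases h1 : Solv c N A u v
  · by_cases h2 : Solv c (G ⧸ N) A u v
    · rw [ind_neg (not_not.mpr (solv_ext c N h1 h2))]
      exact add_nonneg (ind_nonneg _) (ind_nonneg _)
    · rw [ind_pos h2]
      linarith [ind_le_one (¬ Solv c G A u v), ind_nonneg (¬ Solv c N A u v)]
  · rw [ind_pos h1]
    linarith [ind_le_one (¬ Solv c G A u v), ind_nonneg (¬ Solv c (G ⧸ N) A u v)]

end Pool.Agent.H886Z.UE
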