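import Pool.Agent.H886Z.UE.Rank
import Pool.Agent.H886Z.UE.Defs

/-! The variational inequality below `d_k`. -/

open Finset
open scoped BigOperators

namespace Pool.Agent.H886Z.UE

lemma log_quasi {e : ℕ} {d x₁ x₂ x : ℝ} (h0 : 0 < x₁) (h1 : x₁ ≤ x) (h2 : x ≤ x₂) (h3 : x₂ < 1)
    (f1 : -Real.log (1 - x₁) = d * x₁ ^ e) (f2 : -Real.log (1 - x₂) = d * x₂ ^ e) :
    -Real.log (1 - x) ≤ d * x ^ e := by
  have key : ∀ y : ℝ, 0 < y → y < 1 → HasSum
      (fun n : ℕ => y ^ (((n : ℤ) + 1) - e) / ((n : ℝ) + 1)) (-Real.log (1 - y) / y ^ e) := by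
    intro y hy0 hy1
    have := (Real.hasSum_pow_div_log_of_abs_lt_one
      (show |y| < 1 by rw [abs_of_pos hy0]; exact hy1)).div_const (y ^ e)
    have ef : (fun n : ℕ => y ^ (((n : ℤ) + 1) - e) / ((n : ℝ) + 1))
        = fun n : ℕ => y ^ (n + 1) / ((n : ℝ) + 1) / y ^ e := ?_
    · rw [ef]; exact this
    funext n
    rw [zpow_sub₀ hy0.ne', zpow_natCast]
    have : y ^ ((n : ℤ) + 1) = y ^ (n + 1) := by norm_cast
    rw [this]; ring
  obtain ⟨a, b, ha, hb, hab, rfl⟩ : x ∈ segment ℝ x₁ x₂ := by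
    rw [segment_eq_Icc (h1.trans h2)]; exact ⟨h1, h2⟩
  have hx2 : 0 < x₂ := lt_of_lt_of_le h0 (h1.trans h2)
  have hx : 0 < a • x₁ + b • x₂ := lt_of_lt_of_le h0 h1
  have s0 := key _ hx (lt_of_le_of_lt h2 h3)
  have s1 := (key x₁ h0 (lt_of_le_of_lt (h1.trans h2) h3)).mul_left a
  have s2 := (key x₂ hx2 h3).mul_left b
  have := hasSum_le (fun n => by
    have hc := (convexOn_zpow (𝕜 := ℝ) (((n : ℤ) + 1) - e)).2 (Set.mem_Ioi.mpr h0)
      (Set.mem_Ioi.mpr hx2) ha hb hab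
    simp only [smul_eq_mul] at hc ⊢
    rw [← mul_div_assoc, ← mul_div_assoc, ← add_div]
    gcongr) s0 (s1.add s2)
  rw [f1, f2, mul_div_cancel_right₀ _ (pow_pos h0 e).ne',
    mul_div_cancel_right₀ _ (pow_pos hx2 e).ne', ← add_mul, hab, one_mul,
    div_le_iff₀ (pow_pos hx e)] at this
  exact this

lemma fix_log {e : ℕ} {d x : ℝ} (h : x = 1 - Real.exp (-(d * x ^ e))) :
    x < 1 ∧ -Real.log (1 - x) = d * x ^ e := by
  have h1 : 1 - x = Real.exp (-(d * x ^ e)) := by linarith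
  refine ⟨by linarith [Real.exp_pos (-(d * x ^ e))], ?_⟩
  rw [h1, Real.log_exp, neg_neg]

theorem phiOK_dk {k : ℕ} (hk : 2 ≤ k) : PhiOK k (dk k) := by
  intro d hd0 hd x hx0 hx1
  obtain ⟨e, rfl⟩ : ∃ e, k = e + 2 := ⟨k - 2, by omega⟩
  rcases hd0.eq_or_lt with rfl | hd0
  · simp
  have hk1 : e + 2 - 1 = e + 1 := rfl
  have hnot := notMem_of_lt_csInf hd ⟨0, fun y hy => hy.1.le⟩
  simp only [Set.mem_setOf_eq, not_and, not_lt] at hnot
  replace hnot := hnot hd0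
  set A := {x : ℝ | x ∈ Set.Icc (0 : ℝ) 1 ∧ x = 1 - Real.exp (-(d * x ^ (e + 2 - 1)))} with hA
  have hAc : IsClosed A :=
    isClosed_Icc.inter (isClosed_eq continuous_id (by fun_prop))
  have hAb : BddAbove A := ⟨1, fun y hy => hy.1.2⟩
  have hA0 : (0:ℝ) ∈ A := ⟨⟨le_rfl, zero_le_one⟩, by simp⟩
  have hρ : rho (e + 2) d ∈ A := hAc.csSup_mem ⟨0, hA0⟩ hAb
  set ρ := rho (e + 2) d with hρdef
  rw [hk1] at hnot ⊢
  set κ : ℝ := ((e + 2 : ℕ) : ℝ) with hκ
  have hκ0 : 0 < κ := by rw [hκ]; positivity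
  set Ψ : ℝ → ℝ := fun x => 1 - Real.exp (-(d * x ^ (e + 1))) - d * x ^ (e + 1)
    + d * (1 - 1 / κ) * x ^ (e + 2) with hΨ
  have hder : ∀ y, HasDerivAt Ψ
      (d * (e + 1) * y ^ e * (Real.exp (-(d * y ^ (e + 1))) - 1 + y)) y := by
    intro y
    have a1 : HasDerivAt (fun x : ℝ => d * x ^ (e + 1)) (d * (((e + 1 : ℕ) : ℝ) * y ^ e)) y :=
      (hasDerivAt_pow (e + 1) y).const_mul d
    have a2 : HasDerivAt (fun x : ℝ => d * (1 - 1 / κ) * x ^ (e + 2))
        (d * (1 - 1 / κ) * (κ * y ^ (e + 1))) y :=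
      (hasDerivAt_pow (e + 2) y).const_mul _
    have a3 := (((a1.neg.exp).const_sub 1).sub a1).add a2
    refine HasDerivAt.congr_deriv a3 ?_
    have : d * (1 - 1 / κ) * (κ * y ^ (e + 1)) = d * (κ - 1) * y ^ (e + 1) := by field_simp
    rw [this, hκ]
    simp only [Pi.neg_apply]
    push_cast
    ring
  have hdiff : Differentiable ℝ Ψ := fun y => (hder y).differentiableAt
  have hcont : Continuous Ψ := hdiff.continuous
  obtain ⟨α, hα, hmin⟩ := isCompact_Icc.exists_isMinOn (s := Set.Icc (0:ℝ) 1)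
    ⟨0, le_rfl, zero_le_one⟩ hcont.continuousOn
  have goal : 0 ≤ Ψ α := by
    rcases hα.1.eq_or_lt with h0 | h0
    · rw [← h0]; simp [hΨ]
    have mono : MonotoneOn Ψ (Set.Icc 1 2) := by
      refine monotoneOn_of_deriv_nonneg (convex_Icc 1 2) hcont.continuousOn
        hdiff.differentiableOn fun y hy => ?_
      rw [interior_Icc] at hy
      rw [(hder y).deriv]
      have : 0 < y := by linarith [hy.1]
      have : 0 ≤ Real.exp (-(d * y ^ (e + 1))) - 1 + y := by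
        linarith [Real.exp_pos (-(d * y ^ (e + 1))), hy.1]
      positivity
    have hmin2 : IsMinOn Ψ (Set.Icc 0 2) α := by
      intro y hy
      rcases le_total y 1 with h | h
      · exact hmin ⟨hy.1, h⟩
      · exact le_trans (hmin ⟨zero_le_one, le_rfl⟩)
          (mono ⟨le_rfl, by norm_num⟩ ⟨h, hy.2⟩ h)
    have hloc : IsLocalMin Ψ α := hmin2.isLocalMin (Icc_mem_nhds h0 (by linarith [hα.2]))
    have hz := hloc.hasDerivAt_eq_zero (hder α)
    have hfix : α = 1 - Real.exp (-(d * α ^ (e + 1))) := by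
      have hp : d * (e + 1) * α ^ e ≠ 0 := by positivity
      have := (mul_eq_zero.mp hz).resolve_left hp
      linarith
    have hle : α ≤ ρ := le_csSup hAb ⟨hα, hfix⟩
    have hρfix : ρ = 1 - Real.exp (-(d * ρ ^ (e + 1))) := hρ.2
    have anti : AntitoneOn Ψ (Set.Icc α ρ) := by
      refine antitoneOn_of_deriv_nonpos (convex_Icc α ρ) hcont.continuousOn
        hdiff.differentiableOn fun y hy => ?_
      rw [interior_Icc] at hy
      rw [(hder y).deriv]
      have hy0 : 0 < y := h0.trans hy.1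
      have hy1 : y < 1 := hy.2.trans (fix_log hρfix).1
      have q := log_quasi h0 hy.1.le hy.2.le (fix_log hρfix).1 (fix_log hfix).2 (fix_log hρfix).2
      have : Real.exp (-(d * y ^ (e + 1))) ≤ 1 - y := by
        rw [← Real.exp_log (show 0 < 1 - y by linarith)]
        exact Real.exp_le_exp.mpr (by linarith)
      exact mul_nonpos_of_nonneg_of_nonpos (by positivity) (by linarith)
    have h1 := anti ⟨le_rfl, hle⟩ ⟨hle, le_rfl⟩ hle
    have h2 : Ψ ρ = ρ - d * ρ ^ (e + 1) + (1 - 1 / κ) * d * ρ ^ (e + 2) := by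
      simp only [hΨ]
      rw [← hρfix]; ring
    linarith
  exact goal.trans (hmin ⟨hx0, hx1⟩)

end Pool.Agent.H886Z.UE
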