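import Pool.Agent.H886Z.UE.Mod
import Pool.Agent.H886Z.UE.Phi

/-! From linear systems over a finite module to the random model. -/

open Finset Module
open scoped BigOperators

namespace Pool.Agent.H886Z.UE

variable {k : ℕ} {Ω : Type} [Fintype Ω] [DecidableEq Ω]

lemma pairProb_eq {n m : ℕ} (I : Inst k Ω n m) (σ τ : Ω) :
    pairProb I σ τ = 𝔼 u : Fin n, 𝔼 v : Fin n,
      (#{x ∈ Sol I | x u = σ ∧ x v = τ} : ℝ) / #(Sol I) := by
  unfold pairProb
  simp only [Finset.expect_eq_sum_div_card, Finset.card_univ, Fintype.card_fin, ← Finset.sum_div]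
  rw [Finset.card_filter, Finset.sum_product, Finset.sum_comm, Fintype.sum_prod_type]
  simp only [Finset.card_filter]
  push_cast
  rw [div_div, div_div, sq]

section lin
variable {R : Type} [CommRing R] (c : Fin k → R) [AddCommGroup Ω] [Module R Ω]

lemma fiber_card {n m : ℕ} (I : Inst k Ω n m) (b : Fin m → Ω)
    (hb : ∀ a σ, (I a).1 σ = true ↔ ∑ j, c j • σ j = b a) {u v : Fin n}
    (h : Solv c Ω (fun a j => (I a).2 j) u v) :
    (Sol I).Nonempty ∧ ∀ σ τ : Ω,
      (#{x ∈ Sol I | x u = σ ∧ x v = τ} : ℝ) / #(Sol I) = 1 / (Fintype.card Ω : ℝ) ^ 2 := by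
  have hS : ∀ x, x ∈ Sol I ↔ ∀ a, ∑ j, c j • x ((I a).2 j) = b a := by
    intro x; simp [Sol, hb]
  have hne : (Sol I).Nonempty := by
    obtain ⟨x, hx, _⟩ := h b 0 0
    exact ⟨x, (hS x).mpr hx⟩
  refine ⟨hne, fun σ τ => ?_⟩
  have eq : ∀ σ' τ' : Ω, #{x ∈ Sol I | x u = σ' ∧ x v = τ'} = #{x ∈ Sol I | x u = σ ∧ x v = τ} := by
    intro σ' τ'
    obtain ⟨z, hz, hu, hv⟩ := h 0 (σ - σ') (τ - τ')
    refine Finset.card_nbij' (fun x => x + z) (fun x => x - z) ?_ ?_ (fun x _ => by simp)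
      (fun x _ => by simp)
    · intro x hx
      simp only [Finset.coe_filter, Set.mem_setOf_eq, hS] at hx ⊢
      refine ⟨fun a => ?_, by simp [hx.2.1, hu], by simp [hx.2.2, hv]⟩
      have := hz a
      simp only [Pi.add_apply, smul_add, Finset.sum_add_distrib, hx.1 a, this]
      simp
    · intro x hx
      simp only [Finset.coe_filter, Set.mem_setOf_eq, hS] at hx ⊢
      refine ⟨fun a => ?_, by simp [hx.2.1, hu], by simp [hx.2.2, hv]⟩
      have := hz a
      simp only [Pi.sub_apply, smul_sub, Finset.sum_sub_distrib, hx.1 a, this]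
      simp
  have tot : #(Sol I) = ∑ p : Ω × Ω, #{x ∈ Sol I | x u = p.1 ∧ x v = p.2} := by
    rw [Finset.card_eq_sum_card_fiberwise (f := fun x => (x u, x v)) (t := Finset.univ)
      (fun _ _ => Finset.mem_univ _)]
    refine Finset.sum_congr rfl fun p _ => ?_
    congr 1
    ext x
    simp [Prod.ext_iff]
  simp only [eq, Finset.sum_const, Finset.card_univ, Fintype.card_prod, smul_eq_mul] at tot
  have h0 : (0:ℝ) < #(Sol I) := by exact_mod_cast Finset.card_pos.mpr hne
  have hq : (0:ℝ) < Fintype.card Ω := by exact_mod_cast Fintype.card_pos_iff.mpr ⟨0⟩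
  rw [div_eq_div_iff h0.ne' (by positivity), one_mul]
  conv_rhs => rw [tot]
  push_cast; ring

lemma inst_good {n m : ℕ} (hn : 0 < n) (I : Inst k Ω n m) (b : Fin m → Ω)
    (hb : ∀ a σ, (I a).1 σ = true ↔ ∑ j, c j • σ j = b a) {δ : ℝ} (hδ : δ < 1)
    (h : 𝔼 u : Fin n, 𝔼 v : Fin n, ind (¬ Solv c Ω (fun a j => (I a).2 j) u v) ≤ δ) :
    (Sol I).Nonempty ∧ ∀ σ τ : Ω, |pairProb I σ τ - 1 / (Fintype.card Ω : ℝ) ^ 2| ≤ δ := by
  haveI : Nonempty (Fin n) := ⟨⟨0, hn⟩⟩
  have hU : (Finset.univ : Finset (Fin n)).Nonempty := Finset.univ_nonempty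
  constructor
  · by_contra hne
    have : ∀ u v : Fin n, ind (¬ Solv c Ω (fun a j => (I a).2 j) u v) = 1 := fun u v =>
      ind_pos fun hs => hne (fiber_card c I b hb hs).1
    simp only [this, Finset.expect_const hU] at h
    linarith
  · intro σ τ
    have hq : (1:ℝ) ≤ Fintype.card Ω := by exact_mod_cast Fintype.card_pos_iff.mpr ⟨0⟩
    have b0 : (0:ℝ) ≤ 1 / (Fintype.card Ω : ℝ) ^ 2 := by positivity
    have b1 : 1 / (Fintype.card Ω : ℝ) ^ 2 ≤ 1 := by
      rw [div_le_one (by positivity)]; nlinarith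
    have pt : ∀ u v : Fin n, |(#{x ∈ Sol I | x u = σ ∧ x v = τ} : ℝ) / #(Sol I)
        - 1 / (Fintype.card Ω : ℝ) ^ 2| ≤ ind (¬ Solv c Ω (fun a j => (I a).2 j) u v) := by
      intro u v
      by_cases hs : Solv c Ω (fun a j => (I a).2 j) u v
      · rw [(fiber_card c I b hb hs).2 σ τ, sub_self, abs_zero]; exact ind_nonneg _
      · rw [ind_pos hs, abs_le]
        have c0 : (0:ℝ) ≤ (#{x ∈ Sol I | x u = σ ∧ x v = τ} : ℝ) / #(Sol I) := by positivity
        have c1 : (#{x ∈ Sol I | x u = σ ∧ x v = τ} : ℝ) / #(Sol I) ≤ 1 :=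
          div_le_one_of_le₀ (by exact_mod_cast Finset.card_filter_le _ _) (Nat.cast_nonneg _)
        constructor <;> linarith
    rw [pairProb_eq, ← Finset.expect_const hU (1 / (Fintype.card Ω : ℝ) ^ 2),
      ← Finset.expect_sub_distrib]
    refine le_trans (Finset.abs_expect_le _ _) (le_trans ?_ h)
    refine Finset.expect_le_expect fun u _ => ?_
    rw [← Finset.expect_const hU (1 / (Fintype.card Ω : ℝ) ^ 2), ← Finset.expect_sub_distrib]
    exact le_trans (Finset.abs_expect_le _ _) (Finset.expect_le_expect fun v _ => pt u v)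

omit [AddCommGroup Ω] in
lemma weight_sum {π : Con k Ω → ℝ} (hπ : ∑ ψ, π ψ = 1) (n m : ℕ)
    (φ : (Fin m → (Fin k ↪ Fin n)) → ℝ) :
    ∑ I : Inst k Ω n m, (∏ a, π (I a).1 / Fintype.card (Fin k ↪ Fin n)) * φ (fun a => (I a).2)
      = (∑ A, φ A) / (Fintype.card (Fin k ↪ Fin n) : ℝ) ^ m := by
  rw [Fintype.sum_equiv (Equiv.arrowProdEquivProdArrow (Fin m) (fun _ => Con k Ω)
    (fun _ => Fin k ↪ Fin n)) _
    (fun p => (∏ a, π (p.1 a)) * (φ p.2 / (Fintype.card (Fin k ↪ Fin n) : ℝ) ^ m)) ?_]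
  · rw [Fintype.sum_prod_type]
    simp only [← Finset.mul_sum, ← Finset.sum_mul, ← Finset.sum_div]
    have := Finset.prod_univ_sum (fun _ : Fin m => (Finset.univ : Finset (Con k Ω)))
      (fun _ ψ => π ψ)
    rw [Fintype.piFinset_univ] at this
    rw [← this]
    simp [hπ]
  · intro I
    rw [Finset.prod_div_distrib, Finset.prod_const, Finset.card_univ, Fintype.card_fin]
    simp only [Equiv.arrowProdEquivProdArrow_apply]
    ring

lemma ratio_le {n m : ℕ} (hk : 0 < k) (hn : 2 * k ≤ n) (hm : m ≤ n) :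
    ((n : ℝ) ^ k) ^ m ≤ Real.exp (2 * k ^ 2) * (Fintype.card (Fin k ↪ Fin n) : ℝ) ^ m := by
  rw [Fintype.card_embedding_eq, Fintype.card_fin, Fintype.card_fin]
  have h1 : (((n + 1 - k) ^ k : ℕ) : ℝ) ≤ n.descFactorial k := by
    exact_mod_cast Nat.pow_sub_le_descFactorial n k
  have hn0 : (0:ℝ) < n := by exact_mod_cast (by omega : 0 < n)
  have hn' : 2 * (k:ℝ) ≤ n := by exact_mod_cast hn
  have hk0 : (0:ℝ) ≤ k := Nat.cast_nonneg _
  have h2 : (n : ℝ) ≤ Real.exp (2 * k / n) * (n + 1 - k : ℕ) := by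
    rw [Nat.cast_sub (by omega)]
    push_cast
    have e := Real.add_one_le_exp (2 * k / n)
    have : (n : ℝ) ≤ (2 * k / n + 1) * (n + 1 - k) := by
      rw [div_add_one hn0.ne', div_mul_eq_mul_div, le_div_iff₀ hn0]
      nlinarith
    exact this.trans (mul_le_mul_of_nonneg_right e (by linarith))
  have h3 : (n : ℝ) ^ k ≤ Real.exp (2 * k / n) ^ k * n.descFactorial k := by
    calc (n : ℝ) ^ k ≤ (Real.exp (2 * k / n) * (n + 1 - k : ℕ)) ^ k :=
          pow_le_pow_left₀ hn0.le h2 k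
      _ ≤ _ := by
          rw [mul_pow]
          push_cast at h1
          gcongr
  calc ((n : ℝ) ^ k) ^ m ≤ (Real.exp (2 * k / n) ^ k * n.descFactorial k) ^ m :=
        pow_le_pow_left₀ (by positivity) h3 m
    _ ≤ _ := by
        rw [mul_pow, ← Real.exp_nat_mul, ← Real.exp_nat_mul]
        refine mul_le_mul_of_nonneg_right (Real.exp_le_exp.mpr ?_) (by positivity)
        have hm' : (m : ℝ) ≤ n := by exact_mod_cast hm
        calc (m : ℝ) * (k * (2 * k / n)) ≤ n * (k * (2 * k / n)) := by gcongr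
          _ = 2 * k ^ 2 := by field_simp

theorem rs_of_linear (hk : 3 ≤ k) (hinj : ∀ j, Function.Injective fun x : Ω => c j • x)
    {π : Con k Ω → ℝ} (hπ : IsDist π)
    (hlin : ∀ ψ, π ψ ≠ 0 → ∃ b, ∀ σ, ψ σ = true ↔ ∑ j, c j • σ j = b) : RS π := by
  classical
  intro ε hε δ hδ
  have hk0 : 0 < k := by omega
  have hkR : (0:ℝ) < k := by exact_mod_cast hk0
  set s := dk k / k - ε with hs
  rcases le_or_gt s 0 with hs0 | hs0
  · refine ⟨0, fun n _ m hm => absurd hm (not_lt.mpr ?_)⟩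
    exact le_trans (mul_nonpos_of_nonpos_of_nonneg hs0 (Nat.cast_nonneg _)) (Nat.cast_nonneg _)
  have hD := phiOK_dk (show 2 ≤ k by omega)
  have hsD : k * s < dk k := by
    have : (k:ℝ) * (dk k / k) = dk k := by field_simp
    rw [hs, mul_sub, this]; nlinarith
  have hs1 : s ≤ 1 := by have := hD.le hk0; nlinarith
  set δ' := min δ (1 / 2) with hδ'
  have d0 : 0 < δ' := lt_min hδ (by norm_num)
  have d1 : δ' ≤ δ := min_le_left _ _
  have d2 : δ' < 1 := lt_of_le_of_lt (min_le_right _ _) (by norm_num)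
  obtain ⟨N₁, hN₁⟩ := good_all c hk hD hs0.le hsD _ Ω rfl hinj
    (δ * δ' / Real.exp (2 * k ^ 2)) (by positivity)
  refine ⟨max N₁ (2 * k), fun n hn m hm => ?_⟩
  have hn2 : 2 * k ≤ n := le_trans (le_max_right _ _) hn
  have h1 := hN₁ (Fin n) (by rw [Fintype.card_fin]; exact le_trans (le_max_left _ _) hn) m
    (by rw [Fintype.card_fin]; exact hm.le)
  have hmn : m ≤ n := by
    have : (m : ℝ) ≤ n := by nlinarith [Nat.cast_nonneg (α := ℝ) n]
    exact_mod_cast this
  set β : (Fin m → Fin k → Fin n) → ℝ :=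
    fun A => 𝔼 u : Fin n, 𝔼 v : Fin n, ind (¬ Solv c Ω A u v) with hβ
  have β0 : ∀ A, 0 ≤ β A := fun A =>
    Finset.expect_nonneg fun _ _ => Finset.expect_nonneg fun _ _ => ind_nonneg _
  have hE : (0:ℝ) < Fintype.card (Fin k ↪ Fin n) := by
    rw [Fintype.card_embedding_eq, Fintype.card_fin, Fintype.card_fin]
    exact_mod_cast Nat.descFactorial_pos.mpr (by omega)
  have w0 : ∀ I : Inst k Ω n m, 0 ≤ ∏ a, π (I a).1 / Fintype.card (Fin k ↪ Fin n) := fun I =>
    Finset.prod_nonneg fun a _ => div_nonneg (hπ.1 _) hE.le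
  have t1 := weight_sum hπ.2.1 n m (fun _ => 1)
  rw [Finset.sum_const, Finset.card_univ, Fintype.card_fun, Fintype.card_fin, nsmul_eq_mul,
    mul_one, Nat.cast_pow, div_self (by positivity)] at t1
  have t2 := weight_sum hπ.2.1 n m (fun A => β fun a j => A a j)
  have t3 : ∑ A : Fin m → (Fin k ↪ Fin n), β (fun a j => A a j) ≤ ∑ A, β A := by
    rw [← Finset.sum_image (s := Finset.univ)
      (g := fun (A : Fin m → (Fin k ↪ Fin n)) (a : Fin m) (j : Fin k) => A a j) (f := β)]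
    · exact Finset.sum_le_sum_of_subset_of_nonneg (Finset.subset_univ _) fun A _ _ => β0 A
    · intro A _ B _ h
      funext a
      ext j
      exact congrArg Fin.val (congrFun (congrFun h a) j)
  have hn0 : (0:ℝ) < n := by exact_mod_cast (by omega : 0 < n)
  rw [Finset.expect_eq_sum_div_card, Finset.card_univ, Fintype.card_fun, Fintype.card_fun,
    Fintype.card_fin, Fintype.card_fin, Fintype.card_fin] at h1
  push_cast at h1
  rw [div_le_div_iff₀ (by positivity) (Real.exp_pos _)] at h1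
  have t4 : (∑ A : Fin m → (Fin k ↪ Fin n), β (fun a j => A a j))
      / (Fintype.card (Fin k ↪ Fin n) : ℝ) ^ m ≤ δ * δ' := by
    rw [div_le_iff₀ (by positivity)]
    have r := ratio_le hk0 hn2 hmn
    refine t3.trans (le_of_mul_le_mul_right (h1.trans ?_) (Real.exp_pos (2 * k ^ 2)))
    calc δ * δ' * ((n:ℝ) ^ k) ^ m
        ≤ δ * δ' * (Real.exp (2 * k ^ 2) * (Fintype.card (Fin k ↪ Fin n) : ℝ) ^ m) := by gcongr
      _ = _ := by ring
  unfold prob
  rw [Finset.sum_filter]
  have pt : ∀ I : Inst k Ω n m,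
      (∏ a, π (I a).1 / Fintype.card (Fin k ↪ Fin n)) * 1
        - (∏ a, π (I a).1 / Fintype.card (Fin k ↪ Fin n)) * β (fun a j => (I a).2 j) / δ'
      ≤ if (Sol I).Nonempty ∧ ∀ σ τ : Ω, |pairProb I σ τ - 1 / (Fintype.card Ω : ℝ) ^ 2| ≤ δ
        then ∏ a, π (I a).1 / Fintype.card (Fin k ↪ Fin n) else 0 := by
    intro I
    have a0 := w0 I
    have a1 := β0 fun a j => (I a).2 j
    split_ifs with h
    · have : 0 ≤ (∏ a, π (I a).1 / Fintype.card (Fin k ↪ Fin n)) * β (fun a j => (I a).2 j) / δ' := by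
        positivity
      linarith
    · by_cases hz : ∀ a, π (I a).1 ≠ 0
      · choose b hb using fun a => hlin _ (hz a)
        have : δ' ≤ β fun a j => (I a).2 j := by
          by_contra hlt
          have := inst_good c (by omega) I b hb d2 (not_le.mp hlt).le
          exact h ⟨this.1, fun σ τ => (this.2 σ τ).trans d1⟩
        rw [sub_nonpos, mul_div_assoc]
        exact mul_le_mul_of_nonneg_left ((one_le_div d0).mpr this) a0
      · push Not at hz
        obtain ⟨a, ha⟩ := hz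
        rw [Finset.prod_eq_zero (Finset.mem_univ a) (by rw [ha, zero_div])]
        simp
  refine le_trans ?_ ((Finset.sum_le_sum (s := Finset.univ) fun I _ => pt I).trans (le_of_eq ?_))
  · rw [Finset.sum_sub_distrib, ← Finset.sum_div, t1, t2]
    have : (∑ A : Fin m → (Fin k ↪ Fin n), β (fun a j => A a j))
        / (Fintype.card (Fin k ↪ Fin n) : ℝ) ^ m / δ' ≤ δ := by
      rw [div_le_iff₀ d0]; exact t4
    linarith
  · exact Finset.sum_congr rfl fun I _ => by congr

end lin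

end Pool.Agent.H886Z.UE
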