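import Mathlib

/-! Averaging operators on functions on a join-semilattice. -/

open Finset
open scoped BigOperators

namespace Pool.Agent.H886Z.UE

open Classical in
/-- real indicator of a proposition -/
noncomputable def ind (p : Prop) : ℝ := if p then 1 else 0

lemma ind_nonneg (p : Prop) : 0 ≤ ind p := by unfold ind; split_ifs <;> norm_num
lemma ind_le_one (p : Prop) : ind p ≤ 1 := by unfold ind; split_ifs <;> norm_num
lemma ind_pos {p : Prop} (h : p) : ind p = 1 := by unfold ind; simp [h]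
lemma ind_neg {p : Prop} (h : ¬ p) : ind p = 0 := by unfold ind; simp [h]
lemma ind_mono {p q : Prop} (h : p → q) : ind p ≤ ind q := by
  by_cases hp : p
  · rw [ind_pos hp, ind_pos (h hp)]
  · rw [ind_neg hp]; exact ind_nonneg _
lemma ind_congr {p q : Prop} (h : p ↔ q) : ind p = ind q := by rw [propext h]
lemma ind_not (p : Prop) : ind (¬ p) = 1 - ind p := by
  by_cases hp : p
  · rw [ind_pos hp, ind_neg (not_not.mpr hp)]; ring
  · rw [ind_neg hp, ind_pos hp]; ring
lemma ind_forall {κ : Type*} (s : Finset κ) (p : κ → Prop) :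
    ind (∀ j ∈ s, p j) = ∏ j ∈ s, ind (p j) := by
  classical
  by_cases h : ∀ j ∈ s, p j
  · rw [ind_pos h, Finset.prod_eq_one (fun j hj => ind_pos (h j hj))]
  · rw [ind_neg h]
    push Not at h
    obtain ⟨j, hj, hp⟩ := h
    exact (Finset.prod_eq_zero hj (ind_neg hp)).symm

variable {Λ : Type*} [SemilatticeSup Λ]

/-- the averaging operator: join a uniformly chosen element -/
noncomputable def op {κ : Type*} (S : Finset κ) (Z : κ → Λ) : Module.End ℝ (Λ → ℝ) where
  toFun f := fun W => 𝔼 i ∈ S, f (W ⊔ Z i)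
  map_add' f g := by
    funext W
    simp only [Pi.add_apply]
    exact Finset.expect_add_distrib _ _ _
  map_smul' c f := by
    funext W
    simp only [Pi.smul_apply, smul_eq_mul, RingHom.id_apply]
    exact (Finset.mul_expect _ _ _).symm

lemma op_apply {κ : Type*} (S : Finset κ) (Z : κ → Λ) (f : Λ → ℝ) (W : Λ) :
    op S Z f W = 𝔼 i ∈ S, f (W ⊔ Z i) := rfl

lemma op_comm {κ κ' : Type*} (S : Finset κ) (Z : κ → Λ) (S' : Finset κ') (Z' : κ' → Λ) :
    Commute (op S Z) (op S' Z') := by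
  unfold Commute SemiconjBy
  ext1 f
  funext W
  simp only [Module.End.mul_apply, op_apply]
  rw [Finset.expect_comm]
  refine Finset.expect_congr rfl fun i _ => Finset.expect_congr rfl fun j _ => ?_
  rw [sup_right_comm]

/-- `T` is order preserving for functions compared on `U` -/
def PosOn (U : Set Λ) (T : Module.End ℝ (Λ → ℝ)) : Prop :=
  ∀ f g : Λ → ℝ, (∀ W ∈ U, f W ≤ g W) → ∀ W ∈ U, T f W ≤ T g W

lemma PosOn.one (U : Set Λ) : PosOn U 1 := fun _ _ h W hW => h W hW

lemma PosOn.mul {U : Set Λ} {T T' : Module.End ℝ (Λ → ℝ)} (h : PosOn U T) (h' : PosOn U T') :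
    PosOn U (T * T') := fun f g hfg W hW => h _ _ (h' f g hfg) W hW

lemma PosOn.pow {U : Set Λ} {T : Module.End ℝ (Λ → ℝ)} (h : PosOn U T) (n : ℕ) :
    PosOn U (T ^ n) := by
  induction n with
  | zero => simpa using PosOn.one U
  | succ n ih => rw [pow_succ]; exact ih.mul h

lemma posOn_op {κ : Type*} {U : Set Λ} (S : Finset κ) (Z : κ → Λ)
    (h : ∀ W ∈ U, ∀ i ∈ S, W ⊔ Z i ∈ U) : PosOn U (op S Z) := by
  intro f g hfg W hW
  exact Finset.expect_le_expect fun i hi => hfg _ (h W hW i hi)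

/-- Markov operators of join type -/
structure Mk (T : Module.End ℝ (Λ → ℝ)) : Prop where
  up : ∀ W₀ : Λ, PosOn (Set.Ici W₀) T
  pos : PosOn Set.univ T
  const : ∀ c : ℝ, T (fun _ => c) = fun _ => c
  mono : ∀ f, Monotone f → Monotone (T f)
  infl : ∀ f, Monotone f → ∀ W, f W ≤ T f W

lemma Mk.le {T : Module.End ℝ (Λ → ℝ)} (h : Mk T) {f g : Λ → ℝ} (hfg : ∀ W, f W ≤ g W) (W : Λ) :
    T f W ≤ T g W := h.pos f g (fun W _ => hfg W) W (Set.mem_univ _)

lemma Mk.one : Mk (1 : Module.End ℝ (Λ → ℝ)) :=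
  ⟨fun _ => PosOn.one _, PosOn.one _, fun _ => rfl, fun _ h => h, fun _ _ _ => le_rfl⟩

lemma Mk.mul {T T' : Module.End ℝ (Λ → ℝ)} (h : Mk T) (h' : Mk T') : Mk (T * T') where
  up W₀ := (h.up W₀).mul (h'.up W₀)
  pos := h.pos.mul h'.pos
  const c := by rw [Module.End.mul_apply, h'.const, h.const]
  mono f hf := h.mono _ (h'.mono f hf)
  infl f hf W := (h'.infl f hf W).trans (h.infl _ (h'.mono f hf) W)

lemma Mk.pow {T : Module.End ℝ (Λ → ℝ)} (h : Mk T) (n : ℕ) : Mk (T ^ n) := by
  induction n with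
  | zero => simpa using Mk.one
  | succ n ih => rw [pow_succ]; exact ih.mul h

lemma mk_op {κ : Type*} {S : Finset κ} (hS : S.Nonempty) (Z : κ → Λ) : Mk (op S Z) where
  up W₀ := posOn_op S Z fun W hW i _ => le_trans hW le_sup_left
  pos := posOn_op S Z fun _ _ _ _ => Set.mem_univ _
  const c := by funext W; rw [op_apply]; exact Finset.expect_const hS c
  mono f hf W W' h := Finset.expect_le_expect fun i _ => hf (sup_le_sup_right h _)
  infl f hf W := Finset.le_expect hS fun i _ => hf le_sup_left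

lemma PosOn.comb {U : Set Λ} {T T' : Module.End ℝ (Λ → ℝ)} (h : PosOn U T) (h' : PosOn U T')
    {a b : ℝ} (ha : 0 ≤ a) (hb : 0 ≤ b) : PosOn U (a • T + b • T') := by
  intro f g hfg W hW
  have h1 := h f g hfg W hW
  have h2 := h' f g hfg W hW
  simp only [LinearMap.add_apply, LinearMap.smul_apply, Pi.add_apply, Pi.smul_apply, smul_eq_mul]
  nlinarith [mul_le_mul_of_nonneg_left h1 ha, mul_le_mul_of_nonneg_left h2 hb]

lemma Mk.comb {T T' : Module.End ℝ (Λ → ℝ)} (h : Mk T) (h' : Mk T') {p : ℝ} (h0 : 0 ≤ p)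
    (h1 : p ≤ 1) : Mk ((1 - p) • T + p • T') where
  up W₀ := (h.up W₀).comb (h'.up W₀) (by linarith) h0
  pos := h.pos.comb h'.pos (by linarith) h0
  const c := by
    funext W
    simp only [LinearMap.add_apply, LinearMap.smul_apply, Pi.add_apply, Pi.smul_apply,
      smul_eq_mul, h.const, h'.const]
    ring
  mono f hf W W' hW := by
    have a := h.mono f hf hW
    have b := h'.mono f hf hW
    simp only [LinearMap.add_apply, LinearMap.smul_apply, Pi.add_apply, Pi.smul_apply,
      smul_eq_mul]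
    nlinarith [mul_le_mul_of_nonneg_left a (by linarith : (0:ℝ) ≤ 1 - p),
      mul_le_mul_of_nonneg_left b h0]
  infl f hf W := by
    have a := h.infl f hf W
    have b := h'.infl f hf W
    simp only [LinearMap.add_apply, LinearMap.smul_apply, Pi.add_apply, Pi.smul_apply,
      smul_eq_mul]
    nlinarith [mul_le_mul_of_nonneg_left a (by linarith : (0:ℝ) ≤ 1 - p),
      mul_le_mul_of_nonneg_left b h0]

lemma Mk.anti {T : Module.End ℝ (Λ → ℝ)} (h : Mk T) {f : Λ → ℝ} (hf : Antitone f) :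
    Antitone (T f) := by
  have h1 : Monotone (-f) := fun a b hab => by simpa using hf hab
  have h2 := h.mono _ h1
  rw [map_neg] at h2
  intro a b hab
  simpa using h2 hab

lemma Mk.defl {T : Module.End ℝ (Λ → ℝ)} (h : Mk T) {f : Λ → ℝ} (hf : Antitone f) (W : Λ) :
    T f W ≤ f W := by
  have h1 : Monotone (-f) := fun a b hab => by simpa using hf hab
  have h2 := h.infl _ h1 W
  rw [map_neg] at h2
  simpa using h2

/-- affine images -/
lemma Mk.affine {T : Module.End ℝ (Λ → ℝ)} (h : Mk T) (f g : Λ → ℝ) (a b c : ℝ) (W : Λ) :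
    T (fun Y => a * f Y + b * g Y + c) W = a * T f W + b * T g W + c := by
  have : (fun Y => a * f Y + b * g Y + c) = a • f + b • g + fun _ => c := by
    funext Y; simp
  rw [this, map_add, map_add, map_smul, map_smul, h.const]
  simp

lemma Mk.add_const {T : Module.End ℝ (Λ → ℝ)} (h : Mk T) (f : Λ → ℝ) (c : ℝ) (W : Λ) :
    T (fun Y => f Y + c) W = T f W + c := by
  have := h.affine f f 1 0 c W
  simpa using this

lemma Mk.const_mul {T : Module.End ℝ (Λ → ℝ)} (h : Mk T) (f : Λ → ℝ) (c : ℝ) (W : Λ) :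
    T (fun Y => c * f Y) W = c * T f W := by
  have := h.affine f f c 0 0 W
  simpa using this

lemma Mk.bounds {T : Module.End ℝ (Λ → ℝ)} (h : Mk T) {f : Λ → ℝ} {a b : ℝ}
    (hf : ∀ W, a ≤ f W ∧ f W ≤ b) (W : Λ) : a ≤ T f W ∧ T f W ≤ b := by
  constructor
  · have := h.le (f := fun _ => a) (g := f) (fun W => (hf W).1) W
    rwa [h.const] at this
  · have := h.le (f := f) (g := fun _ => b) (fun W => (hf W).2) W
    rwa [h.const] at this

/-- iterating a one-step upper bound -/
lemma iter_le {T : Module.End ℝ (Λ → ℝ)} (h : Mk T) {U : Set Λ} (hU : PosOn U T) {f : Λ → ℝ}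
    {c : ℝ} (hf : ∀ W ∈ U, T f W ≤ f W + c) (n : ℕ) : ∀ W ∈ U, (T ^ n) f W ≤ f W + n * c := by
  induction n with
  | zero => intro W _; simp
  | succ n ih =>
    intro W hW
    rw [pow_succ', Module.End.mul_apply]
    have := hU _ _ ih W hW
    rw [h.add_const] at this
    have h2 := hf W hW
    push_cast
    linarith

/-- iterating a contraction -/
lemma iter_mul_le {T : Module.End ℝ (Λ → ℝ)} (h : Mk T) {U : Set Λ} (hU : PosOn U T) {f : Λ → ℝ}
    {c : ℝ} (hc : 0 ≤ c) (hf : ∀ W ∈ U, T f W ≤ c * f W) (n : ℕ) :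
    ∀ W ∈ U, (T ^ n) f W ≤ c ^ n * f W := by
  induction n with
  | zero => intro W _; simp
  | succ n ih =>
    intro W hW
    rw [pow_succ', Module.End.mul_apply]
    have := hU _ _ ih W hW
    rw [h.const_mul] at this
    have h2 := mul_le_mul_of_nonneg_left (hf W hW) (pow_nonneg hc n)
    rw [pow_succ]
    linarith [mul_assoc (c ^ n) c (f W)]

/-- comparing powers of two operators on an invariant class -/
lemma pow_ge_pow {T T' : Module.End ℝ (Λ → ℝ)} (h : Mk T) (h' : Mk T') (C : Set (Λ → ℝ))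
    (hC : ∀ f ∈ C, T' f ∈ C) {c : ℝ} (hc : ∀ f ∈ C, ∀ W, T' f W - c ≤ T f W) (n : ℕ) :
    ∀ f ∈ C, ∀ W, (T' ^ n) f W - n * c ≤ (T ^ n) f W := by
  have hCn : ∀ n : ℕ, ∀ f ∈ C, (T' ^ n) f ∈ C := by
    intro n
    induction n with
    | zero => intro f hf; simpa using hf
    | succ n ih => intro f hf; rw [pow_succ', Module.End.mul_apply]; exact hC _ (ih f hf)
  induction n with
  | zero => intro f _ W; simp
  | succ n ih =>
    intro f hf W
    rw [pow_succ', pow_succ', Module.End.mul_apply, Module.End.mul_apply]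
    have h1 := h.le (f := fun Y => (T' ^ n) f Y + (-(n * c))) (g := (T ^ n) f)
      (fun Y => by have := ih f hf Y; linarith) W
    rw [h.add_const] at h1
    have h2 := hc _ (hCn n f hf) W
    push_cast
    linarith

/-- explicit formula for powers -/
lemma op_pow_apply {κ : Type*} [Fintype κ] [DecidableEq κ] [OrderBot Λ] (Z : κ → Λ) (m : ℕ)
    (f : Λ → ℝ) (W : Λ) :
    ((op Finset.univ Z) ^ m) f W
      = 𝔼 A : Fin m → κ, f (W ⊔ Finset.univ.sup fun i => Z (A i)) := by
  induction m generalizing W with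
  | zero => simp
  | succ m ih =>
    rw [pow_succ', Module.End.mul_apply, op_apply]
    simp only [ih]
    rw [← Finset.expect_product' (f := fun (i : κ) (A : Fin m → κ) =>
      f (W ⊔ Z i ⊔ Finset.univ.sup fun j => Z (A j)))]
    refine Finset.expect_equiv (Fin.consEquiv fun _ => κ) (by simp) ?_
    rintro ⟨i, A⟩ _
    congr 1
    rw [sup_assoc]
    congr 1
    rw [Fin.univ_succ]
    simp [Fin.consEquiv, Finset.sup_map, Function.comp_def]

/-- the telescoping estimate behind pinning -/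
lemma sum_shift_le (a : ℕ → ℝ) (h : ∀ n, 0 ≤ a n ∧ a n ≤ 1) (Θ l : ℕ) :
    ∑ θ ∈ range Θ, (a (θ + l) - a θ) ≤ l := by
  have h1 : ∑ θ ∈ range Θ, (a (θ + l) - a θ) = ∑ i ∈ range l, (a (Θ + i) - a i) := by
    have e1 := Finset.sum_range_add a Θ l
    have e2 := Finset.sum_range_add a l Θ
    rw [add_comm l Θ] at e2
    simp only [Finset.sum_sub_distrib]
    have : ∑ θ ∈ range Θ, a (θ + l) = ∑ θ ∈ range Θ, a (l + θ) :=
      Finset.sum_congr rfl fun _ _ => by rw [add_comm]
    linarith
  rw [h1]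
  calc ∑ i ∈ range l, (a (Θ + i) - a i) ≤ ∑ _i ∈ range l, (1:ℝ) :=
        Finset.sum_le_sum fun i _ => by linarith [(h (Θ + i)).2, (h i).1]
    _ = l := by simp

/-- resampling one coordinate of a uniform tuple -/
lemma sum_update {κ ι : Type*} [Fintype κ] [DecidableEq κ] [DecidableEq ι] (s : κ → Finset ι)
    (j : κ) (a : ι) (φ : (κ → ι) → ℝ) :
    ∑ r ∈ Fintype.piFinset s, φ r
      = ∑ i ∈ s j, ∑ r ∈ Fintype.piFinset (Function.update s j {a}),
          φ (Function.update r j i) := by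
  rw [← Finset.sum_product']
  symm
  refine Finset.sum_nbij' (fun x => Function.update x.2 j x.1)
    (fun r => (r j, Function.update r j a)) ?_ ?_ ?_ ?_ ?_
  · rintro ⟨i, r⟩ h
    simp only [Finset.mem_product, Fintype.mem_piFinset] at h ⊢
    intro j'
    by_cases e : j' = j
    · subst e; simpa using h.1
    · have := h.2 j'
      rwa [Function.update_of_ne e] at this ⊢
  · intro r h
    simp only [Finset.mem_product, Fintype.mem_piFinset] at h ⊢
    refine ⟨h j, fun j' => ?_⟩
    by_cases e : j' = j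
    · subst e; simp
    · rw [Function.update_of_ne e, Function.update_of_ne e]; exact h j'
  · rintro ⟨i, r⟩ h
    simp only [Finset.mem_product, Fintype.mem_piFinset] at h
    have := h.2 j
    simp only [Function.update_self, Finset.mem_singleton] at this
    simp [← this]
  · intro r _; simp
  · intro _ _; rfl

lemma expect_update {κ ι : Type*} [Fintype κ] [DecidableEq κ] [DecidableEq ι] {S : Finset ι}
    (hS : S.Nonempty) (j : κ) (φ : (κ → ι) → ℝ) :
    𝔼 r ∈ Fintype.piFinset (fun _ : κ => S), φ r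
      = 𝔼 r ∈ Fintype.piFinset (fun _ : κ => S), 𝔼 i ∈ S, φ (Function.update r j i) := by
  obtain ⟨a, ha⟩ := hS
  have hc : (S.card : ℝ) ≠ 0 := by
    exact_mod_cast (Finset.card_pos.mpr ⟨a, ha⟩).ne'
  simp only [Finset.expect_eq_sum_div_card]
  congr 1
  rw [sum_update _ j a, sum_update _ j a (fun r => (∑ i ∈ S, φ (Function.update r j i)) / S.card)]
  simp only [Function.update_idem, Finset.sum_const, nsmul_eq_mul]
  rw [← Finset.sum_div, mul_div_cancel₀ _ hc, Finset.sum_comm]

lemma expect_prod {κ ι : Type*} [Fintype κ] [DecidableEq κ] [DecidableEq ι] (S : Finset ι)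
    (g : κ → ι → ℝ) :
    𝔼 r ∈ Fintype.piFinset (fun _ : κ => S), ∏ j, g j (r j) = ∏ j, 𝔼 i ∈ S, g j i := by
  simp only [Finset.expect_eq_sum_div_card]
  rw [Finset.prod_div_distrib, Finset.prod_univ_sum, Fintype.card_piFinset]
  simp

end Pool.Agent.H886Z.UE
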