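import Pool.Agent.H886Z.UE.Rank

/-! Few related pairs of coordinates, and a subgaussian estimate. -/

open Finset Module
open scoped BigOperators

namespace Pool.Agent.H886Z.UE

variable {F : Type*} [Field F] {ι : Type*} [Fintype ι] [DecidableEq ι] {k : ℕ}

/-- the coordinates `u, v` are related modulo `W` -/
def bad (W : Submodule F (ι → F)) (u v : ι) : Prop :=
  ∃ x y : F, (x ≠ 0 ∨ y ≠ 0) ∧ x • ev F u + y • ev F v ∈ W

/-- fraction of related pairs -/
noncomputable def be (W : Submodule F (ι → F)) : ℝ := 𝔼 u : ι, 𝔼 v : ι, ind (bad W u v)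

/-- one random unit row -/
noncomputable def Pone (F : Type*) [Field F] (ι : Type*) [Fintype ι] [DecidableEq ι] :
    Module.End ℝ (Submodule F (ι → F) → ℝ) :=
  op Finset.univ fun w : ι => Submodule.span F {ev F w}

lemma be_nonneg (W : Submodule F (ι → F)) : 0 ≤ be W :=
  Finset.expect_nonneg fun _ _ => Finset.expect_nonneg fun _ _ => ind_nonneg _

lemma be_le (W : Submodule F (ι → F)) : be W ≤ 2 * Pone F ι (al Finset.univ) W := by
  have e : Pone F ι (al Finset.univ) W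
      = 𝔼 w : ι, 𝔼 i : ι, ind (ev F i ∈ W ⊔ Submodule.span F {ev F w}) := rfl
  rw [two_mul]
  nth_rewrite 1 [e, Finset.expect_comm]
  rw [e, ← Finset.expect_add_distrib]
  refine Finset.expect_le_expect fun u _ => ?_
  rw [← Finset.expect_add_distrib]
  refine Finset.expect_le_expect fun v _ => ?_
  by_cases h : bad W u v
  · rw [ind_pos h]
    obtain ⟨x, y, hxy, hm⟩ := h
    rcases hxy with hx | hy
    · have : ev F u ∈ W ⊔ Submodule.span F {ev F v} := by
        refine (Submodule.smul_mem_iff _ hx).mp ?_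
        have h1 : x • ev F u = (x • ev F u + y • ev F v) - y • ev F v := by abel
        rw [h1]
        exact Submodule.sub_mem _ (Submodule.mem_sup_left hm)
          (Submodule.mem_sup_right (Submodule.smul_mem _ _ (Submodule.mem_span_singleton_self _)))
      rw [ind_pos this]; linarith [ind_nonneg (ev F v ∈ W ⊔ Submodule.span F {ev F u})]
    · have : ev F v ∈ W ⊔ Submodule.span F {ev F u} := by
        refine (Submodule.smul_mem_iff _ hy).mp ?_
        have h1 : y • ev F v = (x • ev F u + y • ev F v) - x • ev F u := by abel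
        rw [h1]
        exact Submodule.sub_mem _ (Submodule.mem_sup_left hm)
          (Submodule.mem_sup_right (Submodule.smul_mem _ _ (Submodule.mem_span_singleton_self _)))
      rw [ind_pos this]; linarith [ind_nonneg (ev F u ∈ W ⊔ Submodule.span F {ev F v})]
  · rw [ind_neg h]; exact add_nonneg (ind_nonneg _) (ind_nonneg _)

theorem pairs_small (hk : 0 < k) {D s η : ℝ} (hD : PhiOK k D) (hs0 : 0 ≤ s) (hsD : k * s < D)
    (hη : 0 < η) : ∃ N₁ : ℕ, ∀ (F : Type) [Field F] (c : Fin k → F) (_ : ∀ j, c j ≠ 0)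
      (ι : Type) [Fintype ι] [DecidableEq ι], N₁ ≤ Fintype.card ι → ∀ m : ℕ,
      (m : ℝ) ≤ s * Fintype.card ι → (Top c (Finset.univ : Finset ι) ^ m) be ⊥ ≤ η := by
  have hkR : (0:ℝ) < k := by exact_mod_cast hk
  set t := (s + D / k) / 2 with ht
  have hsD' : s < D / k := by rw [lt_div_iff₀ hkR]; linarith
  have hst : s < t := by linarith
  have htD : k * t < D := by
    have : t < D / k := by linarith
    rw [lt_div_iff₀ hkR] at this; linarith
  set δ := η / 4 with hδ
  have hδ0 : 0 < δ := by positivity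
  set γ := η / 4 * δ ^ k with hγ
  have hγ0 : 0 < γ := by positivity
  have hts : 0 < t - s := by linarith
  obtain ⟨N₁, hN₁⟩ := rank_asymp hk hD (lt_of_le_of_lt hs0 hst) htD
    (show 0 < γ * (t - s) / 2 by positivity)
  obtain ⟨N₂, hN₂⟩ := exists_nat_gt (2 / (γ * (t - s)))
  refine ⟨max N₁ N₂, fun F _ c hc ι _ _ hN m hm => ?_⟩
  have h1 := hN₁ F c hc ι Finset.univ (le_trans (le_max_left _ _) hN)
  rw [Finset.card_univ] at h1
  set N := Fintype.card ι with hNdef
  have hN2 : (N₂ : ℝ) ≤ N := by exact_mod_cast le_trans (le_max_right _ _) hN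
  have hN3 : 2 / (γ * (t - s)) < N := lt_of_lt_of_le hN₂ hN2
  have hN0 : (0:ℝ) < N := lt_trans (by positivity) hN3
  have hne : (Finset.univ : Finset ι).Nonempty := by
    rw [← Finset.card_pos, Finset.card_univ]; exact_mod_cast hN0
  have hT := mk_Top c hne
  have hP : Mk (Pone F ι) := mk_op hne _
  have h2 : t * N < (⌊t * N⌋₊ + 1 : ℕ) := by push_cast; exact Nat.lt_floor_add_one _
  have hmle : m ≤ ⌊t * N⌋₊ + 1 := by
    have : (m : ℝ) ≤ (⌊t * N⌋₊ + 1 : ℕ) := by nlinarith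
    exact_mod_cast this
  obtain ⟨τ, hτ⟩ := Nat.exists_eq_add_of_le hmle
  rw [hτ] at h1 h2
  have hB : Mk (Top c Finset.univ ^ m * Pone F ι) := (hT.pow m).mul hP
  set B := Top c (Finset.univ : Finset ι) ^ m * Pone F ι with hBdef
  have a1 : (Top c (Finset.univ : Finset ι) ^ (m + τ)) rk ⊥
      ≤ B ((Top c Finset.univ ^ τ) rk) ⊥ := by
    rw [pow_add, Module.End.mul_apply]
    exact (hT.pow m).le (fun Y => hP.infl _ ((hT.pow τ).mono _ rk_mono) Y) ⊥
  have a2 : B ((Top c Finset.univ ^ τ) rk) ⊥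
      ≤ B (fun Y => 1 * rk Y + (-(τ:ℝ)) * al Finset.univ Y ^ k + τ) ⊥ :=
    hB.le (fun Y => by linarith [Top_pow_rk_le c hne τ Y]) ⊥
  rw [hB.affine] at a2
  have a3 : B rk ⊥ ≤ m + 1 := by
    have b1 : ∀ Y, Pone F ι rk Y ≤ rk Y + 1 := fun Y =>
      Finset.expect_le hne fun w _ => by
        linarith [rk_sup_le Y (Submodule.span F {ev F w}), rk_span_le (ev F w)]
    have b2 := (hT.pow m).le b1 ⊥
    rw [(hT.pow m).add_const] at b2
    have b3 := iter_le hT hT.pos (c := 1) (fun Y _ => Top_le_lip c hne rk_lip Y) m ⊥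
      (Set.mem_univ _)
    rw [rk_bot] at b3
    have : B rk ⊥ = (Top c Finset.univ ^ m) (Pone F ι rk) ⊥ := rfl
    linarith
  set A := B (fun Y => al Finset.univ Y ^ k) ⊥ with hA
  have hτR : (t - s) * N ≤ τ := by push_cast at h2; nlinarith
  have a4 : A ≤ γ := by
    push_cast at h1
    have b1 : τ * A ≤ γ * (t - s) / 2 * N + 1 := by linarith
    rw [div_lt_iff₀ (by positivity)] at hN3
    have b2 : τ * A ≤ τ * γ := by nlinarith
    have : (0:ℝ) < τ := lt_of_lt_of_le (by positivity) hτR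
    exact le_of_mul_le_mul_left b2 this
  have a5 : B (al Finset.univ) ⊥ ≤ 1 / δ ^ k * A + δ := by
    rw [hA, ← hB.const_mul, ← hB.add_const]
    refine hB.le (fun Y => ?_) ⊥
    have hal := al_bounds hne Y
    rcases le_total (al Finset.univ Y) δ with h | h
    · have : 0 ≤ 1 / δ ^ k * al Finset.univ Y ^ k := by have := hal.1; positivity
      linarith
    · have : 1 ≤ 1 / δ ^ k * al Finset.univ Y ^ k := by
        rw [one_div_mul_eq_div, one_le_div (by positivity)]
        exact pow_le_pow_left₀ hδ0.le h k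
      linarith [hal.2]
  have a6 : (Top c (Finset.univ : Finset ι) ^ m) be ⊥ ≤ 2 * B (al Finset.univ) ⊥ := by
    have := (hT.pow m).le (fun Y => be_le Y) ⊥
    rw [(hT.pow m).const_mul] at this
    exact this
  have a7 : 1 / δ ^ k * A ≤ η / 4 := by
    calc 1 / δ ^ k * A ≤ 1 / δ ^ k * γ := by gcongr
      _ = η / 4 := by rw [hγ]; field_simp
  linarith

section subgauss
variable {Ω : Type*} [Fintype Ω] [DecidableEq Ω] [Nonempty Ω]

lemma mgf_le (g : Ω → ℝ) (h0 : ∑ y, g y = 0) (h1 : ∀ y, |g y| ≤ 1) (θ : ℝ) :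
    𝔼 x : ι → Ω, Real.exp (θ * ∑ i, g (x i))
      ≤ Real.exp (Fintype.card ι * (θ ^ 2 / 2)) := by
  have e := expect_prod (κ := ι) (Finset.univ : Finset Ω) (fun _ y => Real.exp (θ * g y))
  rw [Fintype.piFinset_univ] at e
  simp only [Finset.mul_sum, Real.exp_sum]
  rw [e, Finset.prod_const, Finset.card_univ, Real.exp_nat_mul]
  refine pow_le_pow_left₀ (Finset.expect_nonneg fun _ _ => (Real.exp_pos _).le) ?_ _
  refine le_trans ?_ (Real.cosh_le_exp_half_sq θ)
  have : 𝔼 y : Ω, Real.exp (θ * g y) ≤ 𝔼 y : Ω, (Real.cosh θ + Real.sinh θ * g y) := by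
    refine Finset.expect_le_expect fun y _ => ?_
    have hb := abs_le.mp (h1 y)
    have := convexOn_exp.2 (Set.mem_univ θ) (Set.mem_univ (-θ))
      (show 0 ≤ (1 + g y) / 2 by linarith) (show 0 ≤ (1 - g y) / 2 by linarith) (by ring)
    simp only [smul_eq_mul] at this
    have e1 : (1 + g y) / 2 * θ + (1 - g y) / 2 * -θ = θ * g y := by ring
    rw [e1] at this
    rw [Real.cosh_eq, Real.sinh_eq]
    linarith
  rw [Finset.expect_add_distrib, Finset.expect_const Finset.univ_nonempty, ← Finset.mul_expect,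
    Finset.expect_eq_sum_div_card _ g, h0] at this
  simpa using this

lemma geom_bound (n : ℕ) :
    ∑ j ∈ range n, Real.exp (-(1 / 2)) ^ j ≤ 1 / (1 - Real.exp (-(1 / 2))) := by
  have h1 : Real.exp (-(1 / 2)) < 1 := Real.exp_lt_one_iff.mpr (by norm_num)
  have := geom_sum_Ico_le_of_lt_one (m := 0) (n := n) (Real.exp_pos (-(1 / 2))).le h1
  rw [pow_zero, ← Finset.range_eq_Ico] at this
  exact this

/-- an absolute constant -/
noncomputable def Csg : ℝ := 2 * Real.exp 2 * (1 / (1 - Real.exp (-(1 / 2))))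

lemma Csg_pos : 0 < Csg := by
  have h1 : Real.exp (-(1 / 2)) < 1 := Real.exp_lt_one_iff.mpr (by norm_num)
  have : 0 < 1 - Real.exp (-(1 / 2)) := by linarith
  unfold Csg; positivity

lemma subgauss [Nonempty ι] (g : Ω → ℝ) (h0 : ∑ y, g y = 0) (h1 : ∀ y, |g y| ≤ 1) :
    𝔼 x : ι → Ω, Real.exp ((∑ i, g (x i)) ^ 2 / (4 * Fintype.card ι)) ≤ Csg := by
  set N := Fintype.card ι with hN
  have hN1 : (1:ℝ) ≤ N := by exact_mod_cast Fintype.card_pos
  set s := Real.sqrt N with hs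
  have hs1 : 1 ≤ s := by rw [hs]; exact Real.one_le_sqrt.mpr hN1
  have hss : s ^ 2 = N := Real.sq_sqrt (by linarith)
  have pt : ∀ x : ι → Ω, Real.exp ((∑ i, g (x i)) ^ 2 / (4 * N))
      ≤ ∑ j ∈ range (N + 1), Real.exp 2 * Real.exp (-(1 / 2)) ^ j * Real.exp (-((j:ℝ) ^ 2 / 2)) *
        (Real.exp (j / s * ∑ i, g (x i)) + Real.exp (-(j / s) * ∑ i, g (x i))) := by
    intro x
    set Y := ∑ i, g (x i) with hY
    have hYN : |Y| ≤ N := by
      calc |Y| ≤ ∑ i, |g (x i)| := Finset.abs_sum_le_sum_abs _ _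
        _ ≤ ∑ _i : ι, (1:ℝ) := Finset.sum_le_sum fun i _ => h1 _
        _ = N := by simp [hN]
    have hz0 : 0 ≤ |Y| / s := by positivity
    set j := ⌊|Y| / s⌋₊ with hj
    have j1 : (j : ℝ) ≤ |Y| / s := Nat.floor_le hz0
    have j2 : |Y| / s < j + 1 := Nat.lt_floor_add_one _
    have j3 : j ∈ range (N + 1) := by
      rw [Finset.mem_range, Nat.lt_succ_iff]
      have : |Y| / s ≤ N := le_trans (div_le_self (abs_nonneg _) hs1) hYN
      exact_mod_cast j1.trans this
    refine le_trans ?_ (Finset.single_le_sum (f := fun j : ℕ => Real.exp 2 *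
      Real.exp (-(1 / 2)) ^ j * Real.exp (-((j:ℝ) ^ 2 / 2)) *
        (Real.exp (j / s * Y) + Real.exp (-(j / s) * Y))) (fun _ _ => by positivity) j3)
    have b1 : Real.exp (j / s * |Y|) ≤ Real.exp (j / s * Y) + Real.exp (-(j / s) * Y) := by
      rcases abs_cases Y with h | h
      · rw [h.1]; linarith [Real.exp_pos (-(j / s) * Y)]
      · rw [h.1, mul_neg, ← neg_mul]; linarith [Real.exp_pos (j / s * Y)]
    refine le_trans ?_ (mul_le_mul_of_nonneg_left b1 (by positivity))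
    rw [← Real.exp_nat_mul, ← Real.exp_add, ← Real.exp_add, ← Real.exp_add]
    refine Real.exp_le_exp.mpr ?_
    have e1 : Y ^ 2 / (4 * N) = (|Y| / s) ^ 2 / 4 := by
      rw [div_pow, sq_abs, hss]; ring
    have e2 : j / s * |Y| = j * (|Y| / s) := by ring
    rw [e1, e2]
    have j0 : (0:ℝ) ≤ j := Nat.cast_nonneg _
    nlinarith [mul_le_mul_of_nonneg_left j1 j0, sq_nonneg ((j:ℝ) - 2)]
  refine le_trans (Finset.expect_le_expect fun x _ => pt x) ?_
  rw [Finset.expect_sum_comm]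
  have : ∀ j ∈ range (N + 1), 𝔼 x : ι → Ω, (Real.exp 2 * Real.exp (-(1 / 2)) ^ j *
      Real.exp (-((j:ℝ) ^ 2 / 2)) *
        (Real.exp (j / s * ∑ i, g (x i)) + Real.exp (-(j / s) * ∑ i, g (x i))))
      ≤ 2 * Real.exp 2 * Real.exp (-(1 / 2)) ^ j := by
    intro j _
    rw [← Finset.mul_expect, Finset.expect_add_distrib]
    have m1 := mgf_le (ι := ι) g h0 h1 (j / s)
    have m2 := mgf_le (ι := ι) g h0 h1 (-(j / s))
    have e1 : (N : ℝ) * ((j / s) ^ 2 / 2) = (j:ℝ) ^ 2 / 2 := by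
      rw [div_pow, hss]; field_simp
    rw [neg_sq] at m2
    rw [← hN, e1] at m1 m2
    have e2 : Real.exp (-((j:ℝ) ^ 2 / 2)) * Real.exp ((j:ℝ) ^ 2 / 2) = 1 := by
      rw [← Real.exp_add]; simp
    calc _ ≤ Real.exp 2 * Real.exp (-(1 / 2)) ^ j * Real.exp (-((j:ℝ) ^ 2 / 2)) *
          (Real.exp ((j:ℝ) ^ 2 / 2) + Real.exp ((j:ℝ) ^ 2 / 2)) := by gcongr
      _ = 2 * Real.exp 2 * Real.exp (-(1 / 2)) ^ j *
          (Real.exp (-((j:ℝ) ^ 2 / 2)) * Real.exp ((j:ℝ) ^ 2 / 2)) := by ring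
      _ = _ := by rw [e2, mul_one]
  refine le_trans (Finset.sum_le_sum this) ?_
  rw [← Finset.mul_sum]
  unfold Csg
  gcongr
  exact geom_bound _

lemma exp_sum_le {κ : Type*} (s : Finset κ) (w : κ → ℝ) (hw : ∀ i ∈ s, 0 ≤ w i) {l : ℝ}
    (hl : 0 ≤ l) (hl' : l * s.card ≤ 1 / 8) :
    Real.exp (l * ∑ i ∈ s, w i) ≤ 1 + 8 * (l * s.card) * ∑ i ∈ s, Real.exp (w i / 4) := by
  rcases s.eq_empty_or_nonempty with rfl | hs
  · simp
  obtain ⟨i, hi, hmax⟩ := s.exists_max_image w hs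
  have h1 : ∑ j ∈ s, w j ≤ s.card * w i := by
    have := Finset.sum_le_card_nsmul s w (w i) hmax
    rwa [nsmul_eq_mul] at this
  set l' := l * s.card with hl'def
  have hl0 : 0 ≤ l' := by positivity
  have hwi := hw i hi
  have h2 : Real.exp (l * ∑ j ∈ s, w j) ≤ Real.exp (l' * w i) :=
    Real.exp_le_exp.mpr (by rw [hl'def, mul_assoc]; gcongr)
  have h3 : Real.exp (l' * w i) ≤ 1 + l' * w i * Real.exp (l' * w i) := by
    have := Real.add_one_le_exp (-(l' * w i))
    have e : Real.exp (-(l' * w i)) * Real.exp (l' * w i) = 1 := by rw [← Real.exp_add]; simp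
    nlinarith [Real.exp_pos (l' * w i)]
  have h4 : Real.exp (l' * w i) ≤ Real.exp (w i / 8) := Real.exp_le_exp.mpr (by nlinarith)
  have h5 : w i ≤ 8 * Real.exp (w i / 8) := by linarith [Real.add_one_le_exp (w i / 8)]
  have h6 : Real.exp (w i / 8) * Real.exp (w i / 8) = Real.exp (w i / 4) := by
    rw [← Real.exp_add]; congr 1; ring
  have h7 : Real.exp (w i / 4) ≤ ∑ j ∈ s, Real.exp (w j / 4) :=
    Finset.single_le_sum (f := fun j => Real.exp (w j / 4)) (fun _ _ => (Real.exp_pos _).le) hi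
  have h8 : w i * Real.exp (l' * w i) ≤ 8 * Real.exp (w i / 8) * Real.exp (w i / 8) := by
    gcongr
  calc _ ≤ 1 + l' * (w i * Real.exp (l' * w i)) := by linarith [mul_assoc l' (w i) (Real.exp (l' * w i))]
    _ ≤ 1 + l' * (8 * ∑ j ∈ s, Real.exp (w j / 4)) := by
        have : w i * Real.exp (l' * w i) ≤ 8 * ∑ j ∈ s, Real.exp (w j / 4) := by
          linarith [mul_assoc 8 (Real.exp (w i / 8)) (Real.exp (w i / 8))]
        linarith [mul_le_mul_of_nonneg_left this hl0]
    _ = _ := by ring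

end subgauss

end Pool.Agent.H886Z.UE
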