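import Pool.Agent.H886Z.UE.Step

/-! The asymptotic rank of the random matrix below the threshold. -/

open Finset Module
open scoped BigOperators

namespace Pool.Agent.H886Z.UE

variable {F : Type*} [Field F] {ι : Type*} [Fintype ι] [DecidableEq ι] {k : ℕ}

/-- the variational inequality below `D` -/
def PhiOK (k : ℕ) (D : ℝ) : Prop :=
  ∀ d : ℝ, 0 ≤ d → d < D → ∀ x : ℝ, 0 ≤ x → x ≤ 1 →
    0 ≤ 1 - Real.exp (-(d * x ^ (k - 1))) - d * x ^ (k - 1) + d * (1 - 1 / k) * x ^ k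

lemma PhiOK.le {D : ℝ} (h : PhiOK k D) (hk : 0 < k) : D ≤ k := by
  by_contra hD
  push Not at hD
  have hk' : (0:ℝ) < k := by exact_mod_cast hk
  have := h k hk'.le hD 1 zero_le_one le_rfl
  simp only [one_pow, mul_one] at this
  have e : (k:ℝ) * (1 - 1 / k) = k - 1 := by field_simp
  rw [e] at this
  linarith [Real.exp_pos (-(k:ℝ))]

/-- expected rank with `θ` blocks of pins -/
noncomputable def GG (c : Fin k → F) (S : Finset ι) (m θ : ℕ) : ℝ :=
  (Qop F k S ^ θ) ((Top c S ^ m) rk) ⊥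

lemma bot_mem_Ua (a : ι) : (⊥ : Submodule F (ι → F)) ∈ Ua F a := by
  intro w hw
  rw [(Submodule.mem_bot F).mp hw]; rfl

lemma p1_le {k n : ℕ} (hk : 0 < k) (hn : 0 < n) : p1 k n ≤ k / ((n : ℝ) + 1) := by
  rw [p1_eq' hk hn]
  have : (0:ℝ) ≤ k / ((n : ℝ) + 1) := by positivity
  nlinarith [p0_le (k - 1) n]

lemma GG_insert (c : Fin k → F) {S : Finset ι} (hS : S.Nonempty) (hk : 0 < k) {a : ι}
    (ha : a ∉ S) (μ θ : ℕ) :
    (Qop F k S ^ θ) ((Tmix c S a ^ μ) rk) ⊥ - θ * (k * (k / ((S.card : ℝ) + 1)))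
      - μ * (k / ((S.card : ℝ) + 1)) ^ 2 ≤ GG c (insert a S) μ θ := by
  have hS' := Finset.insert_nonempty a S
  have hp0 : 0 ≤ p1 k S.card := p1_nonneg _ _
  have hp1 : p1 k S.card ≤ 1 := by linarith [p01_le hS hk ha, p0_nonneg k S.card]
  have hU : ((Finset.univ : Finset (Fin k)) ×ˢ tup k S).Nonempty :=
    Finset.Nonempty.product ⟨⟨0, hk⟩, Finset.mem_univ _⟩ (tup_nonempty hS)
  have hmix : ∀ f ∈ Lip F ι, Tmix c S a f ∈ Lip F ι :=
    lip_comb (fun f hf => lip_op (tup_nonempty hS) _ hf) (fun f hf => lip_op hU _ hf) hp0 hp1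
  have hmk : Mk (Tmix c S a) := (mk_Top c hS).comb (mk_Tnew c hS hk a) hp0 hp1
  have h1 := pow_ge_pow (mk_Top c hS') hmk (Lip F ι) hmix
    (fun f hf W => Top_insert c hS hk ha hf W) μ rk rk_lip
  have h2 := pow_ge_pow (mk_Qop (F := F) (k := k) hS') (mk_Qop hS) (Lip F ι)
    (fun f hf => lip_op (tup_nonempty hS) _ hf)
    (fun f hf W => Qop_insert hS hk ha hf W) θ _ (lip_pow hmix μ rk rk_lip) ⊥
  have h3 := ((mk_Qop (F := F) (k := k) hS').pow θ).le
    (f := fun Y => (Tmix c S a ^ μ) rk Y + (-(μ * (k / ((S.card : ℝ) + 1)) ^ 2)))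
    (g := (Top c (insert a S) ^ μ) rk) (fun Y => by linarith [h1 Y]) ⊥
  rw [((mk_Qop (F := F) (k := k) hS').pow θ).add_const] at h3
  unfold GG
  linarith

lemma step_theta (c : Fin k → F) (hc : ∀ j, c j ≠ 0) {S : Finset ι} (hS : S.Nonempty)
    (hk : 0 < k) {a : ι} (ha : a ∉ S) {D t : ℝ} (hD : PhiOK k D) (ht0 : 0 ≤ t) (ht1 : t ≤ 1)
    (m₀ L θ : ℕ) (hm : (k : ℝ) * (m₀ + L : ℕ) < D * S.card)
    (hm' : t * S.card ≤ (m₀ + L : ℕ) + 1) :
    GG c S (m₀ + L) θ + t - (Real.exp (5 * k) / 2 ^ L + (2 * k + 1 + θ * k ^ 2 + k ^ 2) / S.card)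
      - (L + 1) * k * (Qop F k S ^ θ * Top c S ^ m₀) (Dl F k a S (L + 1)) ⊥
      ≤ (1 - t) * GG c (insert a S) (m₀ + L) θ + t * GG c (insert a S) (m₀ + L + 1) θ := by
  set n := S.card with hn
  have hn0 : 0 < n := Finset.card_pos.mpr hS
  have hnR : (0:ℝ) < n := by exact_mod_cast hn0
  have hkR : (0:ℝ) < k := by exact_mod_cast hk
  set p := p1 k n with hp
  have hp0 : 0 ≤ p := p1_nonneg _ _
  have hp1 : p ≤ 1 := by linarith [p01_le hS hk ha, p0_nonneg k n]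
  have hpk : p ≤ k / ((n : ℝ) + 1) := p1_le hk hn0
  have hDk := hD.le hk
  set m := m₀ + L with hmdef
  have hmn : (m : ℝ) < n := by
    have : (k : ℝ) * m < k * n := lt_of_lt_of_le hm (mul_le_mul_of_nonneg_right hDk hnR.le)
    exact lt_of_mul_lt_mul_left this hkR.le
  have hx : k / ((n : ℝ) + 1) ≤ k / n := by gcongr; linarith
  have hQ := (mk_Qop (F := F) (k := k) hS).pow θ
  have hT := mk_Top c hS
  have hB : Mk (Qop F k S ^ θ * Top c S ^ m₀) := hQ.mul (hT.pow m₀)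
  set B := Qop F k S ^ θ * Top c S ^ m₀ with hBdef
  set d : ℝ := m * p with hd
  -- lower functions
  set g : ℕ → Submodule F (ι → F) → ℝ := fun L' Y =>
    rk Y + (L' - (m₀ + L' : ℕ) * p) * (1 - al S Y ^ k)
        + (m₀ + L' : ℕ) * p * (1 - al S Y ^ (k - 1)) + 1
        - (1 - p * al S Y ^ (k - 1)) ^ (m₀ + L') - L' * k * Dl F k a S L' Y with hg
  have low : ∀ L' : ℕ, L ≤ L' → L' ≤ L + 1 →
      B (g L') ⊥ - (Real.exp (5 * k) / 2 ^ L + (θ * k ^ 2 + k ^ 2) / n)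
        ≤ GG c (insert a S) (m₀ + L') θ := by
    intro L' h1 h2
    have e1 := GG_insert c hS hk ha (m₀ + L') θ
    have hμ : ((m₀ + L' : ℕ) : ℝ) ≤ n + 1 := by
      have : ((m₀ + L' : ℕ) : ℝ) ≤ m + 1 := by rw [hmdef]; exact_mod_cast (by omega)
      linarith
    have hμp : ((m₀ + L' : ℕ) : ℝ) * p ≤ k := by
      calc ((m₀ + L' : ℕ) : ℝ) * p ≤ (n + 1) * (k / ((n : ℝ) + 1)) := by gcongr
        _ = k := by field_simp
    have e2 := (posOn_Qop (F := F) (k := k) a ha).pow θ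
      (fun W => (Top c S ^ m₀) (g L') W + (-(Real.exp (5 * k) / 2 ^ L)))
      ((Tmix c S a ^ (m₀ + L')) rk) (fun W hW => by
        have := Tmix_pow_ge c hc hS hk ha m₀ L' hW
        have b : Real.exp (5 * ((m₀ + L' : ℕ) * p)) / 2 ^ L' ≤ Real.exp (5 * k) / 2 ^ L := by
          gcongr
          norm_num
        simp only [hg]
        linarith) ⊥ (bot_mem_Ua a)
    rw [hQ.add_const] at e2
    have e3 : B (g L') ⊥ = (Qop F k S ^ θ) ((Top c S ^ m₀) (g L')) ⊥ := rfl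
    have e4 : (θ : ℝ) * (k * (k / ((n : ℝ) + 1))) ≤ θ * k ^ 2 / n := by
      calc (θ : ℝ) * (k * (k / ((n : ℝ) + 1))) ≤ θ * (k * (k / n)) := by gcongr
        _ = θ * k ^ 2 / n := by ring
    have e5 : ((m₀ + L' : ℕ) : ℝ) * (k / ((n : ℝ) + 1)) ^ 2 ≤ k ^ 2 / n := by
      calc ((m₀ + L' : ℕ) : ℝ) * (k / ((n : ℝ) + 1)) ^ 2
          ≤ (n + 1) * (k / ((n : ℝ) + 1)) ^ 2 := by gcongr
        _ = k * (k / ((n : ℝ) + 1)) := by field_simp
        _ ≤ k * (k / n) := by gcongr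
        _ = k ^ 2 / n := by ring
    rw [add_div]
    linarith
  have l0 := low L le_rfl (Nat.le_succ L)
  have l1 := low (L + 1) (Nat.le_succ L) le_rfl
  have up : GG c S m θ ≤ B (fun Y => rk Y + L * (1 - al S Y ^ k)) ⊥ := by
    unfold GG
    rw [hmdef, pow_add, Module.End.mul_apply]
    exact hB.le (fun Y => Top_pow_rk_le c hS L Y) ⊥
  have hd0 : 0 ≤ d := by positivity
  have hdD : d < D := by
    have : d ≤ m * (k / n) := by rw [hd]; gcongr; exact hpk.trans hx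
    have h2 : (m : ℝ) * (k / n) = k * m / n := by ring
    rw [h2] at this
    exact lt_of_le_of_lt this ((div_lt_iff₀ hnR).mpr hm)
  have hdk : t - (k + 1) / n ≤ d / k := by
    have e : d / k = m / n * p0 k n := by rw [hd, hp, p1_eq k n hn0]; field_simp
    have h1 : t - 1 / n ≤ m / n := by
      rw [le_div_iff₀ hnR]; field_simp; linarith
    have h2 := p0_ge k n
    have h3 := p0_le k n
    have h4 : (m : ℝ) / n ≤ 1 := by rw [div_le_one hnR]; exact hmn.le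
    have h5 : (0:ℝ) ≤ m / n := by positivity
    rw [e, add_div]
    nlinarith
  have pt : ∀ Y, 1 * (rk Y + L * (1 - al S Y ^ k)) + (-((L + 1) * k : ℝ)) * Dl F k a S (L + 1) Y
      + (t - (2 * k + 1) / n) ≤ (1 - t) * g L Y + t * g (L + 1) Y + 0 := by
    intro Y
    have hal := al_bounds hS Y
    set x := al S Y
    have b1 : x ^ k ≤ 1 := pow_le_one₀ hal.1 hal.2
    have b1' : 0 ≤ x ^ k := pow_nonneg hal.1 _
    have b2 : x ^ (k - 1) ≤ 1 := pow_le_one₀ hal.1 hal.2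
    have b3 : 0 ≤ x ^ (k - 1) := pow_nonneg hal.1 _
    have b4 : 0 ≤ 1 - p * x ^ (k - 1) := by nlinarith
    have b5 : (1 - p * x ^ (k - 1)) ^ m ≤ Real.exp (-(d * x ^ (k - 1))) := by
      have : -(d * x ^ (k - 1)) = m * (-(p * x ^ (k - 1))) := by rw [hd]; ring
      rw [this, Real.exp_nat_mul]
      exact pow_le_pow_left₀ b4 (by linarith [Real.add_one_le_exp (-(p * x ^ (k - 1)))]) m
    have b6 : (1 - p * x ^ (k - 1)) ^ (m + 1) ≤ (1 - p * x ^ (k - 1)) ^ m :=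
      pow_le_pow_of_le_one b4 (by nlinarith) (Nat.le_succ m)
    have b7 := hD d hd0 hdD x hal.1 hal.2
    have b8 := Dl_mono (F := F) (k := k) a hS (Nat.le_succ L) Y
    have b9 := Dl_nonneg (F := F) (k := k) a hS L Y
    have g0 : rk Y + L * (1 - x ^ k) + d * x ^ k - d * x ^ (k - 1) + 1
        - Real.exp (-(d * x ^ (k - 1))) - (L + 1) * k * Dl F k a S (L + 1) Y ≤ g L Y := by
      simp only [hg, ← hmdef, ← hd]
      have : (L : ℝ) * k * Dl F k a S L Y ≤ (L + 1) * k * Dl F k a S (L + 1) Y := by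
        gcongr; linarith
      nlinarith
    have g1 : rk Y + (L + 1) * (1 - x ^ k) + d * x ^ k - d * x ^ (k - 1) + 1 - p
        - Real.exp (-(d * x ^ (k - 1))) - (L + 1) * k * Dl F k a S (L + 1) Y ≤ g (L + 1) Y := by
      simp only [hg, ← add_assoc, ← hmdef]
      push_cast
      have e : ((m : ℝ) + 1) * p = d + p := by rw [hd]; ring
      rw [e]
      nlinarith [mul_nonneg hp0 b1', mul_le_mul_of_nonneg_left b2 hp0]
    have e1 : d * (1 - 1 / k) * x ^ k = d * x ^ k - d / k * x ^ k := by ring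
    have e2 : (2 * k + 1 : ℝ) / n = k / n + (k + 1) / n := by ring
    have b10 : (t - (k + 1) / n) * x ^ k ≤ d / k * x ^ k := mul_le_mul_of_nonneg_right hdk b1'
    have b11 : (0:ℝ) ≤ (k + 1) / n := by positivity
    have b12 : t * p ≤ k / n := by nlinarith
    nlinarith [mul_le_mul_of_nonneg_left g0 (by linarith : 0 ≤ 1 - t),
      mul_le_mul_of_nonneg_left g1 ht0, mul_le_mul_of_nonneg_left b1 b11]
  have fin := hB.le pt ⊥
  rw [hB.affine, hB.affine] at fin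
  have e6 : (2 * k + 1 + θ * k ^ 2 + k ^ 2 : ℝ) / n = (2 * k + 1) / n + (θ * k ^ 2 + k ^ 2) / n := by
    ring
  rw [e6]
  rw [← add_assoc, ← hmdef] at l1
  nlinarith [mul_le_mul_of_nonneg_left l0 (by linarith : 0 ≤ 1 - t),
    mul_le_mul_of_nonneg_left l1 ht0]

/-- expected rank with a random number of pins -/
noncomputable def GA (c : Fin k → F) (Θ : ℕ) (S : Finset ι) (m : ℕ) : ℝ :=
  𝔼 θ ∈ range Θ, GG c S m θ

lemma step_avg (c : Fin k → F) (hc : ∀ j, c j ≠ 0) {S : Finset ι} (hS : S.Nonempty)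
    (hk : 0 < k) {a : ι} (ha : a ∉ S) {D t : ℝ} (hD : PhiOK k D) (ht0 : 0 ≤ t) (ht1 : t ≤ 1)
    {m L Θ : ℕ} (hΘ : 0 < Θ) (hL : L ≤ m) (hm : (k : ℝ) * m < D * S.card)
    (hm' : t * S.card ≤ m + 1) :
    GA c Θ S m + t - (Real.exp (5 * k) / 2 ^ L + (2 * k + 1 + Θ * k ^ 2 + k ^ 2) / S.card
      + (L + 1) ^ 2 * k / Θ)
      ≤ (1 - t) * GA c Θ (insert a S) m + t * GA c Θ (insert a S) (m + 1) := by
  obtain ⟨m₀, rfl⟩ := Nat.exists_eq_add_of_le' hL
  have hR : (range Θ).Nonempty := Finset.nonempty_range_iff.mpr hΘ.ne'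
  have hΘR : (0:ℝ) < Θ := by exact_mod_cast hΘ
  have hnR : (0:ℝ) < S.card := by exact_mod_cast Finset.card_pos.mpr hS
  set A : ℕ → ℝ := fun θ => (Qop F k S ^ θ) ((Top c S ^ m₀) (alp a S)) ⊥ with hA
  have hAb : ∀ θ, 0 ≤ A θ ∧ A θ ≤ 1 := fun θ =>
    (((mk_Qop hS).pow θ).mul ((mk_Top c hS).pow m₀)).bounds (fun W => al_bounds hS _) ⊥
  have hDl : ∀ θ, (Qop F k S ^ θ * Top c S ^ m₀) (Dl F k a S (L + 1)) ⊥
      = A (θ + (L + 1)) - A θ := by
    intro θ
    have e : Dl F k a S (L + 1) = (Qop F k S ^ (L + 1)) (alp a S) - alp a S := rfl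
    have hcomm : Commute (Top c S ^ m₀) (Qop F k S ^ (L + 1)) :=
      (show Commute (Top c S) (Qop F k S) from op_comm _ _ _ _).pow_pow _ _
    rw [e, map_sub, Pi.sub_apply, ← Module.End.mul_apply, mul_assoc, hcomm.eq, ← mul_assoc,
      ← pow_add]
    rfl
  have hsum := sum_shift_le A hAb Θ (L + 1)
  have hE : 𝔼 θ ∈ range Θ, (A (θ + (L + 1)) - A θ) ≤ (L + 1) / Θ := by
    rw [Finset.expect_eq_sum_div_card, Finset.card_range]
    push_cast at hsum
    gcongr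
  have := Finset.expect_le_expect (s := range Θ)
    (f := fun θ => GG c S (m₀ + L) θ + (t - (Real.exp (5 * k) / 2 ^ L
      + (2 * k + 1 + Θ * k ^ 2 + k ^ 2) / S.card)) - (L + 1) * k * (A (θ + (L + 1)) - A θ))
    (g := fun θ => (1 - t) * GG c (insert a S) (m₀ + L) θ + t * GG c (insert a S) (m₀ + L + 1) θ)
    (fun θ hθ => by
      have h := step_theta c hc hS hk ha hD ht0 ht1 m₀ L θ hm hm'
      rw [hDl] at h
      have : (θ : ℝ) ≤ Θ := by exact_mod_cast (Finset.mem_range.mp hθ).le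
      have b : (2 * k + 1 + θ * k ^ 2 + k ^ 2 : ℝ) / S.card
          ≤ (2 * k + 1 + Θ * k ^ 2 + k ^ 2) / S.card := by gcongr
      linarith)
  rw [Finset.expect_sub_distrib, Finset.expect_add_distrib, Finset.expect_add_distrib,
    Finset.expect_const hR, ← Finset.mul_expect, ← Finset.mul_expect, ← Finset.mul_expect] at this
  unfold GA
  have b : ((L : ℝ) + 1) * k * 𝔼 θ ∈ range Θ, (A (θ + (L + 1)) - A θ)
      ≤ (L + 1) * k * ((L + 1) / Θ) := by gcongr
  have e : ((L : ℝ) + 1) * k * ((L + 1) / Θ) = (L + 1) ^ 2 * k / Θ := by ring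
  linarith

lemma concave_seq (u : ℕ → ℝ) (h : ∀ j, u (j + 2) - u (j + 1) ≤ u (j + 1) - u j) (m j : ℕ) :
    u m ≤ u j + (m - j) * (u (j + 1) - u j) := by
  have anti : Antitone fun j => u (j + 1) - u j := antitone_nat_of_succ_le h
  rcases le_total j m with hjm | hjm
  · induction m, hjm using Nat.le_induction with
    | base => simp
    | succ m hm ih =>
      have := anti hm
      simp only at this
      push_cast
      linarith
  · induction hjm using Nat.decreasingInduction with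
    | self => simp
    | of_succ m hm ih =>
      have := anti hm.le
      simp only at this
      push_cast at ih
      linarith

lemma GG_concave (c : Fin k → F) {S : Finset ι} (hS : S.Nonempty) (θ j : ℕ) :
    GG c S (j + 2) θ - GG c S (j + 1) θ ≤ GG c S (j + 1) θ - GG c S j θ := by
  have hT := mk_Top c hS
  have hg : Antitone (Top c S rk - (rk : Submodule F (ι → F) → ℝ)) := by
    have e : ∀ W, (Top c S rk - (rk : Submodule F (ι → F) → ℝ)) W
        = 𝔼 r ∈ tup k S, ind (vec c r ∉ W) := by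
      intro W
      have : Top c S rk W = 𝔼 r ∈ tup k S, rk (W ⊔ Submodule.span F {vec c r}) := rfl
      rw [Pi.sub_apply, this]
      simp only [rk_sup_span]
      rw [Finset.expect_add_distrib, Finset.expect_const (tup_nonempty hS)]
      ring
    intro W W' h
    rw [e, e]
    exact Finset.expect_le_expect fun r _ => ind_mono fun hn hy => hn (h hy)
  have e : ∀ i, GG c S (i + 1) θ - GG c S i θ
      = (Qop F k S ^ θ) ((Top c S ^ i) (Top c S rk - rk)) ⊥ := by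
    intro i
    unfold GG
    rw [map_sub, map_sub, pow_succ, Module.End.mul_apply]; rfl
  rw [e (j + 1), e j, pow_succ', Module.End.mul_apply]
  exact ((mk_Qop hS).pow θ).le (fun Y => hT.defl ((hT.pow j).anti hg) Y) ⊥

lemma GA_concave (c : Fin k → F) (Θ : ℕ) {S : Finset ι} (hS : S.Nonempty) (m j : ℕ) :
    GA c Θ S m ≤ GA c Θ S j + (m - j) * (GA c Θ S (j + 1) - GA c Θ S j) := by
  refine concave_seq _ (fun j => ?_) m j
  unfold GA
  rw [← Finset.expect_sub_distrib, ← Finset.expect_sub_distrib]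
  exact Finset.expect_le_expect fun θ _ => GG_concave c hS θ j

lemma GA_nonneg (c : Fin k → F) (Θ : ℕ) {S : Finset ι} (hS : S.Nonempty) (m : ℕ) :
    0 ≤ GA c Θ S m :=
  Finset.expect_nonneg fun θ _ => by
    have := (((mk_Qop (k := k) hS).pow θ).mul ((mk_Top c hS).pow m)).infl _ rk_mono ⊥
    rw [rk_bot] at this
    exact this

lemma GA_le (c : Fin k → F) {Θ : ℕ} (hΘ : 0 < Θ) {S : Finset ι} (hS : S.Nonempty) {m m' : ℕ}
    (h : m ≤ m') : GA c Θ S m ≤ (Top c S ^ m') rk ⊥ + Θ * k := by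
  refine Finset.expect_le (Finset.nonempty_range_iff.mpr hΘ.ne') fun θ hθ => ?_
  have hl : (Top c S ^ m) rk ∈ Lip F ι :=
    lip_pow (fun f hf => lip_op (tup_nonempty hS) _ hf) m rk rk_lip
  have h1 := iter_le (mk_Qop (F := F) (k := k) hS) (mk_Qop hS).pos (c := k)
    (fun Y _ => Qop_le_lip hS hl Y) θ ⊥ (Set.mem_univ _)
  obtain ⟨e, rfl⟩ := Nat.exists_eq_add_of_le' h
  have h2 := ((mk_Top c hS).pow e).infl _ hl.1 ⊥
  rw [pow_add, Module.End.mul_apply]
  have : (θ : ℝ) ≤ Θ := by exact_mod_cast (Finset.mem_range.mp hθ).le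
  have : (θ : ℝ) * k ≤ Θ * k := by gcongr
  unfold GG
  linarith

/-- interpolated expected rank along the ray -/
noncomputable def HH (c : Fin k → F) (Θ : ℕ) (t : ℝ) (S : Finset ι) : ℝ :=
  GA c Θ S ⌊t * S.card⌋₊
    + (t * S.card - ⌊t * S.card⌋₊) * (GA c Θ S (⌊t * S.card⌋₊ + 1) - GA c Θ S ⌊t * S.card⌋₊)

lemma HH_ge (c : Fin k → F) (hc : ∀ j, c j ≠ 0) (hk : 0 < k) {D t e : ℝ} (hD : PhiOK k D)
    (ht0 : 0 ≤ t) (ht1 : t ≤ 1) {L Θ n₀ : ℕ} (hΘ : 0 < Θ) (hn₀ : 0 < n₀)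
    (H : ∀ n : ℕ, n₀ ≤ n → (L : ℝ) ≤ t * n ∧ (k : ℝ) * (t * n + 1) < D * n ∧
      Real.exp (5 * k) / 2 ^ L + (2 * k + 1 + Θ * k ^ 2 + k ^ 2) / n + (L + 1) ^ 2 * k / Θ ≤ e)
    (n : ℕ) (hn : n₀ ≤ n) : ∀ S : Finset ι, S.card = n → (n - n₀) * (t - e) ≤ HH c Θ t S := by
  induction n, hn using Nat.le_induction with
  | base =>
    intro S hS
    have hne : S.Nonempty := Finset.card_pos.mp (by omega)
    have h0 : 0 ≤ t * S.card := by positivity
    have h1 := Nat.floor_le h0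
    have h2 := (Nat.lt_floor_add_one (t * S.card)).le
    have a1 := GA_nonneg c Θ hne ⌊t * S.card⌋₊
    have a2 := GA_nonneg c Θ hne (⌊t * S.card⌋₊ + 1)
    unfold HH
    nlinarith [mul_nonneg (sub_nonneg.mpr h1) a2, mul_nonneg (sub_nonneg.mpr h2) a1]
  | succ n hn ih =>
    intro S' hS'
    obtain ⟨a, ha⟩ : S'.Nonempty := Finset.card_pos.mp (by omega)
    set S := S'.erase a with hS
    have hcard : S.card = n := by rw [hS, Finset.card_erase_of_mem ha, hS']; rfl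
    have hne : S.Nonempty := Finset.card_pos.mp (by omega)
    have haS : a ∉ S := Finset.notMem_erase a S'
    have hins : insert a S = S' := Finset.insert_erase ha
    obtain ⟨H1, H2, H3⟩ := H n hn
    have ih' := ih S hcard
    unfold HH at ih' ⊢
    rw [hcard] at ih'
    rw [hS']
    have h0 : 0 ≤ t * n := by positivity
    set b := ⌊t * n⌋₊ with hb
    have h1 : (b : ℝ) ≤ t * n := Nat.floor_le h0
    have h2 : t * n ≤ b + 1 := (Nat.lt_floor_add_one _).le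
    have hLb : L ≤ b := Nat.le_floor H1
    have hkR : (0:ℝ) ≤ k := Nat.cast_nonneg _
    have s0 := step_avg c hc hne hk haS hD ht0 ht1 (m := b) hΘ hLb
      (by rw [hcard]; nlinarith) (by rw [hcard]; exact h2)
    have s1 := step_avg c hc hne hk haS hD ht0 ht1 (m := b + 1) hΘ (hLb.trans (Nat.le_succ b))
      (by rw [hcard]; push_cast; nlinarith) (by rw [hcard]; push_cast; linarith)
    rw [hins, hcard] at s0 s1
    set j := ⌊t * ((n + 1 : ℕ) : ℝ)⌋₊ with hj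
    have c0 := GA_concave c Θ ⟨a, ha⟩ b j
    have c1 := GA_concave c Θ ⟨a, ha⟩ (b + 1) j
    have c2 := GA_concave c Θ ⟨a, ha⟩ (b + 1 + 1) j
    set φ := t * n - b with hφ
    have hφ0 : 0 ≤ φ := by linarith
    have hφ1 : 0 ≤ 1 - φ := by linarith
    have ht' : 0 ≤ 1 - t := by linarith
    set u := GA c Θ S' j
    set v := GA c Θ S' (j + 1) - u
    have ee : t * ((n + 1 : ℕ) : ℝ) - j = φ + t + b - j := by rw [hφ]; push_cast; ring
    rw [ee]
    push_cast at c1 c2 ⊢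
    have t0 : (1 - t) * GA c Θ S' b + t * GA c Θ S' (b + 1) ≤ u + (b + t - j) * v := by
      nlinarith [mul_le_mul_of_nonneg_left c0 ht', mul_le_mul_of_nonneg_left c1 ht0]
    have t1 : (1 - t) * GA c Θ S' (b + 1) + t * GA c Θ S' (b + 1 + 1)
        ≤ u + (b + 1 + t - j) * v := by
      nlinarith [mul_le_mul_of_nonneg_left c1 ht', mul_le_mul_of_nonneg_left c2 ht0]
    have r0 : GA c Θ S b + t - e ≤ u + (b + t - j) * v := by linarith
    have r1 : GA c Θ S (b + 1) + t - e ≤ u + (b + 1 + t - j) * v := by linarith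
    nlinarith [mul_le_mul_of_nonneg_left r0 hφ1, mul_le_mul_of_nonneg_left r1 hφ0]

/-- asymptotic rank: the deficiency is `o(n)` -/
theorem rank_asymp (hk : 0 < k) {D t η : ℝ} (hD : PhiOK k D) (ht0 : 0 < t) (htD : k * t < D)
    (hη : 0 < η) : ∃ N₁ : ℕ, ∀ (F : Type) [Field F] (c : Fin k → F) (_ : ∀ j, c j ≠ 0)
      (ι : Type) [Fintype ι] [DecidableEq ι] (S : Finset ι), N₁ ≤ S.card →
      ((⌊t * S.card⌋₊ + 1 : ℕ) : ℝ) - η * S.card ≤ (Top c S ^ (⌊t * S.card⌋₊ + 1)) rk ⊥ := by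
  have hkR : (0:ℝ) < k := by exact_mod_cast hk
  have ht1 : t ≤ 1 := by
    have := hD.le hk
    nlinarith
  obtain ⟨L, hL⟩ : ∃ L : ℕ, Real.exp (5 * k) / 2 ^ L ≤ η / 6 := by
    obtain ⟨L, hL⟩ := pow_unbounded_of_one_lt (Real.exp (5 * k) / (η / 6)) (one_lt_two (α := ℝ))
    refine ⟨L, ?_⟩
    rw [div_lt_iff₀ (by positivity)] at hL
    rw [div_le_iff₀ (by positivity)]
    linarith
  obtain ⟨Θ, hΘ0, hΘ⟩ : ∃ Θ : ℕ, 0 < Θ ∧ ((L:ℝ) + 1) ^ 2 * k / Θ ≤ η / 6 := by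
    obtain ⟨Θ, hΘ⟩ := exists_nat_gt (((L:ℝ) + 1) ^ 2 * k / (η / 6))
    have h0 : (0:ℝ) < Θ := lt_trans (by positivity) hΘ
    refine ⟨Θ, by exact_mod_cast h0, ?_⟩
    rw [div_lt_iff₀ (by positivity)] at hΘ
    rw [div_le_iff₀ h0]
    linarith
  obtain ⟨n₀, hn₀⟩ := exists_nat_gt (max (max (L / t) (k / (D - k * t)))
    ((2 * k + 1 + Θ * k ^ 2 + k ^ 2) / (η / 6)))
  have hDt : 0 < D - k * t := by linarith
  have q1 : L / t < n₀ := lt_of_le_of_lt (le_trans (le_max_left _ _) (le_max_left _ _)) hn₀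
  have q2 : k / (D - k * t) < n₀ :=
    lt_of_le_of_lt (le_trans (le_max_right _ _) (le_max_left _ _)) hn₀
  have q3 : (2 * k + 1 + Θ * k ^ 2 + k ^ 2) / (η / 6) < n₀ := lt_of_le_of_lt (le_max_right _ _) hn₀
  have hn0R : (0:ℝ) < n₀ := lt_trans (by positivity) q2
  have hn0 : 0 < n₀ := by exact_mod_cast hn0R
  have H : ∀ n : ℕ, n₀ ≤ n → (L : ℝ) ≤ t * n ∧ (k : ℝ) * (t * n + 1) < D * n ∧
      Real.exp (5 * k) / 2 ^ L + (2 * k + 1 + Θ * k ^ 2 + k ^ 2) / n + (L + 1) ^ 2 * k / Θ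
        ≤ η / 2 := by
    intro n hn
    have hn' : (n₀ : ℝ) ≤ n := by exact_mod_cast hn
    rw [div_lt_iff₀ ht0] at q1
    rw [div_lt_iff₀ hDt] at q2
    rw [div_lt_iff₀ (by positivity)] at q3
    refine ⟨by nlinarith, by nlinarith, ?_⟩
    have : (2 * k + 1 + Θ * k ^ 2 + k ^ 2 : ℝ) / n ≤ η / 6 := by
      rw [div_le_iff₀ (by linarith)]
      nlinarith
    linarith
  obtain ⟨N₁, hN₁⟩ := exists_nat_gt (max (n₀ : ℝ) ((n₀ + 1 + Θ * k) / (η / 2)))
  refine ⟨N₁, fun F _ c hc ι _ _ S hS => ?_⟩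
  have hS' : (N₁ : ℝ) ≤ S.card := by exact_mod_cast hS
  have r1 : (n₀ : ℝ) < S.card := lt_of_lt_of_le (lt_of_le_of_lt (le_max_left _ _) hN₁) hS'
  have r2 : (n₀ + 1 + Θ * k) / (η / 2) < S.card :=
    lt_of_lt_of_le (lt_of_le_of_lt (le_max_right _ _) hN₁) hS'
  rw [div_lt_iff₀ (by positivity)] at r2
  have r3 : n₀ ≤ S.card := by exact_mod_cast r1.le
  have hne : S.Nonempty := Finset.card_pos.mp (by omega)
  have main := HH_ge c hc hk hD ht0.le ht1 hΘ0 hn0 H S.card r3 S rfl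
  unfold HH at main
  have h0 : 0 ≤ t * S.card := by positivity
  set b := ⌊t * S.card⌋₊
  have h1 : (b : ℝ) ≤ t * S.card := Nat.floor_le h0
  have h2 : t * S.card ≤ b + 1 := (Nat.lt_floor_add_one _).le
  have g0 := GA_le c hΘ0 hne (Nat.le_succ b)
  have g1 := GA_le c hΘ0 hne (le_refl (b + 1))
  push_cast
  nlinarith [mul_le_mul_of_nonneg_left g0 (by linarith : 0 ≤ 1 - (t * S.card - b)),
    mul_le_mul_of_nonneg_left g1 (by linarith : 0 ≤ t * S.card - b)]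

end Pool.Agent.H886Z.UE
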