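import Pool.Agent.H886Z.UE.Local

/-! Adding one coordinate: the one-step inequality. -/

open Finset Module
open scoped BigOperators

namespace Pool.Agent.H886Z.UE

variable {F : Type*} [Field F] {ι : Type*} [Fintype ι] [DecidableEq ι] {k : ℕ}

/-- monotone functions that grow at most like the rank -/
def Lip (F : Type*) [Field F] (ι : Type*) : Set (Submodule F (ι → F) → ℝ) :=
  {f | Monotone f ∧ ∀ W Z, f (W ⊔ Z) ≤ f W + rk Z}

lemma rk_lip : (rk : Submodule F (ι → F) → ℝ) ∈ Lip F ι := ⟨rk_mono, rk_sup_le⟩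

lemma lip_op {κ : Type*} {S : Finset κ} (hS : S.Nonempty) (Z : κ → Submodule F (ι → F))
    {f : Submodule F (ι → F) → ℝ} (hf : f ∈ Lip F ι) : op S Z f ∈ Lip F ι := by
  refine ⟨(mk_op hS Z).mono f hf.1, fun W Y => ?_⟩
  rw [op_apply, op_apply, ← Finset.expect_const hS (rk Y), ← Finset.expect_add_distrib]
  refine Finset.expect_le_expect fun i _ => ?_
  rw [sup_right_comm]
  exact hf.2 _ _

lemma lip_comb {T T' : Module.End ℝ (Submodule F (ι → F) → ℝ)}
    (h : ∀ f ∈ Lip F ι, T f ∈ Lip F ι) (h' : ∀ f ∈ Lip F ι, T' f ∈ Lip F ι) {p : ℝ}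
    (h0 : 0 ≤ p) (h1 : p ≤ 1) : ∀ f ∈ Lip F ι, ((1 - p) • T + p • T') f ∈ Lip F ι := by
  intro f hf
  have a := h f hf
  have b := h' f hf
  have h2 : (0:ℝ) ≤ 1 - p := by linarith
  constructor
  · intro W W' hW
    simp only [LinearMap.add_apply, LinearMap.smul_apply, Pi.add_apply, Pi.smul_apply,
      smul_eq_mul]
    nlinarith [mul_le_mul_of_nonneg_left (a.1 hW) h2, mul_le_mul_of_nonneg_left (b.1 hW) h0]
  · intro W Z
    simp only [LinearMap.add_apply, LinearMap.smul_apply, Pi.add_apply, Pi.smul_apply,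
      smul_eq_mul]
    nlinarith [mul_le_mul_of_nonneg_left (a.2 W Z) h2, mul_le_mul_of_nonneg_left (b.2 W Z) h0]

lemma lip_pow {T : Module.End ℝ (Submodule F (ι → F) → ℝ)}
    (h : ∀ f ∈ Lip F ι, T f ∈ Lip F ι) (n : ℕ) : ∀ f ∈ Lip F ι, (T ^ n) f ∈ Lip F ι := by
  induction n with
  | zero => intro f hf; simpa using hf
  | succ n ih => intro f hf; rw [pow_succ', Module.End.mul_apply]; exact h _ (ih f hf)

lemma Top_le_lip (c : Fin k → F) {S : Finset ι} (hS : S.Nonempty)
    {f : Submodule F (ι → F) → ℝ} (hf : f ∈ Lip F ι) (W : Submodule F (ι → F)) :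
    Top c S f W ≤ f W + 1 :=
  Finset.expect_le (tup_nonempty hS) fun r _ => by
    linarith [hf.2 W (Submodule.span F {vec c r}), rk_span_le (vec c r)]

lemma Qop_le_lip {S : Finset ι} (hS : S.Nonempty)
    {f : Submodule F (ι → F) → ℝ} (hf : f ∈ Lip F ι) (W : Submodule F (ι → F)) :
    Qop F k S f W ≤ f W + k :=
  Finset.expect_le (tup_nonempty hS) fun r _ => by
    linarith [hf.2 W (pins F r), rk_pins_le (F := F) r]

lemma card_tup (S : Finset ι) : ((tup k S).card : ℝ) = (S.card : ℝ) ^ k := by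
  rw [Fintype.card_piFinset]; simp

omit [Fintype ι] in
lemma sum_insert_ge {S : Finset ι} {a : ι} (ha : a ∉ S) (h : (Fin k → ι) → ℝ)
    (h0 : ∀ r, 0 ≤ h r) :
    (S.card : ℝ) * ∑ r ∈ tup k S, h r + ∑ j : Fin k, ∑ r ∈ tup k S, h (Function.update r j a)
      ≤ S.card * ∑ r ∈ tup k (insert a S), h r := by
  set N : Fin k → Finset (Fin k → ι) := fun j =>
    Fintype.piFinset (Function.update (fun _ : Fin k => S) j {a}) with hN
  have mN : ∀ j r, r ∈ N j ↔ r j = a ∧ ∀ j', j' ≠ j → r j' ∈ S := by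
    intro j r
    simp only [hN, Fintype.mem_piFinset]
    constructor
    · intro H
      refine ⟨by simpa using H j, fun j' hj' => ?_⟩
      have := H j'
      rwa [Function.update_of_ne hj'] at this
    · rintro ⟨H1, H2⟩ j'
      by_cases e : j' = j
      · subst e; simp [H1]
      · rw [Function.update_of_ne e]; exact H2 j' e
  have e1 : ∀ j, ∑ r ∈ tup k S, h (Function.update r j a) = S.card * ∑ r ∈ N j, h r := by
    intro j
    rw [sum_update _ j a]
    simp only [Function.update_idem, Finset.sum_const, nsmul_eq_mul]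
    congr 1
    refine Finset.sum_congr rfl fun r hr => ?_
    rw [← ((mN j r).mp hr).1, Function.update_eq_self]
  simp only [e1]
  rw [← Finset.mul_sum, ← mul_add]
  refine mul_le_mul_of_nonneg_left ?_ (Nat.cast_nonneg _)
  have hd : (↑(Finset.univ : Finset (Fin k)) : Set (Fin k)).PairwiseDisjoint N := by
    intro j _ j' _ hjj
    refine Finset.disjoint_left.mpr fun r h1 h2 => ?_
    have := ((mN j' r).mp h2).2 j hjj
    rw [((mN j r).mp h1).1] at this
    exact ha this
  have hd2 : Disjoint (tup k S) (Finset.univ.biUnion N) := by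
    refine Finset.disjoint_left.mpr fun r h1 h2 => ?_
    obtain ⟨j, _, hj⟩ := Finset.mem_biUnion.mp h2
    have := Fintype.mem_piFinset.mp h1 j
    rw [((mN j r).mp hj).1] at this
    exact ha this
  rw [← Finset.sum_biUnion hd, ← Finset.sum_union hd2]
  refine Finset.sum_le_sum_of_subset_of_nonneg ?_ fun r _ _ => h0 r
  intro r hr
  refine Fintype.mem_piFinset.mpr fun j' => ?_
  rcases Finset.mem_union.mp hr with h1 | h2
  · exact Finset.mem_insert_of_mem (Fintype.mem_piFinset.mp h1 j')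
  · obtain ⟨j, _, hj⟩ := Finset.mem_biUnion.mp h2
    by_cases e : j' = j
    · subst e; rw [((mN _ r).mp hj).1]; exact Finset.mem_insert_self _ _
    · exact Finset.mem_insert_of_mem (((mN j r).mp hj).2 j' e)

/-- probability that a tuple avoids the new coordinate -/
noncomputable def p0 (k n : ℕ) : ℝ := (n : ℝ) ^ k / ((n : ℝ) + 1) ^ k

/-- probability that a tuple meets the new coordinate exactly once -/
noncomputable def p1 (k n : ℕ) : ℝ := k * (n : ℝ) ^ k / (n * ((n : ℝ) + 1) ^ k)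

lemma expect_insert_ge {S : Finset ι} (hS : S.Nonempty) (hk : 0 < k) {a : ι} (ha : a ∉ S)
    (h : (Fin k → ι) → ℝ) (h0 : ∀ r, 0 ≤ h r) :
    p0 k S.card * 𝔼 r ∈ tup k S, h r
      + p1 k S.card * 𝔼 j : Fin k, 𝔼 r ∈ tup k S, h (Function.update r j a)
      ≤ 𝔼 r ∈ tup k (insert a S), h r := by
  have := sum_insert_ge ha h h0
  have hn : (0:ℝ) < S.card := by exact_mod_cast Finset.card_pos.mpr hS
  have hk' : (0:ℝ) < k := by exact_mod_cast hk
  simp only [Finset.expect_eq_sum_div_card, card_tup, Finset.card_insert_of_notMem ha,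
    Finset.card_univ, Fintype.card_fin, ← Finset.sum_div, p0, p1]
  push_cast
  rw [le_div_iff₀ (by positivity)]
  refine le_of_mul_le_mul_left (le_trans (le_of_eq ?_) this) hn
  field_simp

lemma p0_nonneg (k n : ℕ) : 0 ≤ p0 k n := by unfold p0; positivity
lemma p1_nonneg (k n : ℕ) : 0 ≤ p1 k n := by unfold p1; positivity

lemma p0_ge (k n : ℕ) : 1 - k / ((n : ℝ) + 1) ≤ p0 k n := by
  have h : (0:ℝ) < (n : ℝ) + 1 := by positivity
  have := one_add_mul_le_pow (a := -(1 / ((n : ℝ) + 1))) (by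
    have : 1 / ((n : ℝ) + 1) ≤ 1 := by rw [div_le_one h]; linarith [Nat.cast_nonneg (α := ℝ) n]
    linarith) k
  have e : 1 + -(1 / ((n : ℝ) + 1)) = n / ((n : ℝ) + 1) := by field_simp; ring
  rw [e, div_pow] at this
  unfold p0
  have e2 : (k : ℝ) * -(1 / ((n : ℝ) + 1)) = -(k / ((n : ℝ) + 1)) := by ring
  linarith

lemma p0_le (k n : ℕ) : p0 k n ≤ 1 := by
  unfold p0
  rw [div_le_one (by positivity)]
  exact pow_le_pow_left₀ (Nat.cast_nonneg _) (by linarith) k

lemma p1_eq (k n : ℕ) (hn : 0 < n) : p1 k n = k / n * p0 k n := by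
  have : (0:ℝ) < n := by exact_mod_cast hn
  unfold p1 p0; field_simp

lemma p1_eq' {k n : ℕ} (hk : 0 < k) (hn : 0 < n) : p1 k n = k / ((n : ℝ) + 1) * p0 (k - 1) n := by
  obtain ⟨k, rfl⟩ : ∃ k', k = k' + 1 := ⟨k - 1, by omega⟩
  have : (0:ℝ) < n := by exact_mod_cast hn
  unfold p1 p0
  simp only [Nat.add_sub_cancel, pow_succ]
  field_simp

lemma p2_le {k n : ℕ} (hk : 0 < k) (hn : 0 < n) :
    1 - p0 k n - p1 k n ≤ (k / ((n : ℝ) + 1)) ^ 2 := by
  have h1 := p0_ge k n
  have h2 := p0_ge (k - 1) n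
  rw [p1_eq' hk hn]
  have h : (0:ℝ) < (n : ℝ) + 1 := by positivity
  have h3 : ((k - 1 : ℕ) : ℝ) / ((n : ℝ) + 1) ≤ k / ((n : ℝ) + 1) := by
    gcongr; omega
  have h4 : (0:ℝ) ≤ k / ((n : ℝ) + 1) := by positivity
  nlinarith

lemma p01_le {S : Finset ι} (hS : S.Nonempty) (hk : 0 < k) {a : ι} (ha : a ∉ S) :
    p0 k S.card + p1 k S.card ≤ 1 := by
  have := expect_insert_ge hS hk ha (fun _ => (1:ℝ)) (fun _ => zero_le_one)
  have hT := tup_nonempty (k := k) hS
  have hT' := tup_nonempty (k := k) (Finset.insert_nonempty a S)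
  have hU : (Finset.univ : Finset (Fin k)).Nonempty := ⟨⟨0, hk⟩, Finset.mem_univ _⟩
  simpa [Finset.expect_const hT, Finset.expect_const hT', Finset.expect_const hU] using this

/-- the mixture of an old row and a new row -/
noncomputable def Tmix (c : Fin k → F) (S : Finset ι) (a : ι) :
    Module.End ℝ (Submodule F (ι → F) → ℝ) :=
  (1 - p1 k S.card) • Top c S + p1 k S.card • Tnew c S a

lemma Top_insert (c : Fin k → F) {S : Finset ι} (hS : S.Nonempty) (hk : 0 < k) {a : ι}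
    (ha : a ∉ S) {f : Submodule F (ι → F) → ℝ} (hf : f ∈ Lip F ι) (W : Submodule F (ι → F)) :
    Tmix c S a f W - (k / ((S.card : ℝ) + 1)) ^ 2 ≤ Top c (insert a S) f W := by
  have h := expect_insert_ge hS hk ha (fun r => f (W ⊔ Submodule.span F {vec c r}) - f W)
    (fun r => sub_nonneg.mpr (hf.1 le_sup_left))
  have hT := tup_nonempty (k := k) hS
  have hT' := tup_nonempty (k := k) (Finset.insert_nonempty a S)
  have hU : (Finset.univ : Finset (Fin k)).Nonempty := ⟨⟨0, hk⟩, Finset.mem_univ _⟩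
  simp only [Finset.expect_sub_distrib, Finset.expect_const hT, Finset.expect_const hT',
    Finset.expect_const hU] at h
  rw [← Tnew_apply] at h
  have e1 : 𝔼 r ∈ tup k S, f (W ⊔ Submodule.span F {vec c r}) = Top c S f W := rfl
  have e2 : 𝔼 r ∈ tup k (insert a S), f (W ⊔ Submodule.span F {vec c r})
      = Top c (insert a S) f W := rfl
  rw [e1, e2] at h
  have h1 := Top_le_lip c hS hf W
  have h2 := p01_le hS hk ha
  have h3 := p2_le hk (Finset.card_pos.mpr hS)
  unfold Tmix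
  simp only [LinearMap.add_apply, LinearMap.smul_apply, Pi.add_apply, Pi.smul_apply, smul_eq_mul]
  nlinarith [mul_le_mul_of_nonneg_left h1 (by linarith : 0 ≤ 1 - p0 k S.card - p1 k S.card)]

lemma Qop_insert {S : Finset ι} (hS : S.Nonempty) (hk : 0 < k) {a : ι}
    (ha : a ∉ S) {f : Submodule F (ι → F) → ℝ} (hf : f ∈ Lip F ι) (W : Submodule F (ι → F)) :
    Qop F k S f W - k * (k / ((S.card : ℝ) + 1)) ≤ Qop F k (insert a S) f W := by
  have h := expect_insert_ge hS hk ha (fun r => f (W ⊔ pins F r) - f W)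
    (fun r => sub_nonneg.mpr (hf.1 le_sup_left))
  have hT := tup_nonempty (k := k) hS
  have hT' := tup_nonempty (k := k) (Finset.insert_nonempty a S)
  have h4 : 0 ≤ 𝔼 j : Fin k, 𝔼 r ∈ tup k S, (f (W ⊔ pins F (Function.update r j a)) - f W) :=
    Finset.expect_nonneg fun _ _ => Finset.expect_nonneg fun _ _ =>
      sub_nonneg.mpr (hf.1 le_sup_left)
  have h5 := mul_nonneg (p1_nonneg k S.card) h4
  rw [Finset.expect_sub_distrib, Finset.expect_sub_distrib (tup k (insert a S)),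
    Finset.expect_const hT, Finset.expect_const hT'] at h
  have e1 : 𝔼 r ∈ tup k S, f (W ⊔ pins F r) = Qop F k S f W := rfl
  have e2 : 𝔼 r ∈ tup k (insert a S), f (W ⊔ pins F r) = Qop F k (insert a S) f W := rfl
  rw [e1, e2] at h
  have h1 := Qop_le_lip (k := k) hS hf W
  have h2 := p0_ge k S.card
  have h3 := p0_le k S.card
  have hk0 : (0:ℝ) ≤ k := Nat.cast_nonneg _
  nlinarith [mul_le_mul_of_nonneg_left h1 (by linarith : 0 ≤ 1 - p0 k S.card),
    mul_le_mul_of_nonneg_left h2 hk0]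

/-- binomial weights -/
noncomputable def bw (μ : ℕ) (p : ℝ) (j : ℕ) : ℝ := p ^ j * (1 - p) ^ (μ - j) * μ.choose j

lemma bw_nonneg (μ : ℕ) {p : ℝ} (h0 : 0 ≤ p) (h1 : p ≤ 1) (j : ℕ) : 0 ≤ bw μ p j := by
  have : 0 ≤ 1 - p := by linarith
  unfold bw; positivity

lemma bw_gen (μ : ℕ) (p y : ℝ) : ∑ j ∈ range (μ + 1), bw μ p j * y ^ j = (1 - p + p * y) ^ μ := by
  rw [add_comm (1 - p), add_pow]
  refine Finset.sum_congr rfl fun j _ => ?_
  unfold bw; rw [mul_pow]; ring

lemma bw_sum (μ : ℕ) (p : ℝ) : ∑ j ∈ range (μ + 1), bw μ p j = 1 := by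
  have := bw_gen μ p 1
  simpa using this

lemma bw_mean (μ : ℕ) (p : ℝ) : ∑ j ∈ range (μ + 1), bw μ p j * j = μ * p := by
  have := congrArg (Polynomial.eval p) (bernsteinPolynomial.sum_smul ℝ μ)
  rw [Polynomial.eval_finset_sum] at this
  simp only [bernsteinPolynomial, nsmul_eq_mul, Polynomial.eval_mul, Polynomial.eval_natCast,
    Polynomial.eval_pow, Polynomial.eval_X, Polynomial.eval_sub, Polynomial.eval_one] at this
  rw [← this]
  refine Finset.sum_congr rfl fun j _ => ?_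
  unfold bw; ring

lemma mix_pow {M : Type*} [AddCommGroup M] [Module ℝ M] {T N : Module.End ℝ M} (h : Commute T N)
    (p : ℝ) (μ : ℕ) :
    ((1 - p) • T + p • N) ^ μ = ∑ j ∈ range (μ + 1), bw μ p j • (T ^ (μ - j) * N ^ j) := by
  have hc : Commute (p • N) ((1 - p) • T) := (h.symm.smul_left p).smul_right (1 - p)
  rw [add_comm, hc.add_pow]
  refine Finset.sum_congr rfl fun j _ => ?_
  rw [smul_pow, smul_pow, smul_mul_smul_comm, (h.symm.pow_pow j (μ - j)).eq, bw, mul_smul,
    mul_smul, ← nsmul_eq_mul', mul_smul, ← Nat.cast_smul_eq_nsmul ℝ]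
  rw [smul_comm ((μ.choose j : ℕ) : ℝ), smul_comm ((μ.choose j : ℕ) : ℝ)]

lemma err_le {L j : ℕ} (h : L < j) : (2 * j + 1 : ℝ) ≤ 6 ^ j / 2 ^ L := by
  rw [le_div_iff₀ (by positivity)]
  have h1 : (2 * j + 1 : ℝ) ≤ 3 ^ j := by
    have := one_add_mul_le_pow (a := (2:ℝ)) (by norm_num) j
    norm_num at this
    linarith
  have h2 : (2:ℝ) ^ L ≤ 2 ^ j := pow_le_pow_right₀ (by norm_num) h.le
  calc (2 * j + 1 : ℝ) * 2 ^ L ≤ 3 ^ j * 2 ^ j := by gcongr
    _ = 6 ^ j := by rw [← mul_pow]; norm_num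

/-- pinning defect -/
noncomputable def Dl (F : Type*) [Field F] (k : ℕ) (a : ι) (S : Finset ι) (l : ℕ)
    (W : Submodule F (ι → F)) : ℝ := (Qop F k S ^ l) (alp a S) W - alp a S W

lemma Dl_nonneg (a : ι) {S : Finset ι} (hS : S.Nonempty) (l : ℕ) (W : Submodule F (ι → F)) :
    0 ≤ Dl F k a S l W :=
  sub_nonneg.mpr (((mk_Qop hS).pow l).infl _ (alp_mono a S) W)

lemma Dl_mono (a : ι) {S : Finset ι} (hS : S.Nonempty) {l l' : ℕ} (h : l ≤ l')
    (W : Submodule F (ι → F)) : Dl F k a S l W ≤ Dl F k a S l' W :=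
  sub_le_sub_right (Qpow_alp_le a hS h W) _

lemma Tmix_pow_ge (c : Fin k → F) (hc : ∀ j, c j ≠ 0) {S : Finset ι} (hS : S.Nonempty)
    (hk : 0 < k) {a : ι} (ha : a ∉ S) (m₀ L : ℕ) {W : Submodule F (ι → F)} (hW : W ∈ Ua F a) :
    (Top c S ^ m₀) (fun Y => rk Y + (L - (m₀ + L : ℕ) * p1 k S.card) * (1 - al S Y ^ k)
        + (m₀ + L : ℕ) * p1 k S.card * (1 - al S Y ^ (k - 1)) + 1
        - (1 - p1 k S.card * al S Y ^ (k - 1)) ^ (m₀ + L) - L * k * Dl F k a S L Y) W
      - Real.exp (5 * ((m₀ + L : ℕ) * p1 k S.card)) / 2 ^ L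
      ≤ (Tmix c S a ^ (m₀ + L)) rk W := by
  set p := p1 k S.card with hp
  have hp0 : 0 ≤ p := p1_nonneg _ _
  have hp1 : p ≤ 1 := by linarith [p01_le hS hk ha, p0_nonneg k S.card]
  set μ := m₀ + L with hμ
  have hT := mk_Top c hS
  have hN := mk_Tnew c hS hk a
  set g : ℕ → Submodule F (ι → F) → ℝ := fun j Y => rk Y + (L - j) * (1 - al S Y ^ k)
    + j * (1 - al S Y ^ (k - 1)) + 1 - (1 - al S Y ^ (k - 1)) ^ j - L * k * Dl F k a S L Y with hg
  have key : ∀ j ∈ range (μ + 1), (Top c S ^ m₀) (g j) W - 6 ^ j / 2 ^ L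
      ≤ (Top c S ^ (μ - j) * Tnew c S a ^ j) rk W := by
    intro j hj
    have hj' : j ≤ μ := Nat.lt_succ_iff.mp (Finset.mem_range.mp hj)
    rcases le_or_gt j L with h | h
    · have e : μ - j = m₀ + (L - j) := by omega
      rw [e, pow_add, Module.End.mul_apply, Module.End.mul_apply]
      have := (posOn_Top a c ha).pow m₀ (g j)
        ((Top c S ^ (L - j)) ((Tnew c S a ^ j) rk)) (fun Y hY => by
          have := local_lower a c hc hS hk ha hY (L - j) j
          have e2 : j + (L - j) = L := by omega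
          rw [e2, Nat.cast_sub h] at this
          exact this) W hW
      have : (0:ℝ) ≤ 6 ^ j / 2 ^ L := by positivity
      linarith
    · have e : m₀ = (μ - j) + (j - L) := by omega
      have h1 : (Top c S ^ m₀) (g j) W ≤ (Top c S ^ m₀) rk W + (j + 1) := by
        rw [← (hT.pow m₀).add_const]
        refine (hT.pow m₀).le (fun Y => ?_) W
        have hal := al_bounds hS Y
        have b1 : al S Y ^ k ≤ 1 := pow_le_one₀ hal.1 hal.2
        have b2 : al S Y ^ (k - 1) ≤ 1 := pow_le_one₀ hal.1 hal.2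
        have b3 : 0 ≤ al S Y ^ (k - 1) := pow_nonneg hal.1 _
        have b4 : 0 ≤ (1 - al S Y ^ (k - 1)) ^ j := pow_nonneg (by linarith) _
        have b5 : (0:ℝ) ≤ L * k * Dl F k a S L Y := by
          have := Dl_nonneg (F := F) (k := k) a hS L Y
          positivity
        have b6 : (L : ℝ) - j ≤ 0 := by
          have : (L : ℝ) ≤ j := by exact_mod_cast h.le
          linarith
        have b7 : (0:ℝ) ≤ j := Nat.cast_nonneg _
        simp only [hg]
        nlinarith [mul_nonneg b7 b3, mul_nonneg_of_nonpos_of_nonpos b6 (by linarith : al S Y ^ k - 1 ≤ 0)]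
      have h2 : (Top c S ^ m₀) rk W ≤ (Top c S ^ (μ - j)) rk W + j := by
        rw [← (hT.pow (μ - j)).add_const]
        conv_lhs => rw [e, pow_add, Module.End.mul_apply]
        refine (hT.pow (μ - j)).le (fun Y => ?_) W
        have := iter_le hT hT.pos (c := 1) (fun Y _ => Top_le_lip c hS rk_lip Y) (j - L) Y
          (Set.mem_univ _)
        have b : ((j - L : ℕ) : ℝ) ≤ j := by exact_mod_cast Nat.sub_le j L
        linarith
      have h3 : (Top c S ^ (μ - j)) rk W ≤ (Top c S ^ (μ - j) * Tnew c S a ^ j) rk W := by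
        rw [Module.End.mul_apply]
        exact (hT.pow (μ - j)).le (fun Y => (hN.pow j).infl _ rk_mono Y) W
      linarith [err_le h]
  have hsum := Finset.sum_le_sum fun j hj =>
    mul_le_mul_of_nonneg_left (key j hj) (bw_nonneg μ hp0 hp1 j)
  have eR : (Tmix c S a ^ μ) rk W
      = ∑ j ∈ range (μ + 1), bw μ p j * (Top c S ^ (μ - j) * Tnew c S a ^ j) rk W := by
    unfold Tmix
    rw [mix_pow (show Commute (Top c S) (Tnew c S a) from op_comm _ _ _ _), LinearMap.sum_apply,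
      Finset.sum_apply]
    rfl
  have eL : (fun Y => rk Y + (L - (μ : ℝ) * p) * (1 - al S Y ^ k)
        + (μ : ℝ) * p * (1 - al S Y ^ (k - 1)) + 1
        - (1 - p * al S Y ^ (k - 1)) ^ μ - L * k * Dl F k a S L Y)
      = ∑ j ∈ range (μ + 1), bw μ p j • g j := by
    funext Y
    rw [Finset.sum_apply]
    have s1 := bw_sum μ p
    have s2 := bw_mean μ p
    have s3 := bw_gen μ p (1 - al S Y ^ (k - 1))
    have : ∀ j, (bw μ p j • g j) Y = (rk Y + L * (1 - al S Y ^ k) + 1 - L * k * Dl F k a S L Y)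
        * bw μ p j + (al S Y ^ k - al S Y ^ (k - 1)) * (bw μ p j * j)
        - bw μ p j * (1 - al S Y ^ (k - 1)) ^ j := by
      intro j; simp only [hg, Pi.smul_apply, smul_eq_mul]; ring
    simp only [this]
    rw [Finset.sum_sub_distrib, Finset.sum_add_distrib, ← Finset.mul_sum, ← Finset.mul_sum, s1, s2,
      s3]
    have : 1 - p + p * (1 - al S Y ^ (k - 1)) = 1 - p * al S Y ^ (k - 1) := by ring
    rw [this]; ring
  rw [eR, eL, map_sum, Finset.sum_apply]
  refine le_trans ?_ hsum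
  simp only [mul_sub, Finset.sum_sub_distrib, map_smul, Pi.smul_apply, smul_eq_mul]
  refine sub_le_sub_left ?_ _
  have s4 := bw_gen μ p 6
  have : ∑ j ∈ range (μ + 1), bw μ p j * ((6:ℝ) ^ j / 2 ^ L) = (1 - p + p * 6) ^ μ / 2 ^ L := by
    rw [← s4, Finset.sum_div]
    exact Finset.sum_congr rfl fun j _ => by ring
  rw [this]
  gcongr
  have e5 : 5 * ((μ : ℝ) * p) = (μ : ℝ) * (5 * p) := by ring
  rw [e5, Real.exp_nat_mul]
  refine pow_le_pow_left₀ (by linarith) ?_ μ
  linarith [Real.add_one_le_exp (5 * p)]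

end Pool.Agent.H886Z.UE
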