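import Pool.Agent.H886Z.UE.Model

/-! The hidden abelian group structure. -/

open Finset
open scoped BigOperators

namespace Pool.Agent.H886Z.UE

variable {Ω : Type}

/-- a commutative associative operation with unit and inverses is an abelian group -/
@[reducible] noncomputable def mkGroup (add : Ω → Ω → Ω) (z : Ω)
    (comm : ∀ x y, add x y = add y x) (assoc : ∀ x y w, add (add x y) w = add x (add y w))
    (zero : ∀ x, add x z = x) (inv : ∀ x, ∃ y, add y x = z) : AddCommGroup Ω :=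
  letI : Add Ω := ⟨add⟩
  letI : Zero Ω := ⟨z⟩
  letI : Neg Ω := ⟨fun x => (inv x).choose⟩
  { AddGroup.ofLeftAxioms (G := Ω) assoc (fun x => (comm z x).trans (zero x))
      (fun x => (inv x).choose_spec) with
    add_comm := comm }

section one
variable {k : ℕ}

theorem group_of_reducible (hk : 4 ≤ k) {Ψ : Set (Con k Ω)} (hU : ∀ ψ ∈ Ψ, IsUE ψ)
    (hC : Commutative Ψ) (hR : Reducible Ψ) {ψ₀ : Con k Ω} (h₀ : ψ₀ ∈ Ψ) (z : Ω) :
    ∃ _ : AddCommGroup Ω, ∀ ψ ∈ Ψ, ∃ b, ∀ σ, ψ σ = true ↔ ∑ j, σ j = b := by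
  classical
  set i0 : Fin k := ⟨0, by omega⟩ with hi0
  set i1 : Fin k := ⟨1, by omega⟩ with hi1
  set i2 : Fin k := ⟨2, by omega⟩ with hi2
  set i3 : Fin k := ⟨3, by omega⟩ with hi3
  have n01 : i0 ≠ i1 := by simp [hi0, hi1]
  have n02 : i0 ≠ i2 := by simp [hi0, hi2]
  have n03 : i0 ≠ i3 := by simp [hi0, hi3]
  have n12 : i1 ≠ i2 := by simp [hi1, hi2]
  have n13 : i1 ≠ i3 := by simp [hi1, hi3]
  have n23 : i2 ≠ i3 := by simp [hi2, hi3]
  -- two-slot substitution
  let P : (Fin k → Ω) → Fin k → Fin k → Ω → Ω → Fin k → Ω := fun η i j x y =>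
    Function.update (Function.update η j y) i x
  have glue2 : ∀ (η η' : Fin k → Ω) (x y : Ω), glue 2 (P η' i0 i1 x y) η = P η i0 i1 x y := by
    intro η η' x y
    funext i
    simp only [glue, P]
    by_cases e0 : i = i0
    · subst e0; simp [hi0]
    · by_cases e1 : i = i1
      · subst e1
        rw [if_pos (show ((i1 : Fin k) : ℕ) < 2 by simp [hi1])]
        simp only [Function.update_of_ne n01.symm, Function.update_self]
      · have : ¬ (i : ℕ) < 2 := by
          intro h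
          have a0 : (i : ℕ) ≠ 0 := fun e => e0 (Fin.ext e)
          have a1 : (i : ℕ) ≠ 1 := fun e => e1 (Fin.ext e)
          omega
        simp [this, Function.update_of_ne e0, Function.update_of_ne e1]
  have red : ∀ ψ ∈ Ψ, ∀ ψ' ∈ Ψ, ∀ η η' x y x' y', ψ (P η i0 i1 x y) = true →
      ψ (P η i0 i1 x' y') = true → ψ' (P η' i0 i1 x y) = true → ψ' (P η' i0 i1 x' y') = true := by
    intro ψ h ψ' h' η η' x y x' y' a b c
    have := hR 2 (by omega) (P η i0 i1 x y) (P η i0 i1 x' y') η η' ψ h ψ' h'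
    simp only [glue2] at this
    exact this a b c
  have compl : ∀ (σ : Fin k → Ω) (i : Fin k), ∃ w, ψ₀ (Function.update σ i w) = true :=
    fun σ i => (hU ψ₀ h₀ i σ).exists
  have ex : ∀ x y, ∃ η, ψ₀ (P η i0 i1 x y) = true := by
    intro x y
    obtain ⟨w, hw⟩ := compl (P (fun _ => z) i0 i1 x y) i2
    refine ⟨Function.update (fun _ => z) i2 w, ?_⟩
    rw [← hw]
    congr 1
    simp only [P]
    rw [Function.update_comm n02, Function.update_comm n12]
  have exadd : ∀ x y, ∃ s, ∀ ψ ∈ Ψ, ∀ η, ψ (P η i0 i1 x y) = true ↔ ψ (P η i0 i1 s z) = true := by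
    intro x y
    obtain ⟨η₀, h⟩ := ex x y
    obtain ⟨s, hs⟩ := compl (Function.update η₀ i1 z) i0
    exact ⟨s, fun ψ hψ η => ⟨red ψ₀ h₀ ψ hψ η₀ η x y s z h hs, red ψ₀ h₀ ψ hψ η₀ η s z x y hs h⟩⟩
  choose add hadd using exadd
  have uniq : ∀ ψ ∈ Ψ, ∀ (σ : Fin k → Ω) i x y, ψ (Function.update σ i x) = true →
      ψ (Function.update σ i y) = true → x = y :=
    fun ψ h σ i x y a b => (hU ψ h i σ).unique a b
  -- the rule at arbitrary positions
  have rule : ∀ ψ ∈ Ψ, ∀ (σ : Fin k → Ω) (i j : Fin k), i ≠ j →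
      (ψ σ = true ↔ ψ (P σ i j (add (σ i) (σ j)) z) = true) := by
    intro ψ hψ σ i j hij
    obtain ⟨s, s0, s1⟩ : ∃ s : Equiv.Perm (Fin k), s i0 = i ∧ s i1 = j := by
      refine ⟨Equiv.swap (Equiv.swap i0 i i1) j * Equiv.swap i0 i, ?_, ?_⟩
      · rw [Equiv.Perm.mul_apply, Equiv.swap_apply_left]
        refine Equiv.swap_apply_of_ne_of_ne ?_ hij
        intro e
        have := congrArg (Equiv.swap i0 i) e
        rw [Equiv.swap_apply_right, Equiv.swap_apply_self] at this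
        exact n01 this
      · rw [Equiv.Perm.mul_apply, Equiv.swap_apply_left]
    have e : ∀ x y, P σ i j x y ∘ s = P (σ ∘ s) i0 i1 x y := by
      intro x y
      simp only [P]
      rw [← s0, ← s1, Function.update_comp_eq_of_injective _ s.injective,
        Function.update_comp_eq_of_injective _ s.injective]
    have e2 : σ = P σ i j (σ i) (σ j) := by simp [P]
    rw [← hC ψ hψ s (P σ i j _ z), e, ← hadd _ _ ψ hψ, ← e, hC ψ hψ, ← e2]
  have zero : ∀ x, add x z = x := by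
    intro x
    obtain ⟨η, h⟩ := ex x z
    exact uniq ψ₀ h₀ _ i0 _ _ ((hadd x z ψ₀ h₀ η).mp h) h
  have comm : ∀ x y, add x y = add y x := by
    intro x y
    obtain ⟨η, h⟩ := ex x y
    have h2 : ψ₀ (P η i0 i1 y x) = true := by
      rw [← h, ← hC ψ₀ h₀ (Equiv.swap i0 i1)]
      congr 1
      funext i
      simp only [P, Function.comp]
      by_cases e0 : i = i0
      · subst e0; simp [Function.update_of_ne n01.symm]
      · by_cases e1 : i = i1
        · subst e1; simp [Function.update_of_ne n01.symm]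
        · rw [Equiv.swap_apply_of_ne_of_ne e0 e1]
          simp [Function.update_of_ne e0, Function.update_of_ne e1]
    exact uniq ψ₀ h₀ _ i0 _ _ ((hadd x y ψ₀ h₀ η).mp h) ((hadd y x ψ₀ h₀ η).mp h2)
  have assoc : ∀ x y w, add (add x y) w = add x (add y w) := by
    intro x y w
    obtain ⟨t, ht⟩ := compl (P (Function.update (fun _ => z) i2 w) i0 i1 x y) i3
    set σ := Function.update (P (Function.update (fun _ => z) i2 w) i0 i1 x y) i3 t with hσ
    have v0 : σ i0 = x := by simp [hσ, P, n03]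
    have v1 : σ i1 = y := by simp [hσ, P, n13, n01.symm]
    have v2 : σ i2 = w := by simp [hσ, P, n23, n02.symm, n12.symm]
    have a1 := (rule ψ₀ h₀ _ i0 i2 n02).mp ((rule ψ₀ h₀ σ i0 i1 n01).mp ht)
    have a2 := (rule ψ₀ h₀ _ i0 i1 n01).mp ((rule ψ₀ h₀ σ i1 i2 n12).mp ht)
    simp only [P, Function.update_self, Function.update_of_ne n02.symm,
      Function.update_of_ne n12.symm, Function.update_of_ne n01, Function.update_of_ne n02,
      v0, v1, v2, Function.update_idem] at a1 a2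
    refine uniq ψ₀ h₀ (Function.update (Function.update σ i1 z) i2 z) i0 _ _ ?_ ?_
    · rw [← a1, Function.update_comm n02, Function.update_idem]
    · rw [← a2, Function.update_comm n12]
  have inv : ∀ x, ∃ y, add y x = z := by
    intro x
    obtain ⟨η, h⟩ := ex z z
    obtain ⟨y, hy⟩ := compl (Function.update η i1 x) i0
    exact ⟨y, uniq ψ₀ h₀ _ i0 _ _ ((hadd y x ψ₀ h₀ η).mp hy) h⟩
  letI G := mkGroup add z comm assoc zero inv
  refine ⟨G, fun ψ hψ => ?_⟩
  have main : ∀ (S : Finset (Fin k)), i0 ∉ S → ∀ σ : Fin k → Ω, (∀ i, i ≠ i0 → i ∉ S → σ i = 0) →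
      (ψ σ = true ↔ ψ (Function.update (fun _ => 0) i0 (∑ j, σ j)) = true) := by
    intro S
    induction S using Finset.induction_on with
    | empty =>
      intro _ σ h
      have : σ = Function.update (fun _ => 0) i0 (∑ j, σ j) := by
        funext i
        by_cases e : i = i0
        · subst e
          rw [Function.update_self, Finset.sum_eq_single_of_mem _ (Finset.mem_univ _)
            fun b _ hb => h b hb (Finset.notMem_empty _)]
        · rw [Function.update_of_ne e]; exact h i e (Finset.notMem_empty _)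
      rw [← this]
    | insert a S ha ih =>
      intro h0 σ h
      have ha0 : i0 ≠ a := fun e => h0 (e ▸ Finset.mem_insert_self _ _)
      rw [rule ψ hψ σ i0 a ha0, ih (fun hh => h0 (Finset.mem_insert_of_mem hh))]
      · have : ∑ j, P σ i0 a (add (σ i0) (σ a)) z j = ∑ j, σ j := by
          simp only [P]
          rw [Finset.sum_update_of_mem (Finset.mem_univ _), Finset.sum_update_of_mem
            (by simp [ha0.symm]), ← Finset.add_sum_erase _ σ (Finset.mem_univ i0),
            ← Finset.add_sum_erase _ σ (show a ∈ Finset.univ.erase i0 by simp [ha0.symm]),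
            Finset.sdiff_singleton_eq_erase, Finset.sdiff_singleton_eq_erase]
          change σ i0 + σ a + (0 + _) = _
          rw [zero_add, add_assoc]
        rw [this]
      · intro i hi hiS
        simp only [P]
        rw [Function.update_of_ne hi]
        by_cases e : i = a
        · subst e; rw [Function.update_self]; rfl
        · rw [Function.update_of_ne e]
          exact h i hi (by simp [e, hiS])
  obtain ⟨b, hb, hb'⟩ := hU ψ hψ i0 (fun _ => 0)
  refine ⟨b, fun σ => ?_⟩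
  rw [main (Finset.univ.erase i0) (Finset.notMem_erase _ _) σ (fun i hi h => by simp [hi] at h)]
  exact ⟨hb' _, fun e => e ▸ hb⟩

end one

lemma ext3_iff {ψ : Con 3 Ω} (h : IsUE ψ) (a b c : Ω) : ψ ![a, b, c] = true ↔ ext3 ψ a b = c := by
  have e : ∀ τ, Function.update ![a, b, c] 2 τ = ![a, b, τ] := by
    intro τ; funext i; fin_cases i <;> rfl
  have := h 2 ![a, b, c]
  simp only [e] at this
  have hs : ψ ![a, b, ext3 ψ a b] = true := Classical.epsilon_spec this.exists
  exact ⟨fun hc => this.unique hs hc, fun hc => hc ▸ hs⟩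

lemma ext3_left {ψ : Con 3 Ω} (h : IsUE ψ) (b c : Ω) : ∃! a, ext3 ψ a b = c := by
  have e : ∀ τ, Function.update ![b, b, c] 0 τ = ![τ, b, c] := by
    intro τ; funext i; fin_cases i <;> rfl
  have := h 0 ![b, b, c]
  simpa only [e, ext3_iff h] using this

theorem group_of_F2 {Ψ : Set (Con 3 Ω)} (hU : ∀ ψ ∈ Ψ, IsUE ψ) (hS : F2Symmetric Ψ)
    {ψ₀ : Con 3 Ω} (h₀ : ψ₀ ∈ Ψ) (z : Ω) :
    ∃ (_ : AddCommGroup Ω) (φ : Ω →+ Ω), Function.Injective φ ∧
      ∀ ψ ∈ Ψ, ∃ b, ∀ σ, ψ σ = true ↔ φ (σ 0) + φ (σ 1) - σ 2 = b := by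
  set f := ext3 ψ₀ with hf
  have U := hU ψ₀ h₀
  have canc : ∀ {ψ}, ψ ∈ Ψ → ∀ {a a' b}, ext3 ψ a b = ext3 ψ a' b → a = a' :=
    fun h _ _ b e => (ext3_left (hU _ h) b _).unique e rfl
  have sw01 : ∀ ψ₁ ∈ Ψ, ∀ a b c d, f (ext3 ψ₁ b a) (f c d) = f (ext3 ψ₁ a b) (f c d) :=
    fun ψ₁ h a b c d => hS ψ₀ h₀ ψ₁ h ψ₀ h₀ (Equiv.swap 0 1) ![a, b, c, d]
  have sw12 : ∀ a b c d, f (f a c) (f b d) = f (f a b) (f c d) :=
    fun a b c d => hS ψ₀ h₀ ψ₀ h₀ ψ₀ h₀ (Equiv.swap 1 2) ![a, b, c, d]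
  have sw : ∀ ψ₁ ∈ Ψ, ∀ a b c d, f (ext3 ψ₁ c d) (f a b) = f (ext3 ψ₁ a b) (f c d) :=
    fun ψ₁ h a b c d => (hS ψ₀ h₀ ψ₁ h ψ₀ h₀ (Equiv.swap 1 3) ![c, b, a, d]).trans
      (hS ψ₀ h₀ ψ₁ h ψ₀ h₀ (Equiv.swap 0 2) ![a, b, c, d])
  have fcomm : ∀ a b, f a b = f b a := fun a b => canc h₀ (sw01 ψ₀ h₀ b a z z)
  choose add hadd using fun x y => (ext3_left U z (f x y)).exists
  have hadd' : ∀ x y, f (add x y) z = f x y := hadd
  have comm : ∀ x y, add x y = add y x := fun x y =>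
    canc h₀ ((hadd' x y).trans ((fcomm x y).trans (hadd' y x).symm))
  have zero : ∀ x, add x z = x := fun x => canc h₀ (hadd' x z)
  have assoc : ∀ x y w, add (add x y) w = add x (add y w) := by
    intro x y w
    have e1 : f (f (add (add x y) w) z) (f z z) = f (f x y) (f w z) := by
      rw [hadd', sw12, hadd']
    have e2 : f (f (add x (add y w)) z) (f z z) = f (f x y) (f w z) := by
      rw [hadd', sw12, hadd', ← sw12, fcomm z w]
    exact canc h₀ (canc h₀ (e1.trans e2.symm))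
  have inv : ∀ x, ∃ y, add y x = z := by
    intro x
    obtain ⟨y, hy⟩ := (ext3_left U x (f z z)).exists
    exact ⟨y, canc h₀ ((hadd' y x).trans hy)⟩
  letI G := mkGroup add z comm assoc zero inv
  have hf2 : ∀ x y, f x y = f (x + y) 0 := fun x y => (hadd' x y).symm
  have lam : ∀ a c, f a 0 + f c 0 = f (a + c) 0 + f 0 0 := by
    intro a c
    have := sw12 a 0 c 0
    rw [hf2 (f a c), hf2 (f a 0), hf2 a c] at this
    exact (canc h₀ this).symm
  let φ : Ω →+ Ω := AddMonoidHom.mk' (fun x => f x 0 - f 0 0) fun a c => by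
    rw [eq_sub_of_add_eq (lam a c).symm]; abel
  have hφ : ∀ x, φ x = f x 0 - f 0 0 := fun _ => rfl
  refine ⟨G, φ, fun a b h => canc h₀ (sub_left_injective h), fun ψ hψ => ⟨-ext3 ψ 0 0, fun σ => ?_⟩⟩
  have e : σ = ![σ 0, σ 1, σ 2] := by funext i; fin_cases i <;> rfl
  have key : ext3 ψ (σ 0) (σ 1) = φ (σ 0) + φ (σ 1) + ext3 ψ 0 0 := by
    have := sw ψ hψ (σ 0) (σ 1) 0 0
    rw [hf2 (ext3 ψ 0 0), hf2 (ext3 ψ (σ 0) (σ 1)), hf2 (σ 0)] at this
    have h2 := canc h₀ this
    rw [← map_add, hφ, eq_sub_of_add_eq h2.symm]; abel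
  conv_lhs => rw [e]
  rw [ext3_iff (hU ψ hψ), key]
  constructor
  · intro h; rw [← h]; abel
  · intro h; rw [eq_add_of_sub_eq h]; abel

variable [Fintype Ω] [DecidableEq Ω]

lemma supp_nonempty {k : ℕ} {π : Con k Ω → ℝ} (h : IsDist π) : ∃ ψ, ψ ∈ supp π := by
  by_contra hn
  push Not at hn
  have : ∑ ψ, π ψ = 0 := Finset.sum_eq_zero fun ψ _ => not_not.mp (hn ψ)
  rw [h.2.1] at this
  exact one_ne_zero this

theorem rs_reducible [Nonempty Ω] {k : ℕ} (hk : 4 ≤ k) {π : Con k Ω → ℝ} (h : IsDist π)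
    (hC : Commutative (supp π)) (hR : Reducible (supp π)) : RS π := by
  obtain ⟨ψ₀, h₀⟩ := supp_nonempty h
  obtain ⟨G, hG⟩ := group_of_reducible hk h.2.2 hC hR h₀ (Classical.arbitrary Ω)
  refine rs_of_linear (R := ℤ) (fun _ => 1) (by omega) (fun j x y e => by simpa using e) h
    fun ψ hψ => ?_
  simpa using hG ψ hψ

theorem rs_F2 [Nonempty Ω] {π : Con 3 Ω → ℝ} (h : IsDist π) (hS : F2Symmetric (supp π)) :
    RS π := by
  obtain ⟨ψ₀, h₀⟩ := supp_nonempty h
  obtain ⟨G, φ, hφ, hG⟩ := group_of_F2 h.2.2 hS h₀ (Classical.arbitrary Ω)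
  letI : Module (Polynomial ℤ) Ω :=
    Module.compHom Ω (Polynomial.aeval (R := ℤ) (φ.toIntLinearMap : Module.End ℤ Ω)).toRingHom
  have hX : ∀ x : Ω, (Polynomial.X : Polynomial ℤ) • x = φ x := fun x => by
    change Polynomial.aeval (R := ℤ) (φ.toIntLinearMap : Module.End ℤ Ω) Polynomial.X x = _
    rw [Polynomial.aeval_X]; rfl
  refine rs_of_linear (R := Polynomial ℤ) ![Polynomial.X, Polynomial.X, -1] le_rfl ?_ h
    fun ψ hψ => ?_
  · intro j x y e
    fin_cases j
    · exact hφ (by simpa [hX] using e)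
    · exact hφ (by simpa [hX] using e)
    · simpa using e
  · obtain ⟨b, hb⟩ := hG ψ hψ
    refine ⟨b, fun σ => ?_⟩
    rw [hb, Fin.sum_univ_three]
    simp [hX, sub_eq_add_neg]

end Pool.Agent.H886Z.UE
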